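import Mathlib

set_option autoImplicit false

namespace ConradSol

universe u v

/-- `P` is a positive cone relative to the subgroup `H`
(so `H` is relatively convex: convex for some right order when `H` itself is right orderable). -/
structure IsRC {G : Type*} [Group G] (H : Subgroup G) (P : Set G) : Prop where
  mul_mem : ∀ x ∈ P, ∀ y ∈ P, x * y ∈ P
  left_mem : ∀ h ∈ H, ∀ x ∈ P, h * x ∈ P
  right_mem : ∀ h ∈ H, ∀ x ∈ P, x * h ∈ P
  not_mem : ∀ x ∈ P, x ∉ H
  total : ∀ x, x ∉ H → x ∈ P ∨ x⁻¹ ∈ P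

/-- `H` is relatively convex. -/
def RC {G : Type*} [Group G] (H : Subgroup G) : Prop := ∃ P : Set G, IsRC H P

/-- positive cone of a right order -/
structure Cone {G : Type*} [Group G] (P : Set G) : Prop where
  mul_mem : ∀ x ∈ P, ∀ y ∈ P, x * y ∈ P
  one_not_mem : (1 : G) ∉ P
  total : ∀ x, x ≠ 1 → x ∈ P ∨ x⁻¹ ∈ P

/-- positive cone of a two-sided order -/
structure BiCone {G : Type*} [Group G] (P : Set G) : Prop extends Cone P where
  conj_mem : ∀ g, ∀ x ∈ P, g * x * g⁻¹ ∈ P

/-- the group admits a two-sided order -/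
def Orderable (G : Type*) [Group G] : Prop := ∃ P : Set G, BiCone P

/-- the group admits a right order -/
def RightOrderable (G : Type*) [Group G] : Prop := ∃ P : Set G, Cone P

/-- the right order `x < y ↔ y * x⁻¹ ∈ P` is a Conrad order -/
def ConradCone {G : Type*} [Group G] (P : Set G) : Prop :=
  ∀ f g, f ∈ P → g * f⁻¹ ∈ P → ∃ m : ℕ, 1 ≤ m ∧ f * g ^ m * f⁻¹ * g⁻¹ ∈ P

/-- all right orders are Conrad -/
def AllConrad (G : Type*) [Group G] : Prop := ∀ P : Set G, Cone P → ConradCone P

/-- orderable, and all right orders are Conrad -/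
def OX (G : Type*) [Group G] : Prop := Orderable G ∧ AllConrad G

/-- two-sided order all of whose convex jumps are central: `[g,h] ≪ h` -/
structure CentralCone {G : Type*} [Group G] (P : Set G) : Prop extends BiCone P where
  central : ∀ g h, h ∈ P → ∀ k : ℤ, h * (g * h * g⁻¹ * h⁻¹) ^ k ∈ P

section cones
variable {G : Type*} [Group G] {P : Set G}

lemma Cone.inv_not_mem (hP : Cone P) {x : G} (hx : x ∈ P) : x⁻¹ ∉ P := by
  intro h
  have := hP.mul_mem _ hx _ h
  rw [mul_inv_cancel] at this
  exact hP.one_not_mem this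

lemma Cone.ne_one (hP : Cone P) {x : G} (hx : x ∈ P) : x ≠ 1 := by
  rintro rfl; exact hP.one_not_mem hx

lemma Cone.pow_mem (hP : Cone P) {x : G} (hx : x ∈ P) : ∀ {n : ℕ}, 1 ≤ n → x ^ n ∈ P := by
  intro n hn
  induction n, hn using Nat.le_induction with
  | base => simpa using hx
  | succ k hk ih => rw [pow_succ]; exact hP.mul_mem _ ih _ hx

lemma Cone.pow_eq_one (hP : Cone P) {x : G} {n : ℕ} (hn : 1 ≤ n) (h : x ^ n = 1) : x = 1 := by
  by_contra hx
  rcases hP.total x hx with h1 | h1
  · exact hP.ne_one (hP.pow_mem h1 hn) h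
  · refine hP.ne_one (hP.pow_mem h1 hn) ?_
    rw [inv_pow, h, inv_one]

/-- trichotomy -/
lemma Cone.trich (hP : Cone P) (x : G) : x ∈ P ∨ x = 1 ∨ x⁻¹ ∈ P := by
  by_cases hx : x = 1
  · exact Or.inr (Or.inl hx)
  · rcases hP.total x hx with h | h
    · exact Or.inl h
    · exact Or.inr (Or.inr h)

lemma cone_iff_isRC_bot : Cone P ↔ IsRC (⊥ : Subgroup G) P := by
  constructor
  · intro hP
    refine ⟨hP.mul_mem, ?_, ?_, ?_, ?_⟩
    · intro h hh x hx
      rw [Subgroup.mem_bot] at hh
      simpa [hh] using hx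
    · intro h hh x hx
      rw [Subgroup.mem_bot] at hh
      simpa [hh] using hx
    · intro x hx
      rw [Subgroup.mem_bot]
      exact hP.ne_one hx
    · intro x hx
      rw [Subgroup.mem_bot] at hx
      exact hP.total x hx
  · intro hP
    refine ⟨hP.mul_mem, ?_, ?_⟩
    · intro h
      exact hP.not_mem _ h (Subgroup.one_mem _)
    · intro x hx
      exact hP.total x (by rwa [Subgroup.mem_bot])

end cones

end ConradSol
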