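import Pool.Agent.Helper277.Inherit

set_option autoImplicit false

namespace ConradSol

universe u v

open scoped Classical in
/-- the linear order attached to a cone: `x < y ↔ y * x⁻¹ ∈ P` -/
@[instance_reducible]
noncomputable def BiCone.linearOrder {G : Type*} [Group G] {P : Set G} (hP : BiCone P) :
    LinearOrder G where
  le x y := x = y ∨ y * x⁻¹ ∈ P
  lt x y := y * x⁻¹ ∈ P
  le_refl x := Or.inl rfl
  le_trans := by
    rintro x y z (rfl | h1) (rfl | h2)
    · exact Or.inl rfl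
    · exact Or.inr h2
    · exact Or.inr h1
    · right
      have := hP.mul_mem _ h2 _ h1
      rwa [show z * y⁻¹ * (y * x⁻¹) = z * x⁻¹ by group] at this
  le_antisymm := by
    rintro x y (h1 | h1) (h2 | h2)
    · exact h1
    · exact h1
    · exact h2.symm
    · exfalso
      have := hP.mul_mem _ h2 _ h1
      rw [show x * y⁻¹ * (y * x⁻¹) = 1 by group] at this
      exact hP.one_not_mem this
  le_total := by
    intro x y
    rcases hP.trich (y * x⁻¹) with h | h | h
    · exact Or.inl (Or.inr h)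
    · exact Or.inl (Or.inl (mul_inv_eq_one.mp h).symm)
    · refine Or.inr (Or.inr ?_)
      rwa [mul_inv_rev, inv_inv] at h
  lt_iff_le_not_ge := by
    intro x y
    constructor
    · intro h
      refine ⟨Or.inr h, ?_⟩
      rintro (h1 | h1)
      · rw [h1, mul_inv_cancel] at h; exact hP.one_not_mem h
      · have := hP.mul_mem _ h1 _ h
        rw [show x * y⁻¹ * (y * x⁻¹) = 1 by group] at this
        exact hP.one_not_mem this
    · rintro ⟨h | h, h2⟩
      · exact absurd (Or.inl h.symm) h2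
      · exact h
  toDecidableLE := fun _ _ => Classical.dec _

section
variable {G : Type*} [Group G] {P : Set G}

lemma BiCone.mulLeft (hP : BiCone P) : @MulLeftStrictMono G _ hP.linearOrder.toLT := by
  let _ := hP.linearOrder
  refine ⟨fun a b c h => ?_⟩
  change (a * c) * (a * b)⁻¹ ∈ P
  have := hP.conj_mem a _ h
  rwa [show a * (c * b⁻¹) * a⁻¹ = (a * c) * (a * b)⁻¹ by group] at this

lemma BiCone.mulRight (hP : BiCone P) : @MulRightStrictMono G _ hP.linearOrder.toLT := by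
  let _ := hP.linearOrder
  refine ⟨fun a b c h => ?_⟩
  change (c * a) * (b * a)⁻¹ ∈ P
  have h' : c * b⁻¹ ∈ P := h
  rwa [show (c * a) * (b * a)⁻¹ = c * b⁻¹ by group]

end

section ord
variable {G : Type*} [Group G] [LinearOrder G] [MulLeftStrictMono G] [MulRightStrictMono G]

local instance : MulLeftMono G := mulLeftMono_of_mulLeftStrictMono G
local instance : MulRightMono G := mulRightMono_of_mulRightStrictMono G

lemma conj_lt_conj {x y : G} (g : G) (h : x < y) : g * x * g⁻¹ < g * y * g⁻¹ :=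
  mul_lt_mul_left (mul_lt_mul_right h g) g⁻¹

lemma conj_le_conj {x y : G} (g : G) (h : x ≤ y) : g * x * g⁻¹ ≤ g * y * g⁻¹ := by
  rcases h.lt_or_eq with h | h
  · exact (conj_lt_conj g h).le
  · rw [h]

lemma one_lt_conj {x : G} (g : G) (h : 1 < x) : 1 < g * x * g⁻¹ := by
  have := conj_lt_conj g h
  rwa [mul_one, mul_inv_cancel] at this

/-- the cone of the right order obtained from the conjugation action at the point `x₀` -/
lemma conjCone (x₀ : G) :
    Cone {k : G | x₀ < k * x₀ * k⁻¹ ∨ (k * x₀ * k⁻¹ = x₀ ∧ 1 < k)} := by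
  refine ⟨?_, ?_, ?_⟩
  · rintro x hx y hy
    have e : x * y * x₀ * (x * y)⁻¹ = x * (y * x₀ * y⁻¹) * x⁻¹ := by group
    rcases hx with hx | ⟨hx, hx'⟩
    · left
      rw [e]
      refine lt_of_lt_of_le hx (conj_le_conj x ?_)
      rcases hy with hy | ⟨hy, -⟩
      · exact hy.le
      · exact hy.ge
    · rcases hy with hy | ⟨hy, hy'⟩
      · left
        rw [e]
        have := conj_lt_conj x hy
        rwa [hx] at this
      · right
        rw [e, hy, hx]
        exact ⟨rfl, one_lt_mul' hx' hy'⟩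
  · rintro (h | ⟨-, h⟩)
    · simp at h
    · exact lt_irrefl _ h
  · intro x hx
    rcases lt_trichotomy x₀ (x * x₀ * x⁻¹) with h | h | h
    · exact Or.inl (Or.inl h)
    · rcases lt_trichotomy x 1 with h1 | h1 | h1
      · right
        right
        refine ⟨?_, one_lt_inv'.mpr h1⟩
        nth_rewrite 1 [h]
        group
      · exact absurd h1 hx
      · exact Or.inl (Or.inr ⟨h.symm, h1⟩)
    · right
      left
      have := conj_lt_conj x⁻¹ h
      rwa [show x⁻¹ * (x * x₀ * x⁻¹) * x⁻¹⁻¹ = x₀ by group] at this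

lemma expand_not_conrad (g e : G) (he : 1 < e) (h : e ^ 4 ≤ g * e * g⁻¹) :
    ∃ P : Set G, Cone P ∧ ¬ ConradCone P := by
  set f : G := e⁻¹ * g⁻¹ * e with hf
  set x₀ : G := f * (e * g) * f⁻¹ with hx₀
  set D : G := g⁻¹ * e * g with hD
  set E : G := g * e * g⁻¹ with hE
  have hD1 : 1 < D := by
    have := one_lt_conj g⁻¹ he
    rwa [inv_inv] at this
  have he4 : e < e ^ 4 := by
    have : (1 : G) < e ^ 3 := one_lt_pow' he (by norm_num)
    calc e = e * 1 := (mul_one _).symm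
      _ < e * e ^ 3 := mul_lt_mul_right this e
      _ = e ^ 4 := by rw [← pow_succ']
  have hDe : D < e := by
    have := conj_lt_conj g⁻¹ (lt_of_lt_of_le he4 h)
    rwa [show g⁻¹ * E * g⁻¹⁻¹ = e by rw [hE]; group, inv_inv] at this
  have hx₀' : x₀ = e⁻¹ * (D * D) * e⁻¹ * (g * e) := by
    rw [hx₀, hf, hD]; group
  have hge : g * e = E * g := by rw [hE]; group
  -- (IV) x₀ < g e
  have h4 : x₀ < g * e := by
    rw [hx₀']
    have : e⁻¹ * (D * D) * e⁻¹ < 1 := by
      have h1 : D * D < e * e :=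
        (mul_lt_mul_right hDe D).trans (mul_lt_mul_left hDe e)
      have h2 : e⁻¹ * (D * D) * e⁻¹ < e⁻¹ * (e * e) * e⁻¹ :=
        mul_lt_mul_left (mul_lt_mul_right h1 _) _
      rwa [show e⁻¹ * (e * e) * e⁻¹ = 1 by group] at h2
    have := mul_lt_mul_left this (g * e)
    rwa [one_mul] at this
  have hEe : e ^ 2 ≤ e⁻¹ * e⁻¹ * E := by
    have := mul_le_mul_right h (e⁻¹ * e⁻¹)
    rwa [show e⁻¹ * e⁻¹ * e ^ 4 = e ^ 2 by group] at this
  have he2 : e < e ^ 2 := by
    rw [pow_two]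
    have := mul_lt_mul_right he e
    rwa [mul_one] at this
  -- (III)
  have h3 : e * g < x₀ := by
    rw [hx₀', hge]
    have h1 : 1 < D * D := one_lt_mul' hD1 hD1
    have h2 : e⁻¹ * 1 * e⁻¹ < e⁻¹ * (D * D) * e⁻¹ :=
      mul_lt_mul_left (mul_lt_mul_right h1 _) _
    have h5 : e * g < (e⁻¹ * e⁻¹ * E) * g := mul_lt_mul_left (lt_of_lt_of_le he2 hEe) g
    refine h5.trans ?_
    have := mul_lt_mul_left h2 (E * g)
    simpa [mul_assoc] using this
  -- (I)
  have h1 : g⁻¹ * x₀ * g < f * g * f⁻¹ := by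
    have h5 : g⁻¹ * x₀ * g < e * g := by
      have := conj_lt_conj g⁻¹ h4
      rwa [inv_inv, show g⁻¹ * (g * e) * g = e * g by group] at this
    refine h5.trans ?_
    have h6 : f * g * f⁻¹ = e⁻¹ * D * e⁻¹ * E * g := by
      rw [hf, hD, hE]; group
    rw [h6]
    refine mul_lt_mul_left ?_ g
    refine lt_of_lt_of_le he2 (hEe.trans ?_)
    have h7 : e⁻¹ * 1 * e⁻¹ < e⁻¹ * D * e⁻¹ := mul_lt_mul_left (mul_lt_mul_right hD1 _) _
    have := mul_lt_mul_left h7 E
    rw [mul_one] at this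
    exact this.le
  have hfP : x₀ < f * x₀ * f⁻¹ := by
    have := conj_lt_conj f h3
    rwa [← hx₀] at this
  have hgP : x₀ < g * f⁻¹ * x₀ * (g * f⁻¹)⁻¹ := by
    have e1 : g * f⁻¹ * x₀ * (g * f⁻¹)⁻¹ = g * e := by
      rw [hx₀]; group
    rw [e1]; exact h4
  refine ⟨_, conjCone x₀, ?_⟩
  intro hcon
  obtain ⟨m, -, hm⟩ := hcon f g (Or.inl hfP) (Or.inl hgP)
  have key : (f * g ^ m * f⁻¹ * g⁻¹) * x₀ * (f * g ^ m * f⁻¹ * g⁻¹)⁻¹ < x₀ := by
    have e1 : (f * g ^ m * f⁻¹ * g⁻¹) * x₀ * (f * g ^ m * f⁻¹ * g⁻¹)⁻¹ =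
        f * (g ^ m * (f⁻¹ * (g⁻¹ * x₀ * g) * f) * (g ^ m)⁻¹) * f⁻¹ := by group
    rw [e1]
    have e2 : f⁻¹ * (g⁻¹ * x₀ * g) * f < g := by
      have := conj_lt_conj f⁻¹ h1
      rwa [inv_inv, show f⁻¹ * (f * g * f⁻¹) * f = g by group] at this
    have e3 : g ^ m * (f⁻¹ * (g⁻¹ * x₀ * g) * f) * (g ^ m)⁻¹ < g := by
      have := conj_lt_conj (g ^ m) e2
      rwa [show g ^ m * g * (g ^ m)⁻¹ = g by group] at this
    have e4 : f * g * f⁻¹ < x₀ := by
      rw [hx₀]
      refine conj_lt_conj f ?_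
      have := mul_lt_mul_left he g
      rwa [one_mul] at this
    exact (conj_lt_conj f e3).trans e4
  rcases hm with hm | ⟨hm, -⟩
  · exact lt_asymm hm key
  · exact absurd hm key.ne

/-- conjugation at most doubles -/
lemma conj_lt_sq (hA : ∀ P : Set G, Cone P → ConradCone P) (g : G) {h : G} (hh : 1 < h) :
    g * h * g⁻¹ < h * h := by
  by_contra hcon
  push_neg at hcon
  obtain ⟨P, hP, hP'⟩ := expand_not_conrad (g * g) h hh (by
    have h1 := conj_le_conj g hcon
    have h2 : h * h * (h * h) ≤ g * h * g⁻¹ * (g * h * g⁻¹) := mul_le_mul' hcon hcon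
    have h3 : h ^ 4 = h * h * (h * h) := by
      rw [show (4 : ℕ) = 2 + 2 from rfl, pow_add, pow_two]
    rw [h3]
    refine h2.trans ?_
    rw [show g * h * g⁻¹ * (g * h * g⁻¹) = g * (h * h) * g⁻¹ by group]
    rw [show g * g * h * (g * g)⁻¹ = g * (g * h * g⁻¹) * g⁻¹ by group]
    exact h1)
  exact hP' (hA P hP)

lemma pow_comm_lt (hA : ∀ P : Set G, Cone P → ConradCone P) (g : G) {h : G} (hh : 1 < h)
    (hc : 1 < g * h * g⁻¹ * h⁻¹) (k : ℕ) : (g * h * g⁻¹ * h⁻¹) ^ k < h := by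
  set c := g * h * g⁻¹ * h⁻¹ with hcdef
  by_contra hcon
  push_neg at hcon
  -- u i = g^i c g^-i satisfies c < (u i)^2
  have hu : ∀ i : ℕ, c < (g ^ i * c * (g ^ i)⁻¹) * (g ^ i * c * (g ^ i)⁻¹) := by
    intro i
    have h1 : 1 < g ^ i * c * (g ^ i)⁻¹ := one_lt_conj _ hc
    have := conj_lt_sq hA (g ^ i)⁻¹ h1
    rwa [show (g ^ i)⁻¹ * (g ^ i * c * (g ^ i)⁻¹) * (g ^ i)⁻¹⁻¹ = c by group] at this
  have hw : ∀ n : ℕ, g ^ (n + 1) * h * (g ^ (n + 1))⁻¹ =
      (g ^ n * c * (g ^ n)⁻¹) * (g ^ n * h * (g ^ n)⁻¹) := by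
    intro n
    rw [hcdef, pow_succ]; group
  have hpair : ∀ a b : G, c < a * a → c < b * b → c < b * a := by
    intro a b ha hb
    rcases le_total a b with hab | hab
    · exact ha.trans_le (mul_le_mul_left hab a)
    · exact hb.trans_le (mul_le_mul_right hab b)
  have hind : ∀ j : ℕ, c ^ j * h ≤ g ^ (2 * j) * h * (g ^ (2 * j))⁻¹ := by
    intro j
    induction j with
    | zero => simp
    | succ j ih =>
      have e1 : 2 * (j + 1) = 2 * j + 1 + 1 := by ring
      rw [e1, hw, hw, pow_succ', ← mul_assoc, mul_assoc c]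
      exact mul_le_mul' (hpair _ _ (hu (2 * j)) (hu (2 * j + 1))).le ih
  have h1 := hind k
  have h2 := conj_lt_sq hA (g ^ (2 * k)) hh
  have h3 : h * h ≤ c ^ k * h := mul_le_mul_left hcon h
  exact absurd (h3.trans h1) (not_le.mpr h2)

end ord

/-- J3 -/
theorem central_of_AllConrad {G : Type u} [Group G] (hA : AllConrad G) {P : Set G}
    (hP : BiCone P) : CentralCone P := by
  refine ⟨hP, ?_⟩
  intro g h hh
  let _ := hP.linearOrder
  have _ := hP.mulLeft
  have _ := hP.mulRight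
  have hmem : ∀ x : G, x ∈ P ↔ 1 < x := by
    intro x
    change x ∈ P ↔ x * 1⁻¹ ∈ P
    rw [inv_one, mul_one]
  have hh1 : 1 < h := (hmem h).mp hh
  set c := g * h * g⁻¹ * h⁻¹ with hc
  -- the two bounds
  have key : ∀ k : ℕ, c ^ k < h ∧ (c⁻¹) ^ k < h := by
    rcases lt_trichotomy 1 c with h1 | h1 | h1
    · intro k
      refine ⟨pow_comm_lt hA g hh1 h1 k, ?_⟩
      refine lt_of_le_of_lt ?_ hh1
      have _ := mulLeftMono_of_mulLeftStrictMono G
      have _ := mulRightMono_of_mulRightStrictMono G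
      exact pow_le_one' (inv_le_one'.mpr h1.le) k
    · intro k
      rw [← h1]; simp [hh1]
    · intro k
      have _ := mulLeftMono_of_mulLeftStrictMono G
      have _ := mulRightMono_of_mulRightStrictMono G
      refine ⟨lt_of_le_of_lt (pow_le_one' h1.le k) hh1, ?_⟩
      -- h' = g h g⁻¹ < h
      have h2 : g * h * g⁻¹ < h := by
        have := mul_lt_mul_left h1 h
        rwa [one_mul, hc, inv_mul_cancel_right] at this
      have h3 : g⁻¹ * (g * h * g⁻¹) * g⁻¹⁻¹ * (g * h * g⁻¹)⁻¹ = c⁻¹ := by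
        rw [hc]; group
      have h4 : 1 < g⁻¹ * (g * h * g⁻¹) * g⁻¹⁻¹ * (g * h * g⁻¹)⁻¹ := by
        rw [h3]; exact one_lt_inv'.mpr h1
      have := pow_comm_lt hA g⁻¹ (one_lt_conj g hh1) h4 k
      rw [h3] at this
      exact this.trans h2
  intro k
  rw [hmem]
  have _ := mulLeftMono_of_mulLeftStrictMono G
  have _ := mulRightMono_of_mulRightStrictMono G
  rcases Int.eq_nat_or_neg k with ⟨n, rfl | rfl⟩
  · have h5 := (key n).2
    rw [inv_pow] at h5
    have := mul_lt_mul_left h5 (c ^ n)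
    rwa [inv_mul_cancel, ← zpow_natCast] at this
  · have h5 := (key n).1
    have := mul_lt_mul_left h5 ((c ^ n)⁻¹)
    rwa [mul_inv_cancel, ← zpow_natCast, ← zpow_neg] at this

end ConradSol
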