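import Pool.Agent.Helper277.Inherit

set_option autoImplicit false

namespace ConradSol

universe u v




lemma j10_comm {G : Type u} [Group G] (N : Subgroup G) [N.Normal] (c z : G)
    (h : c * z * c⁻¹ * z⁻¹ ∈ N) :
    (QuotientGroup.mk c : G ⧸ N) * QuotientGroup.mk z = QuotientGroup.mk z * QuotientGroup.mk c := by
  have h2 : (QuotientGroup.mk (c * z * c⁻¹ * z⁻¹) : G ⧸ N) = 1 := (QuotientGroup.eq_one_iff _).2 h
  rw [QuotientGroup.mk_mul, QuotientGroup.mk_mul, QuotientGroup.mk_mul,
        QuotientGroup.mk_inv, QuotientGroup.mk_inv, mul_inv_eq_one, mul_inv_eq_iff_eq_mul] at h2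
  exact h2

lemma j10_step {G : Type u} [Group G]
    (h : ∀ (x : G) (n : ℕ), 1 ≤ n → x ^ n = 1 → x = 1) :
    ∀ (i : ℕ) (x : G) (n : ℕ), 1 ≤ n → x ∈ Subgroup.upperCentralSeries G (i + 1) →
      x ^ n ∈ Subgroup.upperCentralSeries G i → x ∈ Subgroup.upperCentralSeries G i := by
  intro i
  induction i with
  | zero =>
    intro x n hn _ hx
    rw [Subgroup.upperCentralSeries_zero, Subgroup.mem_bot] at hx ⊢
    exact h x n hn hx
  | succ j ih =>
    intro x n hn hx hxn
    rw [Subgroup.mem_upperCentralSeries_succ_iff] at hx hxn ⊢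
    intro y
    have hc := hx y
    refine ih _ n hn hc ?_
    have hcomm : ∀ z : G, (QuotientGroup.mk (x * y * x⁻¹ * y⁻¹) :
        G ⧸ Subgroup.upperCentralSeries G j) * QuotientGroup.mk z =
        QuotientGroup.mk z * QuotientGroup.mk (x * y * x⁻¹ * y⁻¹) := by
      intro z
      exact j10_comm _ _ _ ((Subgroup.mem_upperCentralSeries_succ_iff.1 hc) z)
    rw [← QuotientGroup.eq_one_iff (N := Subgroup.upperCentralSeries G j)]
    have h3 : (QuotientGroup.mk (x ^ n * y * (x ^ n)⁻¹ * y⁻¹) :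
        G ⧸ Subgroup.upperCentralSeries G j) = 1 := (QuotientGroup.eq_one_iff _).2 (hxn y)
    have h4 : ∀ k : ℕ, (QuotientGroup.mk (x ^ k * y * (x ^ k)⁻¹ * y⁻¹) :
        G ⧸ Subgroup.upperCentralSeries G j) =
        QuotientGroup.mk ((x * y * x⁻¹ * y⁻¹) ^ k) := by
      intro k
      induction k with
      | zero => simp
      | succ k ihk =>
        have e1 : x ^ (k + 1) * y * (x ^ (k + 1))⁻¹ * y⁻¹ =
            x ^ k * (x * y * x⁻¹ * y⁻¹) * (y * (x ^ k)⁻¹ * y⁻¹) := by
          rw [pow_succ]; group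
        have e2 : x ^ k * y * (x ^ k)⁻¹ * y⁻¹ = x ^ k * (y * (x ^ k)⁻¹ * y⁻¹) := by group
        rw [e2] at ihk
        rw [e1]
        calc (QuotientGroup.mk (x ^ k * (x * y * x⁻¹ * y⁻¹) * (y * (x ^ k)⁻¹ * y⁻¹)) :
              G ⧸ Subgroup.upperCentralSeries G j)
            = QuotientGroup.mk (x ^ k) * QuotientGroup.mk (x * y * x⁻¹ * y⁻¹) *
              QuotientGroup.mk (y * (x ^ k)⁻¹ * y⁻¹) := rfl
          _ = QuotientGroup.mk (x * y * x⁻¹ * y⁻¹) * QuotientGroup.mk (x ^ k) *
              QuotientGroup.mk (y * (x ^ k)⁻¹ * y⁻¹) := by rw [hcomm]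
          _ = QuotientGroup.mk (x * y * x⁻¹ * y⁻¹) * (QuotientGroup.mk (x ^ k) *
              QuotientGroup.mk (y * (x ^ k)⁻¹ * y⁻¹)) := mul_assoc _ _ _
          _ = QuotientGroup.mk (x * y * x⁻¹ * y⁻¹) *
              QuotientGroup.mk (x ^ k * (y * (x ^ k)⁻¹ * y⁻¹)) := rfl
          _ = QuotientGroup.mk (x * y * x⁻¹ * y⁻¹) *
              QuotientGroup.mk ((x * y * x⁻¹ * y⁻¹) ^ k) := by rw [ihk]
          _ = QuotientGroup.mk ((x * y * x⁻¹ * y⁻¹) ^ (k + 1)) := by rw [pow_succ']; rfl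
    exact (h4 n).symm.trans h3
  
lemma j10_quot {G : Type u} [Group G] [Group.IsNilpotent G]
    (h : ∀ (x : G) (n : ℕ), 1 ≤ n → x ^ n = 1 → x = 1) (x : G) (n : ℕ) (hn : 1 ≤ n)
    (hx : x ^ n ∈ Subgroup.center G) : x ∈ Subgroup.center G := by
  rw [← Subgroup.upperCentralSeries_one] at hx ⊢
  obtain ⟨c, hc⟩ := Group.IsNilpotent.nilpotent (G := G)
  have key : ∀ k : ℕ, 1 ≤ k → x ∈ Subgroup.upperCentralSeries G k →
      x ∈ Subgroup.upperCentralSeries G 1 := by
    intro k hk
    induction k, hk using Nat.le_induction with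
    | base => exact id
    | succ m hm ih =>
      intro hxm
      exact ih (j10_step h m x n hn hxm (Subgroup.upperCentralSeries_mono G hm hx))
  have hc1 : x ∈ Subgroup.upperCentralSeries G (c + 1) :=
    Subgroup.upperCentralSeries_mono G (Nat.le_succ c) (by rw [hc]; exact Subgroup.mem_top x)
  exact key (c + 1) (by omega) hc1

/-- TARGET: torsion-free nilpotent groups are orderable -/
theorem orderable_of_nilpotent {G : Type u} [Group G] [Group.IsNilpotent G]
    (h : ∀ (x : G) (n : ℕ), 1 ≤ n → x ^ n = 1 → x = 1)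
    (hab : ∀ (A : Type u) [Group A], (∀ a b : A, a * b = b * a) →
      (∀ (a : A) (n : ℕ), 1 ≤ n → a ^ n = 1 → a = 1) → ∃ Q : Set A, BiCone Q) :
    Orderable G := by
  revert h
  refine Group.nilpotent_center_quotient_ind
    (P := fun G _ _ => (∀ (x : G) (n : ℕ), 1 ≤ n → x ^ n = 1 → x = 1) → Orderable G) G ?_ ?_
  · intro G _ _ _
    refine ⟨∅, ⟨⟨?_, ?_, ?_⟩, ?_⟩⟩
    · intro x hx; exact absurd hx (Set.notMem_empty x)
    · exact Set.notMem_empty _
    · intro x hx; exact absurd (Subsingleton.elim x 1) hx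
    · intro g x hx; exact absurd hx (Set.notMem_empty x)
  · intro G _ _ ih h
    have hq : ∀ (x : G ⧸ Subgroup.center G) (n : ℕ), 1 ≤ n → x ^ n = 1 → x = 1 := by
      intro x n hn hx
      induction x using QuotientGroup.induction_on with
      | H x =>
        rw [← QuotientGroup.mk_pow, QuotientGroup.eq_one_iff] at hx
        rw [QuotientGroup.eq_one_iff]
        exact j10_quot h x n hn hx
    obtain ⟨Q, hQ⟩ := ih hq
    obtain ⟨P0, hP0⟩ := hab (Subgroup.center G)
      (fun a b => Subtype.ext (by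
        have := (Subgroup.mem_center_iff.1 b.2) a
        simpa using this))
      (fun a n hn ha => Subtype.ext (h a n hn (by simpa using congrArg Subtype.val ha)))
    refine ⟨{x | (QuotientGroup.mk x : G ⧸ Subgroup.center G) ∈ Q} ∪
      {x | ∃ hx : x ∈ Subgroup.center G, (⟨x, hx⟩ : Subgroup.center G) ∈ P0}, ⟨⟨?_, ?_, ?_⟩, ?_⟩⟩
    · rintro x (hx | ⟨hx, hx'⟩) y (hy | ⟨hy, hy'⟩)
      · left
        show (QuotientGroup.mk (x * y) : G ⧸ Subgroup.center G) ∈ Q
        rw [QuotientGroup.mk_mul]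
        exact hQ.mul_mem _ hx _ hy
      · left
        show (QuotientGroup.mk (x * y) : G ⧸ Subgroup.center G) ∈ Q
        rw [QuotientGroup.mk_mul, (QuotientGroup.eq_one_iff y).2 hy, mul_one]
        exact hx
      · left
        show (QuotientGroup.mk (x * y) : G ⧸ Subgroup.center G) ∈ Q
        rw [QuotientGroup.mk_mul, (QuotientGroup.eq_one_iff x).2 hx, one_mul]
        exact hy
      · right
        exact ⟨Subgroup.mul_mem _ hx hy, hP0.mul_mem _ hx' _ hy'⟩
    · rintro (h1 | ⟨h1, h2⟩)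
      · exact hQ.one_not_mem h1
      · exact hP0.one_not_mem h2
    · intro x hx
      by_cases hxc : x ∈ Subgroup.center G
      · have hne : (⟨x, hxc⟩ : Subgroup.center G) ≠ 1 := by
          intro he
          exact hx (congrArg Subtype.val he)
        rcases hP0.total _ hne with h1 | h1
        · left; right; exact ⟨hxc, h1⟩
        · right; right; exact ⟨Subgroup.inv_mem _ hxc, h1⟩
      · have hne : (QuotientGroup.mk x : G ⧸ Subgroup.center G) ≠ 1 := by
          intro he
          exact hxc ((QuotientGroup.eq_one_iff x).1 he)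
        rcases hQ.total _ hne with h1 | h1
        · left; left; exact h1
        · right; left; exact h1
    · rintro g x (hx | ⟨hx, hx'⟩)
      · left
        show (QuotientGroup.mk (g * x * g⁻¹) : G ⧸ Subgroup.center G) ∈ Q
        rw [QuotientGroup.mk_mul, QuotientGroup.mk_mul, QuotientGroup.mk_inv]
        exact hQ.conj_mem _ _ hx
      · right
        have e : g * x * g⁻¹ = x := by
          rw [(Subgroup.mem_center_iff.1 hx) g]; group
        rw [e]
        exact ⟨hx, hx'⟩

end ConradSol
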