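import Pool.Agent.Helper277.Inherit

set_option autoImplicit false

namespace ConradSol

universe u v



theorem lcs_aux {F : Type u} [Group F] (S0 Sn T : Set F) (h0 : Subgroup.closure S0 = ⊤)
    (hT : ∀ x ∈ Sn, ∀ s ∈ S0, x * s * x⁻¹ * s⁻¹ ∈ Subgroup.normalClosure T) :
    ⁅Subgroup.normalClosure Sn, (⊤ : Subgroup F)⁆ ≤ Subgroup.normalClosure T := by
  have key : ∀ x y : F, x * y * x⁻¹ * y⁻¹ ∈ Subgroup.normalClosure T ↔
      (QuotientGroup.mk' (Subgroup.normalClosure T)) y * (QuotientGroup.mk' _) x =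
        (QuotientGroup.mk' _) x * (QuotientGroup.mk' _) y := by
    intro x y
    rw [← QuotientGroup.eq_one_iff]
    constructor
    · intro h
      have h1 : (QuotientGroup.mk' (Subgroup.normalClosure T)) (x * y * x⁻¹ * y⁻¹) = 1 := h
      rw [map_mul, map_mul, map_mul, map_inv, map_inv, mul_inv_eq_one, mul_inv_eq_iff_eq_mul] at h1
      exact h1.symm
    · intro h
      change (QuotientGroup.mk' (Subgroup.normalClosure T)) (x * y * x⁻¹ * y⁻¹) = 1
      rw [map_mul, map_mul, map_mul, map_inv, map_inv, mul_inv_eq_one, mul_inv_eq_iff_eq_mul]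
      exact h.symm
  have h1 : Subgroup.normalClosure Sn ≤
      (Subgroup.center (F ⧸ Subgroup.normalClosure T)).comap
        (QuotientGroup.mk' (Subgroup.normalClosure T)) := by
    refine Subgroup.normalClosure_le_normal fun x hx => ?_
    rw [SetLike.mem_coe, Subgroup.mem_comap, Subgroup.mem_center_iff]
    intro g
    obtain ⟨g, rfl⟩ := QuotientGroup.mk'_surjective _ g
    have h2 : Subgroup.closure S0 ≤
        (Subgroup.centralizer {QuotientGroup.mk' (Subgroup.normalClosure T) x}).comap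
          (QuotientGroup.mk' (Subgroup.normalClosure T)) := by
      rw [Subgroup.closure_le]
      intro s hs
      rw [SetLike.mem_coe, Subgroup.mem_comap, Subgroup.mem_centralizer_iff]
      intro y hy
      rw [Set.mem_singleton_iff.mp hy]
      exact ((key x s).mp (hT x hx s hs)).symm
    rw [h0] at h2
    have h3 := h2 (Subgroup.mem_top g)
    rw [Subgroup.mem_comap, Subgroup.mem_centralizer_iff] at h3
    exact (h3 _ (Set.mem_singleton _)).symm
  rw [Subgroup.commutator_le]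
  intro x hx y _
  rw [commutatorElement_def, key]
  have h2 := h1 hx
  rw [Subgroup.mem_comap, Subgroup.mem_center_iff] at h2
  exact h2 _

/-- TARGET -/
theorem lcs_finite_normalClosure {F : Type u} [Group F] [Group.FG F] (n : ℕ) :
    ∃ S : Finset F, (⊤ : Subgroup F).lowerCentralSeries n = Subgroup.normalClosure (S : Set F) := by
  classical
  obtain ⟨S0, h0⟩ := (Group.FG.out : (⊤ : Subgroup F).FG)
  induction n with
  | zero =>
    refine ⟨S0, ?_⟩
    rw [Subgroup.lowerCentralSeries_zero]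
    refine (top_le_iff.mp ?_).symm
    rw [← h0]
    exact Subgroup.closure_le_normalClosure
  | succ n ih =>
    obtain ⟨S, hS⟩ := ih
    refine ⟨Finset.image₂ (fun x s => x * s * x⁻¹ * s⁻¹) S S0, ?_⟩
    apply le_antisymm
    · rw [Subgroup.lowerCentralSeries_succ, hS]
      refine lcs_aux (S0 : Set F) (S : Set F) _ h0 fun x hx s hs => ?_
      exact Subgroup.subset_normalClosure (Finset.mem_coe.mpr
        (Finset.mem_image₂.mpr ⟨x, hx, s, hs, rfl⟩))
    · refine Subgroup.normalClosure_le_normal ?_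
      intro y hy
      obtain ⟨x, hx, s, hs, rfl⟩ := Finset.mem_image₂.mp (Finset.mem_coe.mp hy)
      rw [SetLike.mem_coe, Subgroup.lowerCentralSeries_succ, ← commutatorElement_def]
      refine Subgroup.commutator_mem_commutator ?_ (Subgroup.mem_top s)
      rw [hS]
      exact Subgroup.subset_normalClosure hx

/-- the pair of words that coincide in nilpotent groups -/
def XY {G : Type u} [Group G] (a b : G) : ℕ → G × G
  | 0 => (a, b)
  | n + 1 => ((XY a b n).1 * (XY a b n).2, (XY a b n).2 * (XY a b n).1)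

theorem XY_nil {G : Type u} [Group G] (S : Subgroup G) (a b : G) (ha : a ∈ S) (hb : b ∈ S) (n : ℕ) :
    (XY a b n).1 ∈ S ∧ (XY a b n).2 ∈ S ∧
      ((XY a b n).2)⁻¹ * (XY a b n).1 ∈ S.lowerCentralSeries n := by
  induction n with
  | zero => exact ⟨ha, hb, S.mul_mem (S.inv_mem hb) ha⟩
  | succ n ih =>
    obtain ⟨h1, h2, h3⟩ := ih
    refine ⟨S.mul_mem h1 h2, S.mul_mem h2 h1, ?_⟩
    change ((XY a b n).2 * (XY a b n).1)⁻¹ * ((XY a b n).1 * (XY a b n).2) ∈ _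
    rw [Subgroup.lowerCentralSeries_succ]
    have := Subgroup.commutator_mem_commutator (Subgroup.inv_mem _ h3) (S.inv_mem h2)
    rw [commutatorElement_def] at this
    convert this using 1
    group

/-- TARGET: a right order on a group whose 2-generator subgroups are nilpotent is Conrad -/
theorem conrad_of_nilpotent {G : Type u} [Group G] {P : Set G} (hP : Cone P)
    (hnil : ∀ f g : G, Group.IsNilpotent (Subgroup.closure {f, g} : Subgroup G)) :
    ConradCone P := by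
  intro f g hf hgf
  by_contra hcon
  push Not at hcon
  have hg : g ∈ P := by
    have := hP.mul_mem _ hgf _ hf
    rwa [inv_mul_cancel_right] at this
  -- the left order
  have ltr : ∀ x y z : G, x⁻¹ * y ∈ P → y⁻¹ * z ∈ P → x⁻¹ * z ∈ P := by
    intro x y z h1 h2
    have := hP.mul_mem _ h1 _ h2
    rwa [mul_assoc, mul_inv_cancel_left] at this
  have lmul : ∀ c x y : G, x⁻¹ * y ∈ P → (c * x)⁻¹ * (c * y) ∈ P := by
    intro c x y h
    have e : (c * x)⁻¹ * (c * y) = x⁻¹ * y := by group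
    rwa [e]
  have hneg : ∀ m : ℕ, g * f * (g ^ m)⁻¹ * f⁻¹ ∈ P := by
    intro m
    rcases Nat.eq_zero_or_pos m with hm | hm
    · rw [hm, pow_zero, inv_one, mul_one, mul_inv_cancel_right]; exact hg
    · rcases hP.trich (f * g ^ m * f⁻¹ * g⁻¹) with h | h | h
      · exact absurd h (hcon m hm)
      · exfalso
        have h1 : (f * g * f⁻¹) ^ m = g := by
          have : (f * g * f⁻¹) ^ m = f * g ^ m * f⁻¹ := conj_pow
          rw [this]
          exact mul_inv_eq_one.mp h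
        have h2 : f * g ^ (m + 1) * f⁻¹ * g⁻¹ = f * g * f⁻¹ := by
          have e : f * g ^ (m + 1) * f⁻¹ = (f * g * f⁻¹) ^ (m + 1) := conj_pow.symm
          rw [e, pow_succ', h1, mul_inv_cancel_right]
        refine hcon (m + 1) (by omega) ?_
        rw [h2]
        rcases hP.trich (f * g * f⁻¹) with h3 | h3 | h3
        · exact h3
        · rw [h3, one_pow] at h1
          exact absurd hg (h1 ▸ hP.one_not_mem)
        · have h4 := hP.pow_mem h3 hm
          rw [inv_pow, h1] at h4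
          exact absurd h4 (hP.inv_not_mem hg)
      · have e : (f * g ^ m * f⁻¹ * g⁻¹)⁻¹ = g * f * (g ^ m)⁻¹ * f⁻¹ := by
          simp only [mul_inv_rev, inv_inv, mul_assoc]
        rwa [e] at h
  -- facts
  have fs1 : (f⁻¹)⁻¹ * 1 ∈ P := by simpa using hf
  have fgs : (g⁻¹)⁻¹ * f⁻¹ ∈ P := by simpa using hgf
  have fr : ∀ m : ℕ, (g ^ m * (f⁻¹ * g⁻¹))⁻¹ * f⁻¹ ∈ P := by
    intro m
    have e : (g ^ m * (f⁻¹ * g⁻¹))⁻¹ * f⁻¹ = g * f * (g ^ m)⁻¹ * f⁻¹ := by
      simp only [mul_inv_rev, inv_inv, mul_assoc]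
    rw [e]; exact hneg m
  -- `K`
  set K : G → Prop := fun x => (∀ m : ℕ, (g ^ m * (f⁻¹ * g⁻¹))⁻¹ * x ∈ P) ∧
    (x = f⁻¹ ∨ x⁻¹ * f⁻¹ ∈ P) with hK
  have Ks : K f⁻¹ := ⟨fr, Or.inl rfl⟩
  have hgs : (g⁻¹ * f⁻¹)⁻¹ * f⁻¹ ∈ P := by
    have h1 : (1 : G)⁻¹ * (g * f⁻¹) ∈ P := by simpa using hgf
    have h2 := ltr _ _ _ fs1 h1
    have h3 := lmul g⁻¹ _ _ h2
    rwa [inv_mul_cancel_left] at h3
  have hle : ∀ c x : G, K x → (c * x = c * f⁻¹ ∨ (c * x)⁻¹ * (c * f⁻¹) ∈ P) := by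
    intro c x hx
    rcases hx.2 with h | h
    · exact Or.inl (by rw [h])
    · exact Or.inr (lmul c _ _ h)
  have hlt : ∀ c x z : G, K x → (c * f⁻¹)⁻¹ * z ∈ P → (c * x)⁻¹ * z ∈ P := by
    intro c x z hx hz
    rcases hle c x hx with h | h
    · rw [h]; exact hz
    · exact ltr _ _ _ h hz
  have Kg : ∀ x, K x → K (g⁻¹ * x) := by
    intro x hx
    refine ⟨fun m => ?_, Or.inr (hlt _ _ _ hx hgs)⟩
    have h1 := lmul g⁻¹ _ _ (hx.1 (m + 1))
    have e : g⁻¹ * (g ^ (m + 1) * (f⁻¹ * g⁻¹)) = g ^ m * (f⁻¹ * g⁻¹) := by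
      rw [pow_succ']; group
    rwa [e] at h1
  have hsl : ∀ m : ℕ, (g ^ m * (f⁻¹ * g⁻¹))⁻¹ * (g⁻¹ * g⁻¹) ∈ P := by
    intro m
    have h1 := ltr _ _ _ (fr (m + 2)) fs1
    have h2 := lmul (g⁻¹ * g⁻¹) _ _ h1
    have e : g⁻¹ * g⁻¹ * (g ^ (m + 2) * (f⁻¹ * g⁻¹)) = g ^ m * (f⁻¹ * g⁻¹) := by
      rw [pow_succ', pow_succ']; group
    rw [e, mul_one] at h2
    exact h2
  have Ka : ∀ x, K x → K (g⁻¹ * f * x) ∧ (g⁻¹ * g⁻¹)⁻¹ * (g⁻¹ * f * x) ∈ P := by
    intro x hx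
    have h1 : (g⁻¹ * g⁻¹)⁻¹ * (g⁻¹ * f * x) ∈ P := by
      have h2 := lmul (g⁻¹ * f) _ _ (hx.1 0)
      have e : g⁻¹ * f * (g ^ 0 * (f⁻¹ * g⁻¹)) = g⁻¹ * g⁻¹ := by
        rw [pow_zero]; group
      rwa [e] at h2
    refine ⟨⟨fun m => ltr _ _ _ (hsl m) h1, Or.inr ?_⟩, h1⟩
    refine hlt _ _ _ hx ?_
    have e : g⁻¹ * f * f⁻¹ = g⁻¹ := by group
    rw [e]; exact fgs
  have Kb : ∀ x, K x → K (g⁻¹ * g⁻¹ * x) ∧ (g⁻¹ * g⁻¹ * x)⁻¹ * (g⁻¹ * g⁻¹) ∈ P := by
    intro x hx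
    refine ⟨?_, ?_⟩
    · rw [mul_assoc]; exact Kg _ (Kg _ hx)
    · refine hlt _ _ _ hx ?_
      have := lmul (g⁻¹ * g⁻¹) _ _ fs1
      rwa [mul_one] at this
  have hXY : ∀ n : ℕ, (∀ x, K x → K ((XY (g⁻¹ * f) (g⁻¹ * g⁻¹) n).1 * x) ∧
      (g⁻¹ * g⁻¹)⁻¹ * ((XY (g⁻¹ * f) (g⁻¹ * g⁻¹) n).1 * x) ∈ P) ∧
      (∀ x, K x → K ((XY (g⁻¹ * f) (g⁻¹ * g⁻¹) n).2 * x) ∧
      ((XY (g⁻¹ * f) (g⁻¹ * g⁻¹) n).2 * x)⁻¹ * (g⁻¹ * g⁻¹) ∈ P) := by
    intro n
    induction n with
    | zero => exact ⟨Ka, Kb⟩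
    | succ n ih =>
      obtain ⟨i1, i2⟩ := ih
      refine ⟨fun x hx => ?_, fun x hx => ?_⟩
      · have := i1 _ (i2 x hx).1
        rw [← mul_assoc] at this
        exact this
      · have := i2 _ (i1 x hx).1
        rw [← mul_assoc] at this
        exact this
  have hfS : f ∈ Subgroup.closure {f, g} := Subgroup.subset_closure (by simp)
  have hgS : g ∈ Subgroup.closure {f, g} := Subgroup.subset_closure (by simp)
  obtain ⟨n, hn⟩ := (Subgroup.isNilpotent_iff_lowerCentralSeries _).mp (hnil f g)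
  obtain ⟨_, _, h3⟩ := XY_nil (Subgroup.closure {f, g}) (g⁻¹ * f) (g⁻¹ * g⁻¹)
    (Subgroup.mul_mem _ (Subgroup.inv_mem _ hgS) hfS)
    (Subgroup.mul_mem _ (Subgroup.inv_mem _ hgS) (Subgroup.inv_mem _ hgS)) n
  rw [hn, Subgroup.mem_bot, inv_mul_eq_one] at h3
  have h4 := ((hXY n).1 _ Ks).2
  have h5 := ((hXY n).2 _ Ks).2
  rw [h3] at h5
  have h6 := hP.mul_mem _ h4 _ h5
  refine hP.one_not_mem ?_
  convert h6 using 1
  group

end ConradSol
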