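import Pool.Agent.Helper277.Inherit

set_option autoImplicit false

namespace ConradSol

universe u v



section Gruenberg

open scoped commutatorElement

/-- iterated commutators of the elements of `X` -/
def SS {F : Type u} [Group F] (X : Set F) : ℕ → Set F
  | 0 => X
  | n + 1 => Set.image2 (fun s x => ⁅s, x⁆) (SS X n) X

lemma SS_finite {F : Type u} [Group F] {X : Set F} (hX : X.Finite) : ∀ n, (SS X n).Finite
  | 0 => hX
  | n + 1 => (SS_finite hX n).image2 _ hX

/-- elements central modulo `N` -/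
def Cen {F : Type u} [Group F] (N : Subgroup F) [N.Normal] : Subgroup F :=
  (Subgroup.center (F ⧸ N)).comap (QuotientGroup.mk' N)

instance {F : Type u} [Group F] (N : Subgroup F) [N.Normal] : (Cen N).Normal := by
  unfold Cen; infer_instance

lemma mem_Cen {F : Type u} [Group F] {N : Subgroup F} [N.Normal] {x : F} :
    x ∈ Cen N ↔ ∀ y, ⁅x, y⁆ ∈ N := by
  unfold Cen
  rw [Subgroup.mem_comap, Subgroup.mem_center_iff]
  have key : ∀ y : F, (QuotientGroup.mk' N y * QuotientGroup.mk' N x =
      QuotientGroup.mk' N x * QuotientGroup.mk' N y) ↔ ⁅x, y⁆ ∈ N := by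
    intro y
    rw [← map_mul, ← map_mul, eq_comm, QuotientGroup.mk'_apply, QuotientGroup.mk'_apply,
      QuotientGroup.eq_iff_div_mem]
    have : (x * y) / (y * x) = ⁅x, y⁆ := by
      rw [commutatorElement_def, div_eq_mul_inv, mul_inv_rev]; group
    rw [this]
  constructor
  · intro h y
    exact (key y).1 (h _)
  · intro h g
    obtain ⟨y, rfl⟩ := QuotientGroup.mk'_surjective N g
    exact (key y).2 (h y)

/-- centraliser of `a` modulo `N` -/
def Cz {F : Type u} [Group F] (N : Subgroup F) [N.Normal] (a : F) : Subgroup F where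
  carrier := {f | ⁅a, f⁆ ∈ N}
  one_mem' := by
    show ⁅a, (1 : F)⁆ ∈ N
    rw [commutatorElement_one_right]; exact N.one_mem
  mul_mem' := by
    intro f g hf hg
    show ⁅a, f * g⁆ ∈ N
    have : ⁅a, f * g⁆ = ⁅a, f⁆ * (f * ⁅a, g⁆ * f⁻¹) := by
      simp only [commutatorElement_def]; group
    rw [this]
    exact N.mul_mem hf (Subgroup.Normal.conj_mem inferInstance _ hg f)
  inv_mem' := by
    intro f hf
    show ⁅a, f⁻¹⁆ ∈ N
    have : ⁅a, f⁻¹⁆ = f⁻¹ * ⁅a, f⁆⁻¹ * (f⁻¹)⁻¹ := by
      simp only [commutatorElement_def]; group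
    rw [this]
    exact Subgroup.Normal.conj_mem inferInstance _ (N.inv_mem hf) f⁻¹

lemma mem_Cz {F : Type u} [Group F] {N : Subgroup F} [N.Normal] {a f : F} :
    f ∈ Cz N a ↔ ⁅a, f⁆ ∈ N := Iff.rfl

lemma SS_sub {F : Type u} [Group F] {X : Set F} : ∀ n, SS X n ⊆
    ((⊤ : Subgroup F).lowerCentralSeries n : Set F)
  | 0 => fun x _ => Subgroup.mem_top x
  | n + 1 => by
    rintro _ ⟨s, hs, x, _, rfl⟩
    exact Subgroup.commutator_mem_commutator (SS_sub n hs) (Subgroup.mem_top x)

lemma lcs_eq {F : Type u} [Group F] {X : Set F} (hX : Subgroup.closure X = ⊤) :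
    ∀ n, (⊤ : Subgroup F).lowerCentralSeries n ≤ Subgroup.normalClosure (SS X n)
  | 0 => by
    rw [Subgroup.lowerCentralSeries_zero, ← hX]
    exact Subgroup.closure_le_normalClosure
  | n + 1 => by
    rw [Subgroup.lowerCentralSeries_succ]
    have h1 : Subgroup.normalClosure (SS X n) ≤ Cen (Subgroup.normalClosure (SS X (n + 1))) := by
      apply Subgroup.normalClosure_le_normal
      intro s hs
      show s ∈ Cen _
      rw [mem_Cen]
      intro y
      have h2 : Subgroup.closure X ≤ Cz (Subgroup.normalClosure (SS X (n + 1))) s := by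
        rw [Subgroup.closure_le]
        intro x hx
        show ⁅s, x⁆ ∈ Subgroup.normalClosure (SS X (n + 1))
        exact Subgroup.subset_normalClosure ⟨s, hs, x, hx, rfl⟩
      rw [hX] at h2
      exact h2 (Subgroup.mem_top y)
    rw [Subgroup.commutator_le]
    intro x hx y _
    exact mem_Cen.1 (h1 (lcs_eq hX n hx)) y

lemma lcs_le {F : Type u} [Group F] {X : Set F} (hX : Subgroup.closure X = ⊤) (n : ℕ) :
    (⊤ : Subgroup F).lowerCentralSeries n ≤
      Subgroup.closure (SS X n) ⊔ (⊤ : Subgroup F).lowerCentralSeries (n + 1) := by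
  refine (lcs_eq hX n).trans ?_
  unfold Subgroup.normalClosure
  rw [Subgroup.closure_le]
  intro x hx
  rw [Group.mem_conjugatesOfSet_iff] at hx
  obtain ⟨s, hs, hsx⟩ := hx
  rw [isConj_iff] at hsx
  obtain ⟨g, rfl⟩ := hsx
  have h1 : g * s * g⁻¹ = ⁅s, g⁆⁻¹ * s := by
    simp only [commutatorElement_def]; group
  rw [h1]
  apply Subgroup.mul_mem
  · apply Subgroup.inv_mem
    exact Subgroup.mem_sup_right
      (Subgroup.commutator_mem_commutator (SS_sub n hs) (Subgroup.mem_top g))
  · exact Subgroup.mem_sup_left (Subgroup.subset_closure hs)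

lemma step {F : Type u} [Group F] (M : Subgroup F) [M.Normal]
    (hu : ∀ t : F, ∀ a ∈ M, ∃ m : ℕ, (fun x => t * x * t⁻¹ * x⁻¹)^[m] a = 1)
    (J K : Subgroup F) [K.Normal] (hJK : ∀ s ∈ J, ∀ t : F, ⁅t, s⁆ ∈ K)
    (h0 : ∃ a ∈ M, a ≠ 1 ∧ ∀ f ∈ K, Commute f a) (T : Finset F) (hT : ∀ t ∈ T, t ∈ J) :
    ∃ a ∈ M, a ≠ 1 ∧ (∀ f ∈ K, Commute f a) ∧ ∀ t ∈ T, Commute t a := by
  classical
  induction T using Finset.induction_on with
  | empty =>
    obtain ⟨a, h1, h2, h3⟩ := h0
    exact ⟨a, h1, h2, h3, fun t ht => absurd ht (Finset.notMem_empty t)⟩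
  | insert s T _ ih =>
    obtain ⟨a, haM, ha1, haK, haT⟩ := ih (fun t ht => hT t (Finset.mem_insert_of_mem ht))
    have hsJ : s ∈ J := hT s (Finset.mem_insert_self s T)
    let φ : F → F := fun x => s * x * s⁻¹ * x⁻¹
    let I : F → Prop := fun x => x ∈ M ∧ (∀ f ∈ K, Commute f x) ∧ ∀ t ∈ T, Commute t x
    have hI : ∀ x, I x → I (φ x) := by
      rintro x ⟨h1, h2, h3⟩
      refine ⟨?_, ?_, ?_⟩
      · exact M.mul_mem (Subgroup.Normal.conj_mem inferInstance _ h1 s) (M.inv_mem h1)
      · intro f hf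
        have h4 : Commute (s⁻¹ * f * s) x := by
          apply h2
          have := Subgroup.Normal.conj_mem (inferInstance : K.Normal) f hf s⁻¹
          rwa [inv_inv] at this
        have h5 : Commute (s * (s⁻¹ * f * s) * s⁻¹) (s * x * s⁻¹) := h4.conj s
        have h6 : s * (s⁻¹ * f * s) * s⁻¹ = f := by group
        rw [h6] at h5
        exact h5.mul_right (h2 f hf).inv_right
      · intro t ht
        have h4 : Commute (s⁻¹ * t * s) x := by
          have h7 : s⁻¹ * t * s = t * ⁅t⁻¹, s⁻¹⁆ := by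
            simp only [commutatorElement_def]; group
          rw [h7]
          exact (h3 t ht).mul_left (h2 _ (hJK _ (J.inv_mem hsJ) _))
        have h5 : Commute (s * (s⁻¹ * t * s) * s⁻¹) (s * x * s⁻¹) := h4.conj s
        have h6 : s * (s⁻¹ * t * s) * s⁻¹ = t := by group
        rw [h6] at h5
        exact h5.mul_right (h3 t ht).inv_right
    have hit : ∀ m, I (φ^[m] a) := by
      intro m
      induction m with
      | zero => exact ⟨haM, haK, haT⟩
      | succ m ihm => rw [Function.iterate_succ_apply']; exact hI _ ihm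
    have hex : ∃ m, φ^[m] a = 1 := hu s a haM
    have hm0 : Nat.find hex ≠ 0 := by
      intro h
      have := Nat.find_spec hex
      rw [h] at this
      exact ha1 this
    obtain ⟨i, hi⟩ := Nat.exists_eq_succ_of_ne_zero hm0
    have hb1 : φ^[i] a ≠ 1 := Nat.find_min hex (by omega)
    have hb2 : φ (φ^[i] a) = 1 := by
      have := Nat.find_spec hex
      rw [hi, Function.iterate_succ_apply'] at this
      exact this
    refine ⟨φ^[i] a, (hit i).1, hb1, (hit i).2.1, ?_⟩
    intro t ht
    rcases Finset.mem_insert.1 ht with rfl | ht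
    · have h8 : t * φ^[i] a * t⁻¹ * (φ^[i] a)⁻¹ = 1 := hb2
      rw [mul_inv_eq_one, mul_inv_eq_iff_eq_mul] at h8
      exact h8
    · exact (hit i).2.2 t ht

lemma exists_central {F : Type u} [Group F] [Group.FG F] (M : Subgroup F) [M.Normal]
    (hM : ∀ x ∈ M, ∀ y ∈ M, x * y = y * x) (c : ℕ) (hc : (⊤ : Subgroup F).lowerCentralSeries c ≤ M)
    (hu : ∀ t : F, ∀ a ∈ M, ∃ m : ℕ, (fun x => t * x * t⁻¹ * x⁻¹)^[m] a = 1)
    (hne : M ≠ ⊥) : ∃ a ∈ M, a ≠ 1 ∧ ∀ f : F, Commute f a := by
  classical
  obtain ⟨X0, hX0⟩ := (Group.fg_def.1 (inferInstance : Group.FG F) : (⊤ : Subgroup F).FG)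
  have hX : Subgroup.closure (X0 : Set F) = ⊤ := hX0
  have hP : ∀ j ≤ c, ∃ a ∈ M, a ≠ 1 ∧
      ∀ f ∈ (⊤ : Subgroup F).lowerCentralSeries (c - j), Commute f a := by
    intro j
    induction j with
    | zero =>
      intro _
      rw [Nat.sub_zero]
      obtain ⟨a, ha1⟩ := Subgroup.ne_bot_iff_exists_ne_one.1 hne
      exact ⟨a, a.2, fun h' => ha1 (Subtype.ext h'), fun f hf => hM f (hc hf) a a.2⟩
    | succ j ih =>
      intro hj
      have h0 := ih (by omega)
      have hcj : c - j = (c - (j + 1)) + 1 := by omega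
      rw [hcj] at h0
      set n := c - (j + 1) with hn
      have hfin := SS_finite (F := F) X0.finite_toSet n
      obtain ⟨a, haM, ha1, haK, haT⟩ := step M hu ((⊤ : Subgroup F).lowerCentralSeries n)
        ((⊤ : Subgroup F).lowerCentralSeries (n + 1))
        (fun s hs t => by
          have h1 := Subgroup.commutator_mem_commutator hs (Subgroup.mem_top t)
          have h2 : ⁅t, s⁆ = ⁅s, t⁆⁻¹ := (commutatorElement_inv s t).symm
          rw [h2]
          exact Subgroup.inv_mem _ h1) h0 hfin.toFinset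
        (fun t ht => SS_sub n (hfin.mem_toFinset.1 ht))
      refine ⟨a, haM, ha1, ?_⟩
      intro f hf
      have h3 : Subgroup.closure (SS (X0 : Set F) n) ⊔ (⊤ : Subgroup F).lowerCentralSeries (n + 1) ≤
          Subgroup.centralizer {a} := by
        rw [sup_le_iff]
        constructor
        · rw [Subgroup.closure_le]
          intro t ht
          show t ∈ Subgroup.centralizer {a}
          rw [Subgroup.mem_centralizer_singleton_iff]
          exact haT t (hfin.mem_toFinset.2 ht)
        · intro t ht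
          rw [Subgroup.mem_centralizer_singleton_iff]
          exact haK t ht
      have h4 := h3 (lcs_le hX n hf)
      rw [Subgroup.mem_centralizer_singleton_iff] at h4
      exact h4
  obtain ⟨a, h1, h2, h3⟩ := hP c le_rfl
  rw [Nat.sub_self] at h3
  exact ⟨a, h1, h2, fun f => h3 f (Subgroup.mem_top f)⟩

theorem nilpotent_aux {F : Type u} [Group F] [Group.FG F] (M : Subgroup F) [M.Normal]
    (hM : ∀ x ∈ M, ∀ y ∈ M, x * y = y * x) (c : ℕ) (hc : (⊤ : Subgroup F).lowerCentralSeries c ≤ M)
    (hu : ∀ t : F, ∀ a ∈ M, ∃ m : ℕ, (fun x => t * x * t⁻¹ * x⁻¹)^[m] a = 1) :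
    Group.IsNilpotent F := by
  classical
  obtain ⟨X0, hX0⟩ := (Group.fg_def.1 (inferInstance : Group.FG F) : (⊤ : Subgroup F).FG)
  have hX : Subgroup.closure (X0 : Set F) = ⊤ := hX0
  have hmono : Monotone (Subgroup.upperCentralSeries F) := Subgroup.upperCentralSeries_mono F
  set N : Subgroup F := ⨆ n, Subgroup.upperCentralSeries F n with hN
  have hmemN : ∀ x, x ∈ N ↔ ∃ n, x ∈ Subgroup.upperCentralSeries F n := by
    intro x
    rw [hN, Subgroup.mem_iSup_of_directed hmono.directed_le]
  haveI hNn : N.Normal := by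
    constructor
    intro x hx g
    rw [hmemN] at hx ⊢
    obtain ⟨n, hn⟩ := hx
    exact ⟨n, Subgroup.Normal.conj_mem inferInstance x hn g⟩
  have hMN : M ≤ N := by
    by_contra hcon
    haveI : (M.map (QuotientGroup.mk' N)).Normal :=
      Subgroup.Normal.map inferInstance _ (QuotientGroup.mk'_surjective N)
    obtain ⟨b, hbM, hb1, hbc⟩ := exists_central (F := F ⧸ N) (M.map (QuotientGroup.mk' N))
      (by
        rintro _ ⟨x, hx, rfl⟩ _ ⟨y, hy, rfl⟩
        rw [← map_mul, ← map_mul, hM x hx y hy]) c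
      (by
        have h1 : (⊤ : Subgroup (F ⧸ N)) = (⊤ : Subgroup F).map (QuotientGroup.mk' N) :=
          (Subgroup.map_top_of_surjective _ (QuotientGroup.mk'_surjective N)).symm
        rw [h1, ← Subgroup.map_lowerCentralSeries]
        exact Subgroup.map_mono hc)
      (by
        rintro t _ ⟨a, ha, rfl⟩
        obtain ⟨t, rfl⟩ := QuotientGroup.mk'_surjective N t
        obtain ⟨m, hm⟩ := hu t a ha
        refine ⟨m, ?_⟩
        have h2 : ∀ i, (fun x => QuotientGroup.mk' N t * x * (QuotientGroup.mk' N t)⁻¹ * x⁻¹)^[i]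
            (QuotientGroup.mk' N a) = QuotientGroup.mk' N ((fun x => t * x * t⁻¹ * x⁻¹)^[i] a) := by
          intro i
          induction i with
          | zero => rfl
          | succ i ih =>
            rw [Function.iterate_succ_apply', Function.iterate_succ_apply', ih]
            simp only [map_mul, map_inv]
        rw [h2, hm, map_one])
      (by
        intro h
        apply hcon
        rw [Subgroup.map_eq_bot_iff, QuotientGroup.ker_mk'] at h
        exact h)
    obtain ⟨a, haM, rfl⟩ := hbM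
    have haN : a ∉ N := by
      intro h
      exact hb1 ((QuotientGroup.eq_one_iff a).2 h)
    have hcomm : ∀ f : F, ∃ n, ⁅a, f⁆ ∈ Subgroup.upperCentralSeries F n := by
      intro f
      rw [← hmemN, ← QuotientGroup.eq_one_iff]
      have h3 := hbc (QuotientGroup.mk' N f)
      have h4 : ((⁅a, f⁆ : F) : F ⧸ N) = ⁅QuotientGroup.mk' N a, QuotientGroup.mk' N f⁆ := by
        rw [← map_commutatorElement]; rfl
      rw [h4, commutatorElement_eq_one_iff_commute]
      exact h3.symm
    choose nf hnf using hcomm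
    set n := X0.sup nf with hn
    have h5 : Subgroup.closure (X0 : Set F) ≤ Cz (Subgroup.upperCentralSeries F n) a := by
      rw [Subgroup.closure_le]
      intro x hx
      show ⁅a, x⁆ ∈ Subgroup.upperCentralSeries F n
      exact hmono (Finset.le_sup (f := nf) hx) (hnf x)
    rw [hX] at h5
    apply haN
    rw [hmemN]
    refine ⟨n + 1, ?_⟩
    rw [Subgroup.mem_upperCentralSeries_succ_iff]
    intro y
    exact h5 (Subgroup.mem_top y)
  -- the lower central term is contained in a finite term of the upper central series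
  have hfin := SS_finite (F := F) X0.finite_toSet c
  have hSc : ∀ x : F, x ∈ SS (X0 : Set F) c → ∃ n, x ∈ Subgroup.upperCentralSeries F n := by
    intro x hx
    rw [← hmemN]
    exact hMN (hc (SS_sub c hx))
  choose! nf hnf using hSc
  set n := hfin.toFinset.sup nf with hn
  have hcn : (⊤ : Subgroup F).lowerCentralSeries c ≤ Subgroup.upperCentralSeries F n := by
    refine (lcs_eq hX c).trans ?_
    apply Subgroup.normalClosure_le_normal
    intro x hx
    exact hmono (Finset.le_sup (f := nf) (hfin.mem_toFinset.2 hx)) (hnf x hx)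
  have hk : ∀ k ≤ c, (⊤ : Subgroup F).lowerCentralSeries (c - k) ≤
      Subgroup.upperCentralSeries F (n + k) := by
    intro k
    induction k with
    | zero => intro _; exact hcn
    | succ k ih =>
      intro hkc x hx
      have h6 := ih (by omega)
      have hck : c - k = (c - (k + 1)) + 1 := by omega
      rw [hck] at h6
      rw [← add_assoc, Subgroup.mem_upperCentralSeries_succ_iff]
      intro y
      exact h6 (Subgroup.commutator_mem_commutator hx (Subgroup.mem_top y))
  refine ⟨n + c, ?_⟩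
  rw [eq_top_iff]
  have h7 := hk c le_rfl
  rw [Nat.sub_self] at h7
  exact h7

end Gruenberg

/-- TARGET: Gruenberg-type lemma -/
theorem nilpotent_of_unipotent {F : Type u} [Group F] [Group.FG F] (M : Subgroup F) [M.Normal]
    (hM : ∀ x ∈ M, ∀ y ∈ M, x * y = y * x) (c : ℕ) (hc : (⊤ : Subgroup F).lowerCentralSeries c ≤ M)
    (hu : ∀ t : F, ∀ a ∈ M, ∃ m : ℕ, (fun x => t * x * t⁻¹ * x⁻¹)^[m] a = 1) :
    Group.IsNilpotent F := nilpotent_aux M hM c hc hu

end ConradSol
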