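import Pool.Agent.Helper277.P1
import Pool.Agent.Helper277.J9
import Pool.Agent.Helper277.J10
import Pool.Agent.Helper277.J12

set_option autoImplicit false

namespace ConradSol

universe u v

/-- quotients by convex normal subgroups are orderable -/
theorem Conv.orderable {G : Type u} [Group G] {P : Set G} (hP : BiCone P) (W : Subgroup G)
    [W.Normal] (hW : Conv P W) : Orderable (G ⧸ W) := by
  have key : ∀ x ∈ P, x ∉ W → ∀ w ∈ W, x * w ∈ P := by
    intro x hx hxW w hw
    by_contra hcon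
    -- then `1 < x < w⁻¹`
    have h1 : x * w ≠ 1 := by
      intro h
      exact hxW (by rw [mul_eq_one_iff_eq_inv.mp h]; exact W.inv_mem hw)
    have h2 : (x * w)⁻¹ ∈ P := by
      rcases hP.total _ h1 with h | h
      · exact absurd h hcon
      · exact h
    refine hxW (hW x hx w⁻¹ (W.inv_mem hw) ?_)
    have := hP.conj_mem x _ h2
    rwa [show w⁻¹ * x⁻¹ = (x * w)⁻¹ by group]
  refine ⟨{q | ∃ x ∈ P, x ∉ W ∧ (x : G ⧸ W) = q}, ⟨⟨?_, ?_, ?_⟩, ?_⟩⟩
  · rintro _ ⟨x, hx, hxW, rfl⟩ _ ⟨y, hy, hyW, rfl⟩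
    refine ⟨x * y, hP.mul_mem _ hx _ hy, ?_, rfl⟩
    intro h
    -- x y ∈ W and x < x y
    refine hxW (hW x hx _ h ?_)
    have := hP.conj_mem x _ hy
    exact this
  · rintro ⟨x, hx, hxW, h⟩
    exact hxW ((QuotientGroup.eq_one_iff x).mp h)
  · intro q hq
    obtain ⟨x, rfl⟩ := QuotientGroup.mk_surjective q
    have hxW : x ∉ W := fun h => hq ((QuotientGroup.eq_one_iff x).mpr h)
    have hx1 : x ≠ 1 := fun h => hxW (h ▸ W.one_mem)
    rcases hP.total x hx1 with h | h
    · exact Or.inl ⟨x, h, hxW, rfl⟩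
    · exact Or.inr ⟨x⁻¹, h, fun h' => hxW (by simpa using W.inv_mem h'), rfl⟩
  · rintro g _ ⟨x, hx, hxW, rfl⟩
    obtain ⟨g, rfl⟩ := QuotientGroup.mk_surjective g
    refine ⟨g * x * g⁻¹, hP.conj_mem _ _ hx, ?_, rfl⟩
    intro h
    have := Subgroup.Normal.conj_mem inferInstance _ h g⁻¹
    rw [show g⁻¹ * (g * x * g⁻¹) * g⁻¹⁻¹ = x by group] at this
    exact hxW this

/-- separation of consecutive terms of the lower central series by a convex subgroup -/
theorem exists_conv_sep {G : Type u} [Group G] {P : Set G} (hP : CentralCone P) {F : Type u}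
    [Group F] [Group.FG F] (φ : F →* G) (n : ℕ)
    (hn : ¬ (⊤ : Subgroup F).lowerCentralSeries n ≤ φ.ker) :
    ∃ W : Subgroup G, Conv P W ∧ ((⊤ : Subgroup F).lowerCentralSeries (n + 1)).map φ ≤ W ∧
      ¬ ((⊤ : Subgroup F).lowerCentralSeries n).map φ ≤ W := by
  classical
  obtain ⟨S, hS⟩ := lcs_finite_normalClosure (F := F) n
  -- for every `x` a convex subgroup
  have hW : ∀ x : F, φ x ≠ 1 → ∃ W : Subgroup G, Conv P W ∧ φ x ∉ W ∧
      ∀ y, y * φ x * y⁻¹ * (φ x)⁻¹ ∈ W := by
    intro x hx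
    rcases hP.total _ hx with h | h
    · obtain ⟨W, h1, h2, h3⟩ := exists_W hP h
      exact ⟨W, h1, h2, h3⟩
    · obtain ⟨W, h1, h2, h3⟩ := exists_W hP h
      refine ⟨W, h1, fun h4 => h2 (W.inv_mem h4), fun y => ?_⟩
      have hn := h1.normal hP
      have h4 := h3 y
      have h5 := hn.conj_mem _ (W.inv_mem h4) ((φ x))
      rw [show φ x * (y * (φ x)⁻¹ * y⁻¹ * (φ x)⁻¹⁻¹)⁻¹ * (φ x)⁻¹ = y * φ x * y⁻¹ * (φ x)⁻¹ by
        group] at h5
      exact h5
  have hmax : ∀ T : Finset F, (∃ x ∈ T, φ x ≠ 1) → ∃ W : Subgroup G, Conv P W ∧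
      (∀ x ∈ T, ∀ y, y * φ x * y⁻¹ * (φ x)⁻¹ ∈ W) ∧ ∃ x ∈ T, φ x ∉ W := by
    intro T
    induction T using Finset.induction with
    | empty => rintro ⟨x, hx, -⟩; simp at hx
    | insert a T ha ih =>
      rintro ⟨x, hx, hx1⟩
      by_cases hT : ∃ x ∈ T, φ x ≠ 1
      · obtain ⟨W, hWc, hW1, z, hz, hzW⟩ := ih hT
        by_cases ha1 : φ a = 1
        · refine ⟨W, hWc, ?_, z, Finset.mem_insert_of_mem hz, hzW⟩
          intro x hx y
          rcases Finset.mem_insert.mp hx with rfl | hx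
          · rw [ha1]; simp [W.one_mem]
          · exact hW1 x hx y
        · obtain ⟨W', hWc', haW', hW1'⟩ := hW a ha1
          rcases Conv.total hP hWc hWc' with h | h
          · refine ⟨W', hWc', ?_, a, Finset.mem_insert_self _ _, haW'⟩
            intro x hx y
            rcases Finset.mem_insert.mp hx with rfl | hx
            · exact hW1' y
            · exact h (hW1 x hx y)
          · refine ⟨W, hWc, ?_, z, Finset.mem_insert_of_mem hz, hzW⟩
            intro x hx y
            rcases Finset.mem_insert.mp hx with rfl | hx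
            · exact h (hW1' y)
            · exact hW1 x hx y
      · push Not at hT
        have hxa : x = a := by
          rcases Finset.mem_insert.mp hx with h | h
          · exact h
          · exact absurd (hT x h) hx1
        subst hxa
        obtain ⟨W', hWc', haW', hW1'⟩ := hW x hx1
        refine ⟨W', hWc', ?_, x, Finset.mem_insert_self _ _, haW'⟩
        intro z hz y
        rcases Finset.mem_insert.mp hz with rfl | hz
        · exact hW1' y
        · rw [hT z hz]; simp [W'.one_mem]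
  have hex : ∃ x ∈ S, φ x ≠ 1 := by
    by_contra hcon
    push Not at hcon
    apply hn
    rw [hS]
    exact Subgroup.normalClosure_le_normal (fun x hx => hcon x hx)
  obtain ⟨W, hWc, hW1, z, hz, hzW⟩ := hmax S hex
  have hWn := hWc.normal hP
  refine ⟨W, hWc, ?_, ?_⟩
  · -- `γ_{n+1} ≤ φ⁻¹ W`
    rw [Subgroup.map_le_iff_le_comap, Subgroup.lowerCentralSeries_succ, Subgroup.commutator_le]
    -- the set of `x` with `[y, φ x] ∈ W` for all `y` contains `normalClosure S`
    obtain ⟨J, hJ⟩ := exists_J hP hWc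
    have hJn : J.Normal := by
      refine ⟨fun x hx g => ?_⟩
      rw [hJ] at hx ⊢
      intro y
      have h1 := hx (g⁻¹ * y * g)
      have h2 := hWn.conj_mem _ h1 g
      rw [show g * (g⁻¹ * y * g * x * (g⁻¹ * y * g)⁻¹ * x⁻¹) * g⁻¹ =
        y * (g * x * g⁻¹) * y⁻¹ * (g * x * g⁻¹)⁻¹ by group] at h2
      exact h2
    have hSJ : (⊤ : Subgroup F).lowerCentralSeries n ≤ J.comap φ := by
      rw [hS]
      refine Subgroup.normalClosure_le_normal (fun x hx => ?_)
      change φ x ∈ J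
      rw [hJ]
      exact hW1 x hx
    intro x hx y _
    have h1 : φ x ∈ J := hSJ hx
    rw [hJ] at h1
    change φ (x * y * x⁻¹ * y⁻¹) ∈ W
    rw [map_mul, map_mul, map_mul, map_inv, map_inv]
    have h2 := W.inv_mem (h1 (φ y))
    rw [show (φ y * φ x * (φ y)⁻¹ * (φ x)⁻¹)⁻¹ = φ x * φ y * (φ x)⁻¹ * (φ y)⁻¹ by group] at h2
    exact h2
  · intro h
    refine hzW (h ⟨z, ?_, rfl⟩)
    rw [hS]
    exact Subgroup.subset_normalClosure hz

end ConradSol
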