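import Mathlib
import Pool.Agent.Helper277.EOC

set_option autoImplicit false

/-!
# Right orders on Engel groups are Conrad right orders
-/

namespace Pool.Agent.Helper277.EO

/-- The translate of a lower set. -/
def lowerShift {G : Type*} [Group G] [LinearOrder G] (hmul : ∀ a b c : G, a < b → a * c < b * c)
    (L : LowerSet G) (g : G) : LowerSet G :=
  ⟨{x | x * g⁻¹ ∈ L}, by
    intro a b hab ha
    rcases lt_or_eq_of_le hab with h | h
    · exact L.lower (hmul _ _ _ h).le ha
    · rw [h]; exact ha⟩

theorem mem_lowerShift {G : Type*} [Group G] [LinearOrder G]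
    (hmul : ∀ a b c : G, a < b → a * c < b * c) (L : LowerSet G) (g x : G) :
    x ∈ lowerShift hmul L g ↔ x * g⁻¹ ∈ L := Iff.rfl

/-- The action of a right ordered group on its lower sets. -/
def lowerAct {G : Type*} [Group G] [LinearOrder G] (hmul : ∀ a b c : G, a < b → a * c < b * c) :
    RA (LowerSet G) G where
  act L g := lowerShift hmul L g
  act_one L := by
    ext x
    change x ∈ lowerShift hmul L 1 ↔ x ∈ L
    simp [mem_lowerShift]
  act_mul L g h := by
    ext x
    change x ∈ lowerShift hmul L (g * h) ↔ x ∈ lowerShift hmul (lowerShift hmul L g) h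
    simp [mem_lowerShift, mul_assoc]
  act_mono L M g h := by
    refine lt_of_le_of_ne ?_ ?_
    · intro x hx
      exact h.le hx
    · intro heq
      apply h.ne
      ext x
      change x ∈ L ↔ x ∈ M
      have h1 : x * g ∈ lowerShift hmul L g ↔ x * g ∈ lowerShift hmul M g := by rw [heq]
      simpa [mem_lowerShift] using h1

theorem lowerAct_Iic {G : Type*} [Group G] [LinearOrder G]
    (hmul : ∀ a b c : G, a < b → a * c < b * c) (x g : G) :
    (lowerAct hmul).act (LowerSet.Iic x) g = LowerSet.Iic (x * g) := by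
  ext y
  change y * g⁻¹ ≤ x ↔ y ≤ x * g
  rw [← not_lt, ← not_lt, not_iff_not]
  constructor
  · intro h
    have := hmul _ _ g h
    simpa using this
  · intro h
    have := hmul _ _ g⁻¹ h
    simpa using this

theorem conrad_of_engel {G : Type*} [Group G] [LinearOrder G]
    (hmul : ∀ a b c : G, a < b → a * c < b * c) {n : ℕ} (hE : EngelLaw n G)
    {f g : G} (hf : 1 < f) (hfg : f < g) : ∃ m : ℕ, 0 < m ∧ g < f * g ^ m * f⁻¹ := by
  by_contra hcon
  push Not at hcon
  set A := lowerAct hmul with hA
  have hI : ∀ x y : G, A.act (LowerSet.Iic x) y = LowerSet.Iic (x * y) := lowerAct_Iic hmul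
  have hle : ∀ {x y : G}, x ≤ y → LowerSet.Iic x ≤ LowerSet.Iic y := by
    intro x y h z hz
    exact le_trans (show z ≤ x from hz) h
  have hlt : ∀ {x y : G}, x < y → LowerSet.Iic x < LowerSet.Iic y := by
    intro x y h
    refine lt_of_le_of_ne (hle h.le) ?_
    intro heq
    have h1 : y ∈ LowerSet.Iic x := by
      rw [heq]
      exact le_refl y
    exact absurd (show y ≤ x from h1) (not_le.2 h)
  have hg : 1 < g := hf.trans hfg
  -- the component of `g` at `1`
  have h1 : LowerSet.Iic (1 : G) < A.act (LowerSet.Iic (1 : G)) g := by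
    rw [hI]; exact hlt (by simpa using hg)
  obtain ⟨hU, hU1, hU2⟩ := A.exists_up h1
  set l := (⨅ m : ℕ, A.act (LowerSet.Iic (1 : G)) (g⁻¹ ^ m)) with hl
  set p := (⨆ m : ℕ, A.act (LowerSet.Iic (1 : G)) (g ^ m)) with hp
  have hp1 : ∀ m : ℕ, LowerSet.Iic (g ^ m) < p := by
    intro m
    refine lt_of_lt_of_le ?_ (le_iSup (fun m : ℕ => A.act (LowerSet.Iic (1 : G)) (g ^ m)) (m + 1))
    have := A.pow_mono h1 m
    rwa [hI 1 (g ^ m), one_mul] at this
  -- `p f⁻¹ ≤ g`
  have h2 : A.act p f⁻¹ ≤ LowerSet.Iic g := by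
    rw [hp, A.act_iSup]
    refine iSup_le fun m => ?_
    rw [hI, hI]
    apply hle
    rcases Nat.eq_zero_or_pos m with hm | hm
    · subst hm
      have h3 : (1 : G) * f⁻¹ < f * f⁻¹ := hmul _ _ _ hf
      rw [mul_inv_cancel] at h3
      simpa using (h3.trans hg).le
    · have h3 : 1 * (g ^ m * f⁻¹) < f * (g ^ m * f⁻¹) := hmul _ _ _ hf
      have h4 := hcon m hm
      rw [mul_assoc] at h4
      rw [mul_assoc]
      exact h3.le.trans h4
  set w := f⁻¹ * g with hw
  have h3 : A.act p w < p := by
    rw [hw, A.act_mul]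
    calc A.act (A.act p f⁻¹) g ≤ A.act (LowerSet.Iic g) g := (A.le_iff _ _ _).2 h2
      _ = LowerSet.Iic (g ^ 2) := by rw [hI, pow_two]
      _ < p := hp1 2
  have h4 : LowerSet.Iic f < A.act (LowerSet.Iic f) w := by
    rw [hI, hw, mul_inv_cancel_left]
    exact hlt hfg
  have h5 : p < A.act p w⁻¹ := A.lt_act_inv_iff.2 h3
  obtain ⟨hV, hV1, hV2⟩ := A.exists_up h5
  set t := (⨅ m : ℕ, A.act p (w⁻¹⁻¹ ^ m)) with ht
  set q := (⨆ m : ℕ, A.act p (w⁻¹ ^ m)) with hq
  have h6 : LowerSet.Iic f < p := by
    refine (hlt hfg).trans ?_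
    have := hp1 1
    rwa [pow_one] at this
  have h7 : LowerSet.Iic f ≤ t := by
    by_contra hc
    push Not at hc
    have := hV.up _ hc (h6.trans hV2)
    exact absurd (this.trans (A.act_inv_lt_iff.2 h4)) (lt_irrefl _)
  exact A.not_linked hE (u := g) (v := w) (a₁ := l) (e₁ := p) (a₂ := t) (e₂ := q)
    { h₁ := Or.inl hU
      h₂ := Or.inr hV
      lt₁ := hU1.trans ((hlt hf).trans_le h7)
      lt₂ := hV1
      lt₃ := hV2 }

/-- Every right order on an `n`-Engel group is a Conrad right order. -/
theorem right_order_conrad {n : ℕ} {G : Type*} [Group G] (hE : EngelLaw n G) (r : G → G → Prop)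
    (hirr : ∀ a, ¬ r a a) (htr : ∀ a b c, r a b → r b c → r a c)
    (htot : ∀ a b, a = b ∨ r a b ∨ r b a) (hmul : ∀ a b c, r a b → r (a * c) (b * c))
    (f g : G) (hf : r 1 f) (hfg : r f g) : ∃ m : ℕ, 0 < m ∧ r g (f * g ^ m * f⁻¹) := by
  classical
  let _ : LinearOrder G :=
    { le := fun a b => a = b ∨ r a b
      lt := r
      le_refl := fun a => Or.inl rfl
      le_trans := by
        rintro a b c (rfl | h1) (rfl | h2)
        · exact Or.inl rfl
        · exact Or.inr h2
        · exact Or.inr h1
        · exact Or.inr (htr _ _ _ h1 h2)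
      le_antisymm := by
        rintro a b (rfl | h1) (h | h2)
        · rfl
        · rfl
        · exact h.symm
        · exact (hirr _ (htr _ _ _ h1 h2)).elim
      lt_iff_le_not_ge := by
        intro a b
        constructor
        · intro h
          refine ⟨Or.inr h, ?_⟩
          rintro (rfl | h2)
          · exact hirr _ h
          · exact hirr _ (htr _ _ _ h h2)
        · rintro ⟨rfl | h1, h2⟩
          · exact (h2 (Or.inl rfl)).elim
          · exact h1
      le_total := by
        intro a b
        rcases htot a b with h | h | h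
        · exact Or.inl (Or.inl h)
        · exact Or.inl (Or.inr h)
        · exact Or.inr (Or.inr h)
      toDecidableLE := Classical.decRel _
      toDecidableEq := Classical.decEq _
      toDecidableLT := Classical.decRel _ }
  exact conrad_of_engel (G := G) hmul hE hf hfg

end Pool.Agent.Helper277.EO
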