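import Mathlib
import Pool.Agent.Helper277.EOD

set_option autoImplicit false

/-!
# Convex jumps of right orders on Engel groups
-/

namespace Pool.Agent.Helper277.EO

namespace RA

section dual

variable {Ω G : Type*} [LinearOrder Ω] [Group G] (A : RA Ω G)

/-- The same action on the reversed order. -/
def dual : RA Ωᵒᵈ G where
  act z g := A.act z g
  act_one z := A.act_one z
  act_mul z g h := A.act_mul z g h
  act_mono z w g h := A.act_mono w z g h

theorem Up.dual {b : G} {l p : Ω} (h : A.Up b l p) :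
    A.dual.Up b⁻¹ (OrderDual.toDual p) (OrderDual.toDual l) where
  lt := h.lt
  fl := A.fix_inv h.fp
  fp := A.fix_inv h.fl
  up := fun z h1 h2 => A.act_inv_lt_iff.2 (h.up z h2 h1)

/-- The mirror image of `P3`. -/
theorem P3_mirror {n : ℕ} (hE : EngelLaw n G) {b g : G} {l p : Ω} (hb : A.Cmp b l p)
    (hl : A.act l g = l) : A.act p g = p := by
  rcases hb with hb | hb
  · exact A.dual.P3 hE (hb.dual A) hl
  · exact A.dual.P3 hE (hb.dual A) hl

theorem Cmp.inv {b : G} {l p : Ω} (h : A.Cmp b l p) : A.Cmp b⁻¹ l p := by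
  rcases h with h | h
  · exact Or.inr (by rwa [inv_inv])
  · exact Or.inl h

theorem Cmp.conj {b : G} {l p : Ω} (h : A.Cmp b l p) (c : G) :
    A.Cmp (c⁻¹ * b * c) (A.act l c) (A.act p c) := by
  rcases h with h | h
  · exact Or.inl (h.conj A c)
  · refine Or.inr ?_
    have := h.conj A c
    have e : (c⁻¹ * b * c)⁻¹ = c⁻¹ * b⁻¹ * c := by group
    rwa [e]

end dual

section jumps

variable {Ω G : Type*} [CompleteLinearOrder Ω] [Group G] (A : RA Ω G)

/-- If `h` moves one point of a component of `g` to a point of that component, then it fixes the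
end points. -/
theorem fix_of_mem {n : ℕ} (hE : EngelLaw n G) {g h : G} {l p z : Ω} (hg : A.Cmp g l p)
    (h1 : l < z) (h2 : z < p) (h3 : l < A.act z h) (h4 : A.act z h < p) :
    A.act l h = l ∧ A.act p h = p := by
  have key : A.act p h = p := by
    by_contra hcon
    obtain ⟨α, β, hK, hα, hβ⟩ := A.exists_cmp hcon
    rcases lt_trichotomy l α with h5 | h5 | h5
    · exact A.not_linked hE ⟨hg, hK, h5, hα, hβ⟩
    · apply hcon
      apply A.P3_mirror hE hg
      rw [h5]
      exact hK.fl A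
    · rcases hK with hK | hK
      · have e1 : l < A.act l h := hK.up _ h5 (h1.trans (h2.trans hβ))
        have e2 : p < A.act p h := hK.up _ hα hβ
        have e3 : A.act l h < p := (A.act_mono _ _ h h1).trans h4
        exact A.not_linked hE ⟨hg, hg.conj A h, e1, e3, e2⟩
      · have e1 : A.act l h < l := A.lt_act_inv_iff.1 (hK.up _ h5 (h1.trans (h2.trans hβ)))
        have e2 : A.act p h < p := A.lt_act_inv_iff.1 (hK.up _ hα hβ)
        have e3 : l < A.act p h := h3.trans (A.act_mono _ _ h h2)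
        exact A.not_linked hE ⟨hg.conj A h, hg, e1, e3, e2⟩
  exact ⟨A.P3' hE hg key, key⟩

/-- Two elements that stabilise a component and have fixed points in it have a common fixed
point in it. -/
theorem common_fix {n : ℕ} (hE : EngelLaw n G) {g h₁ h₂ : G} {l p w₁ w₂ : Ω} (hg : A.Cmp g l p)
    (hl : A.act l h₂ = l) (hp : A.act p h₂ = p)
    (h1 : l < w₁) (h2 : w₁ < p) (h3 : A.act w₁ h₁ = w₁) (h4 : l < w₂) (h5 : w₂ < p)
    (h6 : A.act w₂ h₂ = w₂) : ∃ w, l < w ∧ w < p ∧ A.act w h₁ = w ∧ A.act w h₂ = w := by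
  by_cases hw : A.act w₁ h₂ = w₁
  · exact ⟨w₁, h1, h2, h3, hw⟩
  obtain ⟨α, β, hK, hα, hβ⟩ := A.exists_cmp hw
  have h7 : l ≤ α := by
    by_contra hc
    push Not at hc
    exact hK.ne A hc (h1.trans hβ) hl
  have h8 : β ≤ p := by
    by_contra hc
    push Not at hc
    exact hK.ne A (hα.trans h2) hc hp
  have h9 : l < α := by
    refine lt_of_le_of_ne h7 ?_
    intro he
    have h10 : A.act β g = β := by
      apply A.P3_mirror hE hK
      rw [← he]
      exact hg.fl A
    rcases lt_or_eq_of_le h8 with h11 | h11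
    · exact hg.ne A (h1.trans hβ) h11 h10
    · apply hK.ne A (z := w₂) (by rw [← he]; exact h4) (by rw [h11]; exact h5) h6
  refine ⟨α, h9, hα.trans h2, ?_, hK.fl A⟩
  by_contra hc
  obtain ⟨γ, δ, hJ, hγ, hδ⟩ := A.exists_cmp hc
  have h10 : δ ≤ w₁ := by
    by_contra hcc
    push Not at hcc
    exact hJ.ne A (hγ.trans hα) hcc h3
  exact A.not_linked hE ⟨hJ, hK, hγ, hδ, h10.trans_lt hβ⟩

/-- The stabiliser of both end points. -/
def stab (l p : Ω) : Subgroup G where
  carrier := {h | A.act l h = l ∧ A.act p h = p}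
  one_mem' := ⟨A.act_one _, A.act_one _⟩
  mul_mem' := by
    rintro a b ⟨h1, h2⟩ ⟨h3, h4⟩
    exact ⟨by rw [A.act_mul, h1, h3], by rw [A.act_mul, h2, h4]⟩
  inv_mem' := by
    rintro a ⟨h1, h2⟩
    exact ⟨A.fix_inv h1, A.fix_inv h2⟩

theorem mem_stab {l p : Ω} {h : G} : h ∈ A.stab l p ↔ A.act l h = l ∧ A.act p h = p := Iff.rfl

/-- The elements of the stabiliser with a fixed point in the component. -/
def small {n : ℕ} (hE : EngelLaw n G) {g : G} {l p z : Ω} (hg : A.Cmp g l p) (hz1 : l < z)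
    (hz2 : z < p) : Subgroup G where
  carrier := {h | h ∈ A.stab l p ∧ ∃ w, l < w ∧ w < p ∧ A.act w h = w}
  one_mem' := ⟨one_mem _, z, hz1, hz2, A.act_one _⟩
  mul_mem' := by
    rintro a b ⟨h1, w₁, h2, h3, h4⟩ ⟨h5, w₂, h6, h7, h8⟩
    obtain ⟨w, e1, e2, e3, e4⟩ := A.common_fix hE hg h5.1 h5.2 h2 h3 h4 h6 h7 h8
    exact ⟨mul_mem h1 h5, w, e1, e2, by rw [A.act_mul, e3, e4]⟩
  inv_mem' := by
    rintro a ⟨h1, w, h2, h3, h4⟩
    exact ⟨inv_mem h1, w, h2, h3, A.fix_inv h4⟩

theorem mem_small {n : ℕ} (hE : EngelLaw n G) {g : G} {l p z : Ω} (hg : A.Cmp g l p)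
    (hz1 : l < z) (hz2 : z < p) {h : G} : h ∈ A.small hE hg hz1 hz2 ↔
      h ∈ A.stab l p ∧ ∃ w, l < w ∧ w < p ∧ A.act w h = w := Iff.rfl

theorem small_conj {n : ℕ} (hE : EngelLaw n G) {g : G} {l p z : Ω} (hg : A.Cmp g l p)
    (hz1 : l < z) (hz2 : z < p) {h c : G} (hh : h ∈ A.small hE hg hz1 hz2)
    (hc : c ∈ A.stab l p) : c⁻¹ * h * c ∈ A.small hE hg hz1 hz2 := by
  obtain ⟨h1, w, h2, h3, h4⟩ := hh
  refine ⟨mul_mem (mul_mem (inv_mem hc) h1) hc, A.act w c, ?_, ?_, ?_⟩
  · calc l = A.act l c := hc.1.symm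
      _ < A.act w c := A.act_mono _ _ _ h2
  · calc A.act w c < A.act p c := A.act_mono _ _ _ h3
      _ = p := hc.2
  · rw [A.act_mul, A.act_mul, A.act_act_inv, h4]

/-- An element of the stabiliser that is not small moves all points of the component in the same
direction. -/
theorem up_of_not_small {n : ℕ} (hE : EngelLaw n G) {g : G} {l p z : Ω} (hg : A.Cmp g l p)
    (hz1 : l < z) (hz2 : z < p) {h : G} (hh : h ∈ A.stab l p)
    (hh2 : h ∉ A.small hE hg hz1 hz2) (hz : z < A.act z h) : A.Up h l p := by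
  obtain ⟨hU, hU1, hU2⟩ := A.exists_up hz
  set α := (⨅ m : ℕ, A.act z (h⁻¹ ^ m))
  set β := (⨆ m : ℕ, A.act z (h ^ m))
  have e1 : l ≤ α := by
    by_contra hc
    push Not at hc
    exact (hU.up _ hc (hz1.trans hU2)).ne' hh.1
  have e2 : β ≤ p := by
    by_contra hc
    push Not at hc
    exact (hU.up _ (hU1.trans hz2) hc).ne' hh.2
  have e3 : α = l := by
    by_contra hc
    exact hh2 ⟨hh, α, lt_of_le_of_ne e1 (Ne.symm hc), hU1.trans hz2, hU.fl⟩
  have e4 : β = p := by
    by_contra hc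
    exact hh2 ⟨hh, β, hz1.trans hU2, lt_of_le_of_ne e2 hc, hU.fp⟩
  rw [e3, e4] at hU
  exact hU

theorem up_mul_small {n : ℕ} (hE : EngelLaw n G) {g : G} {l p z : Ω} (hg : A.Cmp g l p)
    (hz1 : l < z) (hz2 : z < p) {h s : G} (hh : A.Up h l p)
    (hs : s ∈ A.small hE hg hz1 hz2) : A.Up (h * s) l p := by
  obtain ⟨h1, w, h2, h3, h4⟩ := hs
  have hhst : h ∈ A.stab l p := ⟨hh.fl, hh.fp⟩
  have hns : h * s ∉ A.small hE hg hz1 hz2 := by
    intro hc
    have : h ∈ A.small hE hg hz1 hz2 := by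
      have h5 := mul_mem hc (inv_mem (show s ∈ A.small hE hg hz1 hz2 from ⟨h1, w, h2, h3, h4⟩))
      rwa [mul_inv_cancel_right] at h5
    obtain ⟨_, v, h6, h7, h8⟩ := this
    exact (hh.up v h6 h7).ne' h8
  -- the point `w h⁻¹` is moved up by `h s`
  have h6 : l < A.act w h⁻¹ := by
    calc l = A.act l h⁻¹ := (A.fix_inv hh.fl).symm
      _ < A.act w h⁻¹ := A.act_mono _ _ _ h2
  have h7 : A.act w h⁻¹ < p := by
    calc A.act w h⁻¹ < A.act p h⁻¹ := A.act_mono _ _ _ h3
      _ = p := A.fix_inv hh.fp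
  have h8 : A.act w h⁻¹ < A.act (A.act w h⁻¹) (h * s) := by
    rw [← A.act_mul, inv_mul_cancel_left, h4]
    exact A.act_inv_lt_iff.2 (hh.up w h2 h3)
  exact A.up_of_not_small hE hg h6 h7 (mul_mem hhst h1) (fun hc => hns hc) h8

end jumps

end RA

end Pool.Agent.Helper277.EO
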