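import Mathlib
import Pool.Agent.Helper277.EOG

set_option autoImplicit false

/-!
# Local indicability and the description of the convex jumps
-/

namespace Pool.Agent.Helper277.EO

/-- A nontrivial finitely generated right ordered Engel group maps onto `ℤ`. -/
theorem exists_surj_int {G : Type*} [Group G] [LinearOrder G]
    (hmul : ∀ a b c : G, a < b → a * c < b * c) {n : ℕ} (hE : EngelLaw n G)
    [Group.FG G] [Nontrivial G] : ∃ φ : G →* Multiplicative ℤ, Function.Surjective φ := by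
  classical
  have hinv : ∀ x : G, x < 1 → 1 < x⁻¹ := fun x hx => by
    have := hmul _ _ x⁻¹ hx
    rwa [mul_inv_cancel, one_mul] at this
  -- a positive element that dominates a generating set
  obtain ⟨T, hT⟩ := (Group.fg_def.1 (inferInstance : Group.FG G))
  obtain ⟨g, hg1, hgT⟩ : ∃ g : G, 1 < g ∧ ∀ t ∈ T, t < g ∧ t⁻¹ < g := by
    obtain ⟨x, hx⟩ := exists_ne (1 : G)
    obtain ⟨x, hx⟩ : ∃ x : G, 1 < x := by
      rcases lt_or_gt_of_ne hx with h | h
      · exact ⟨_, hinv _ h⟩
      · exact ⟨_, h⟩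
    let U : Finset G := insert x (T ∪ T.image (fun t => t⁻¹))
    have hU : U.Nonempty := ⟨x, Finset.mem_insert_self _ _⟩
    have hm : 1 < U.max' hU := hx.trans_le (Finset.le_max' _ _ (Finset.mem_insert_self _ _))
    have hlt : U.max' hU < U.max' hU * U.max' hU := by
      have := hmul _ _ (U.max' hU) hm
      rwa [one_mul] at this
    refine ⟨U.max' hU * U.max' hU, hm.trans hlt, fun t ht => ⟨?_, ?_⟩⟩
    · refine (Finset.le_max' _ _ ?_).trans_lt hlt
      exact Finset.mem_insert_of_mem (Finset.mem_union_left _ ht)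
    · refine (Finset.le_max' _ _ ?_).trans_lt hlt
      exact Finset.mem_insert_of_mem (Finset.mem_union_right _ (Finset.mem_image_of_mem _ ht))
  obtain ⟨S, D, hSD, hgD, hgS, hD, hS, hmem, hconj, harch, hpm, hpc, hps⟩ :=
    exists_jump hmul hE hg1
  have hDtop : D = ⊤ := by
    rw [eq_top_iff, ← hT, Subgroup.closure_le]
    intro t ht
    obtain ⟨h1, h2⟩ := hgT t ht
    rcases le_or_gt 1 t with h3 | h3
    · exact hD 1 t g (one_mem _) hgD h3 h1.le
    · have h4 : t⁻¹ ∈ D := hD 1 t⁻¹ g (one_mem _) hgD (hinv t h3).le h2.le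
      simpa using inv_mem h4
  have hDm : ∀ x : G, x ∈ D := fun x => by rw [hDtop]; exact Subgroup.mem_top x
  have hSn : S.Normal := ⟨fun s hs c => by
    have := hconj s c⁻¹ hs (hDm _)
    rwa [inv_inv] at this⟩
  -- the positive cone of the quotient
  let P : Set (G ⧸ S) := {q | ∃ h : G, h ∉ S ∧ 1 < h ∧ (h : G ⧸ S) = q}
  have hP : ∀ h : G, (h : G ⧸ S) ∈ P ↔ h ∉ S ∧ 1 < h := by
    intro h
    constructor
    · rintro ⟨h', h1, h2, h3⟩
      have h4 : h'⁻¹ * h ∈ S := QuotientGroup.eq.1 h3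
      have h5 := hps h' (h'⁻¹ * h) (hDm _) h1 h2 h4
      rwa [mul_inv_cancel_left] at h5
    · rintro ⟨h1, h2⟩
      exact ⟨h, h1, h2, rfl⟩
  have hPone : (1 : G ⧸ S) ∉ P := by
    have := (hP 1).not.2 (fun h => h.1 (one_mem _))
    simpa using this
  have hPmul : ∀ a b : G ⧸ S, a ∈ P → b ∈ P → a * b ∈ P := by
    rintro _ _ ⟨x, hx1, hx2, rfl⟩ ⟨y, hy1, hy2, rfl⟩
    rw [← QuotientGroup.mk_mul, hP]
    exact hpm x y (hDm _) hx1 hx2 (hDm _) hy1 hy2
  have hPconj : ∀ a c : G ⧸ S, a ∈ P → c⁻¹ * a * c ∈ P := by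
    rintro _ c ⟨x, hx1, hx2, rfl⟩
    obtain ⟨c, rfl⟩ := QuotientGroup.mk_surjective c
    rw [← QuotientGroup.mk_inv, ← QuotientGroup.mk_mul, ← QuotientGroup.mk_mul, hP]
    exact hpc x c (hDm _) hx1 hx2 (hDm _)
  have hPtot : ∀ a : G ⧸ S, a ∈ P ∨ a = 1 ∨ a⁻¹ ∈ P := by
    intro a
    obtain ⟨a, rfl⟩ := QuotientGroup.mk_surjective a
    by_cases h1 : a ∈ S
    · right; left; exact (QuotientGroup.eq_one_iff a).2 h1
    · rcases lt_trichotomy a 1 with h2 | h2 | h2
      · right; right
        rw [← QuotientGroup.mk_inv, hP]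
        exact ⟨fun h => h1 (by simpa using inv_mem h), hinv a h2⟩
      · exact (h1 (h2 ▸ one_mem _)).elim
      · left; exact (hP a).2 ⟨h1, h2⟩
  have hPinv : ∀ a : G ⧸ S, a ∈ P → a⁻¹ ∉ P := fun a h1 h2 => hPone (by
    have := hPmul _ _ h1 h2
    rwa [mul_inv_cancel] at this)
  let _ : LinearOrder (G ⧸ S) :=
    { le := fun a b => a = b ∨ a⁻¹ * b ∈ P
      lt := fun a b => a⁻¹ * b ∈ P
      le_refl := fun a => Or.inl rfl
      le_trans := by
        rintro a b c (rfl | h1) (rfl | h2)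
        · exact Or.inl rfl
        · exact Or.inr h2
        · exact Or.inr h1
        · refine Or.inr ?_
          have := hPmul _ _ h1 h2
          rwa [mul_assoc, mul_inv_cancel_left] at this
      le_antisymm := by
        rintro a b (rfl | h1) (h | h2)
        · rfl
        · rfl
        · exact h.symm
        · exfalso
          apply hPinv _ h1
          rwa [mul_inv_rev, inv_inv]
      lt_iff_le_not_ge := by
        intro a b
        constructor
        · intro h
          refine ⟨Or.inr h, ?_⟩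
          rintro (rfl | h2)
          · rw [inv_mul_cancel] at h
            exact hPone h
          · apply hPinv _ h
            rwa [mul_inv_rev, inv_inv]
        · rintro ⟨rfl | h1, h2⟩
          · exact (h2 (Or.inl rfl)).elim
          · exact h1
      le_total := by
        intro a b
        rcases hPtot (a⁻¹ * b) with h | h | h
        · exact Or.inl (Or.inr h)
        · left; left
          rw [inv_mul_eq_one] at h
          exact h
        · right; right
          rwa [mul_inv_rev, inv_inv] at h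
      toDecidableLE := Classical.decRel _
      toDecidableEq := Classical.decEq _
      toDecidableLT := Classical.decRel _ }
  have hltdef : ∀ a b : G ⧸ S, a < b ↔ a⁻¹ * b ∈ P := fun a b => Iff.rfl
  have hcomm := holder_comm (Q := G ⧸ S)
    (by
      intro a b c h
      rw [hltdef] at h ⊢
      have : (c * a)⁻¹ * (c * b) = a⁻¹ * b := by group
      rwa [this])
    (by
      intro a b c h
      rw [hltdef] at h ⊢
      have : (a * c)⁻¹ * (b * c) = c⁻¹ * (a⁻¹ * b) * c := by group
      rw [this]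
      exact hPconj _ _ h)
    (by
      intro x y hx
      obtain ⟨x, rfl⟩ := QuotientGroup.mk_surjective x
      obtain ⟨y, rfl⟩ := QuotientGroup.mk_surjective y
      rw [hltdef, inv_one, one_mul, hP] at hx
      obtain ⟨m, hm⟩ := harch x y (hDm _) hx.1 hx.2 (hDm _)
      -- `x ^ m = u * y` with `1 < u`
      refine ⟨m + 1, ?_⟩
      set u := x ^ m * y⁻¹ with hu
      have h1 : 1 < u := by
        have := hmul _ _ y⁻¹ hm
        rwa [mul_inv_cancel] at this
      have hxP : (x : G ⧸ S) ∈ P := (hP x).2 hx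
      have h2 : (y : G ⧸ S)⁻¹ * (x : G ⧸ S) ^ (m + 1) =
          ((y : G ⧸ S)⁻¹ * (u : G ⧸ S) * (y : G ⧸ S)) * (x : G ⧸ S) := by
        rw [← QuotientGroup.mk_inv, ← QuotientGroup.mk_pow, ← QuotientGroup.mk_mul,
          ← QuotientGroup.mk_mul, ← QuotientGroup.mk_mul, ← QuotientGroup.mk_mul, hu]
        congr 1
        rw [pow_succ]
        group
      rw [hltdef, h2]
      by_cases hus : u ∈ S
      · have h3 : (u : G ⧸ S) = 1 := (QuotientGroup.eq_one_iff u).2 hus
        rw [h3, mul_one, inv_mul_cancel, one_mul]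
        exact hxP
      · exact hPmul _ _ (hPconj _ _ ((hP u).2 ⟨hus, h1⟩)) hxP)
  let _ : CommGroup (G ⧸ S) := { (inferInstance : Group (G ⧸ S)) with mul_comm := hcomm }
  have hnt : Nontrivial (G ⧸ S) := by
    refine ⟨⟨(g : G ⧸ S), 1, ?_⟩⟩
    intro h
    exact hgS ((QuotientGroup.eq_one_iff g).1 h)
  have hfg : Group.FG (G ⧸ S) := QuotientGroup.fg S
  have hpow : ∀ (a : G ⧸ S) (k : ℕ), a ∈ P → a ^ (k + 1) ∈ P := by
    intro a k ha
    induction k with
    | zero => simpa using ha
    | succ k ih => rw [pow_succ]; exact hPmul _ _ ih ha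
  obtain ⟨φ, hφ⟩ := exists_surj_of_comm (Q := G ⧸ S) (by
    intro x k hk hx
    obtain ⟨k, rfl⟩ := Nat.exists_eq_succ_of_ne_zero hk
    rcases hPtot x with h | h | h
    · exact (hPone (hx ▸ hpow _ k h)).elim
    · exact h
    · have h1 := hpow _ k h
      rw [inv_pow] at h1
      rw [Nat.succ_eq_add_one] at hx
      rw [hx, inv_one] at h1
      exact (hPone h1).elim)
  exact ⟨φ.comp (QuotientGroup.mk' S), hφ.comp (QuotientGroup.mk'_surjective S)⟩

/-- In a right ordered Engel group every convex jump is normal with archimedean quotient. -/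
theorem jump_conrad {G : Type*} [Group G] [LinearOrder G]
    (hmul : ∀ a b c : G, a < b → a * c < b * c) {n : ℕ} (hE : EngelLaw n G)
    (C D : Subgroup G) (hC : ∀ a b c : G, a ∈ C → c ∈ C → a ≤ b → b ≤ c → b ∈ C)
    (hD : ∀ a b c : G, a ∈ D → c ∈ D → a ≤ b → b ≤ c → b ∈ D) (hCD : C < D)
    (hjump : ∀ K : Subgroup G, (∀ a b c : G, a ∈ K → c ∈ K → a ≤ b → b ≤ c → b ∈ K) →
      C ≤ K → K ≤ D → K = C ∨ K = D) :
    (∀ c d : G, c ∈ C → d ∈ D → d⁻¹ * c * d ∈ C) ∧
    (∀ x y : G, x ∈ D → x ∉ C → 1 < x → y ∈ D → ∃ m : ℕ, y < x ^ m) := by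
  have hinv : ∀ x : G, x < 1 → 1 < x⁻¹ := fun x hx => by
    have := hmul _ _ x⁻¹ hx
    rwa [mul_inv_cancel, one_mul] at this
  obtain ⟨g, hgD, hgC⟩ := SetLike.exists_of_lt hCD
  obtain ⟨g, hg1, hgD, hgC⟩ : ∃ g : G, 1 < g ∧ g ∈ D ∧ g ∉ C := by
    rcases lt_trichotomy g 1 with h | h | h
    · exact ⟨g⁻¹, hinv g h, inv_mem hgD, fun h2 => hgC (by simpa using inv_mem h2)⟩
    · exact (hgC (h ▸ one_mem _)).elim
    · exact ⟨g, h, hgD, hgC⟩
  obtain ⟨S, D', hSD, hgD', hgS, hD', hS, hmem, hconj, harch, hpm, hpc, hps⟩ :=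
    exists_jump hmul hE hg1
  have hDD : D' ≤ D := by
    intro h hh
    obtain ⟨m, h1, h2⟩ := (hmem h).1 hh
    exact hD _ h _ (pow_mem (inv_mem hgD) m) (pow_mem hgD m) h1.le h2.le
  have hCD' : C ≤ D' := by
    intro c hc
    rw [hmem]
    refine ⟨1, ?_, ?_⟩
    · rw [pow_one]
      by_contra hcon
      push Not at hcon
      apply hgC
      have h1 : g⁻¹ < 1 := by
        have := hmul _ _ g⁻¹ hg1
        rwa [mul_inv_cancel, one_mul] at this
      have := hC c g⁻¹ 1 hc (one_mem _) hcon h1.le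
      simpa using inv_mem this
    · rw [pow_one]
      by_contra hcon
      push Not at hcon
      exact hgC (hC 1 g c (one_mem _) hc hg1.le hcon)
  have hDeq : D' = D := by
    rcases hjump D' hD' hCD' hDD with h | h
    · exact (hgC (h ▸ hgD')).elim
    · exact h
  subst hDeq
  have hCS : C ≤ S := by
    intro c hc
    by_contra hcS
    have key : ∀ c : G, 1 < c → c ∈ C → c ∉ S → False := by
      intro c h1 h2 h3
      obtain ⟨m, hm⟩ := harch c g (hCD' h2) h3 h1 hgD
      exact hgC (hC 1 g _ (one_mem _) (pow_mem h2 m) hg1.le hm.le)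
    rcases lt_trichotomy c 1 with h | h | h
    · exact key c⁻¹ (hinv c h) (inv_mem hc) (fun h2 => hcS (by simpa using inv_mem h2))
    · exact hcS (h ▸ one_mem _)
    · exact key c h hc hcS
  have hSeq : S = C := by
    rcases hjump S hS hCS hSD with h | h
    · exact h
    · exact (hgS (h ▸ hgD)).elim
  subst hSeq
  exact ⟨hconj, harch⟩

end Pool.Agent.Helper277.EO
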