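import Mathlib
import Pool.Agent.Helper277.EOH

set_option autoImplicit false

/-!
# The relational form of the results on right orders of Engel groups
-/

namespace Pool.Agent.Helper277.EO

/-- Jumps and local indicability, for a right order given as a relation. -/
theorem right_order_jumps {n : ℕ} {G : Type*} [Group G] (hE : EngelLaw n G) (r : G → G → Prop)
    (hirr : ∀ a, ¬ r a a) (htr : ∀ a b c, r a b → r b c → r a c)
    (htot : ∀ a b, a = b ∨ r a b ∨ r b a) (hmul : ∀ a b c, r a b → r (a * c) (b * c)) :
    (∀ C D : Subgroup G,
      (∀ a b c : G, a ∈ C → c ∈ C → r a b → r b c → b ∈ C) →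
      (∀ a b c : G, a ∈ D → c ∈ D → r a b → r b c → b ∈ D) → C < D →
      (∀ K : Subgroup G, (∀ a b c : G, a ∈ K → c ∈ K → r a b → r b c → b ∈ K) →
        C ≤ K → K ≤ D → K = C ∨ K = D) →
      (∀ c d : G, c ∈ C → d ∈ D → d⁻¹ * c * d ∈ C) ∧
      (∀ x y : G, x ∈ D → x ∉ C → r 1 x → y ∈ D → ∃ m : ℕ, r y (x ^ m))) ∧
    (∀ H : Subgroup G, H.FG → H ≠ ⊥ →
      ∃ φ : H →* Multiplicative ℤ, Function.Surjective φ) := by
  classical
  let I : ∀ (K : Type _) [Group K] (s : K → K → Prop) (_ : ∀ a, ¬ s a a)
      (_ : ∀ a b c, s a b → s b c → s a c) (_ : ∀ a b, a = b ∨ s a b ∨ s b a),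
      LinearOrder K := fun K _ s sirr str stot =>
    { le := fun a b => a = b ∨ s a b
      lt := s
      le_refl := fun a => Or.inl rfl
      le_trans := by
        rintro a b c (rfl | h1) (rfl | h2)
        · exact Or.inl rfl
        · exact Or.inr h2
        · exact Or.inr h1
        · exact Or.inr (str _ _ _ h1 h2)
      le_antisymm := by
        rintro a b (rfl | h1) (h | h2)
        · rfl
        · rfl
        · exact h.symm
        · exact (sirr _ (str _ _ _ h1 h2)).elim
      lt_iff_le_not_ge := by
        intro a b
        constructor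
        · intro h
          refine ⟨Or.inr h, ?_⟩
          rintro (rfl | h2)
          · exact sirr _ h
          · exact sirr _ (str _ _ _ h h2)
        · rintro ⟨rfl | h1, h2⟩
          · exact (h2 (Or.inl rfl)).elim
          · exact h1
      le_total := by
        intro a b
        rcases stot a b with h | h | h
        · exact Or.inl (Or.inl h)
        · exact Or.inl (Or.inr h)
        · exact Or.inr (Or.inr h)
      toDecidableLE := Classical.decRel _
      toDecidableEq := Classical.decEq _
      toDecidableLT := Classical.decRel _ }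
  refine ⟨?_, ?_⟩
  · intro C D hC hD hCD hjump
    let _ : LinearOrder G := I G r hirr htr htot
    have conv : ∀ K : Subgroup G, (∀ a b c : G, a ∈ K → c ∈ K → r a b → r b c → b ∈ K) →
        (∀ a b c : G, a ∈ K → c ∈ K → a ≤ b → b ≤ c → b ∈ K) := by
      rintro K hK a b c ha hc (rfl | hab) (rfl | hbc)
      · exact ha
      · exact ha
      · exact hc
      · exact hK a b c ha hc hab hbc
    refine jump_conrad (G := G) hmul hE C D (conv C hC) (conv D hD) hCD ?_
    intro K hK h1 h2
    refine hjump K ?_ h1 h2
    intro a b c ha hc hab hbc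
    exact hK a b c ha hc (Or.inr hab) (Or.inr hbc)
  · intro H hfg hne
    let _ : LinearOrder H := I H (fun a b => r a b) (fun a => hirr a)
      (fun a b c => htr a b c) (by
        intro a b
        rcases htot a b with h | h | h
        · exact Or.inl (Subtype.ext h)
        · exact Or.inr (Or.inl h)
        · exact Or.inr (Or.inr h))
    have hEH : EngelLaw n H := by
      intro x y
      have h1 := RA.map_engel H.subtype x y n
      apply Subtype.ext
      change H.subtype _ = 1
      rw [h1]
      exact hE _ _
    have : Group.FG H := (Group.fg_iff_subgroup_fg H).2 hfg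
    have : Nontrivial H := (Subgroup.nontrivial_iff_ne_bot H).2 hne
    exact exists_surj_int (G := H) (fun a b c h => hmul a b c h) hEH

end Pool.Agent.Helper277.EO
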