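import Mathlib

set_option autoImplicit false

namespace ConradSol

universe u v

open scoped commutatorElement

lemma comm_pow_left {X : Type u} [Group X] {g x : X} (hc : ∀ y, Commute ⁅g, x⁆ y) (m : ℕ) :
    ⁅g ^ m, x⁆ = ⁅g, x⁆ ^ m := by
  induction m with
  | zero => simp
  | succ m ih =>
    have h1 : ⁅g ^ (m + 1), x⁆ = g * ⁅g ^ m, x⁆ * (x * g⁻¹ * x⁻¹) := by
      simp only [commutatorElement_def, pow_succ']
      group
    have h2 : Commute (⁅g, x⁆ ^ m) g := (hc g).pow_left m
    rw [h1, ih, ← h2.eq, pow_succ]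
    simp only [commutatorElement_def]
    group

lemma comm_pow_right {X : Type u} [Group X] {g x : X} (hc : ∀ y, Commute ⁅g, x⁆ y) (m : ℕ) :
    ⁅g, x ^ m⁆ = ⁅g, x⁆ ^ m := by
  have hc' : ∀ y, Commute ⁅x, g⁆ y := by
    intro y
    rw [← commutatorElement_inv]
    exact (hc y).inv_left
  rw [← commutatorElement_inv, comm_pow_left hc', ← inv_pow, commutatorElement_inv]

lemma comm_central {X : Type u} [Group X] {y y' z z' : X} (hz : ∀ w, Commute z w) (hz' : ∀ w, Commute z' w) :
    ⁅y * z, y' * z'⁆ = ⁅y, y'⁆ := by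
  simp only [commutatorElement_def, mul_inv_rev]
  have e1 : y * z * (y' * z') * (z⁻¹ * y⁻¹) * (z'⁻¹ * y'⁻¹) =
      y * (z * (y' * z' * z⁻¹)) * y⁻¹ * z'⁻¹ * y'⁻¹ := by group
  have e2 : z * (y' * z' * z⁻¹) = y' * z' := by
    rw [(hz (y' * z' * z⁻¹)).eq]; group
  have e3 : y * (y' * z') * y⁻¹ * z'⁻¹ * y'⁻¹ = y * y' * (z' * (y⁻¹ * z'⁻¹)) * y'⁻¹ := by group
  have e4 : z' * (y⁻¹ * z'⁻¹) = y⁻¹ := by
    rw [(hz' (y⁻¹ * z'⁻¹)).eq]; group
  rw [e1, e2, e3, e4]

theorem exists_pow_mem_aux (c : ℕ) : ∀ (X : Type u) [Group X] (Y : Subgroup X),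
    (⊤ : Subgroup X).lowerCentralSeries c = ⊥ →
    (∀ g : X, ∃ m : ℕ, 1 ≤ m ∧ g ^ m ∈ Y ⊔ commutator X) → ∀ g : X, ∃ m : ℕ, 1 ≤ m ∧ g ^ m ∈ Y := by
  induction c with
  | zero =>
    intro X _ Y hc _ g
    rw [Subgroup.lowerCentralSeries_zero] at hc
    have hg : g ∈ (⊥ : Subgroup X) := hc ▸ Subgroup.mem_top g
    rw [Subgroup.mem_bot] at hg
    exact ⟨1, le_rfl, by rw [hg, one_pow]; exact Y.one_mem⟩
  | succ c ih =>
    intro X _ Y hc h g
    rcases c with _ | c
    · rw [zero_add, Subgroup.top_lowerCentralSeries_one] at hc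
      obtain ⟨m, hm, hg⟩ := h g
      rw [hc, sup_bot_eq] at hg
      exact ⟨m, hm, hg⟩
    · set Z := (⊤ : Subgroup X).lowerCentralSeries (c + 1) with hZ
      have hcen : ∀ z ∈ Z, ∀ x : X, Commute z x := by
        intro z hz x
        rw [← commutatorElement_eq_one_iff_commute]
        have h1 : ⁅z, x⁆ ∈ (⊤ : Subgroup X).lowerCentralSeries (c + 1 + 1) := by
          rw [Subgroup.lowerCentralSeries_succ]
          exact Subgroup.commutator_mem_commutator hz (Subgroup.mem_top x)
        rw [hc, Subgroup.mem_bot] at h1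
        exact h1
      have hq := ih (X ⧸ Z) (Y.map (QuotientGroup.mk' Z)) (by
          have h1 := Subgroup.map_lowerCentralSeries (S := (⊤ : Subgroup X)) (QuotientGroup.mk' Z) (c + 1)
          rw [Subgroup.map_top_of_surjective _ (QuotientGroup.mk'_surjective Z), ← hZ,
            QuotientGroup.map_mk'_self] at h1
          exact h1.symm) (by
          intro q
          obtain ⟨x, rfl⟩ := QuotientGroup.mk'_surjective Z q
          obtain ⟨m, hm, hx⟩ := h x
          refine ⟨m, hm, ?_⟩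
          rw [← map_pow]
          have h2 := Subgroup.mem_map_of_mem (QuotientGroup.mk' Z) hx
          rw [Subgroup.map_sup] at h2
          have h5 : (commutator X).map (QuotientGroup.mk' Z) ≤ commutator (X ⧸ Z) := by
            rw [commutator_def, commutator_def, Subgroup.map_commutator]
            exact Subgroup.commutator_mono le_top le_top
          have h6 : Y.map (QuotientGroup.mk' Z) ⊔ (commutator X).map (QuotientGroup.mk' Z) ≤
              Y.map (QuotientGroup.mk' Z) ⊔ commutator (X ⧸ Z) := sup_le_sup_left h5 _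
          exact h6 h2)
      have hdec : ∀ x : X, ∃ m : ℕ, 1 ≤ m ∧ ∃ y ∈ Y, ∃ z ∈ Z, x ^ m = y * z := by
        intro x
        obtain ⟨m, hm, hx⟩ := hq (QuotientGroup.mk' Z x)
        rw [← map_pow] at hx
        obtain ⟨y, hy, hyx⟩ := Subgroup.mem_map.mp hx
        have h3 : y⁻¹ * x ^ m ∈ Z := QuotientGroup.eq.mp hyx
        exact ⟨m, hm, y, hy, y⁻¹ * x ^ m, h3, by group⟩
      have hclaim : ∀ z ∈ Z, (∀ w, Commute z w) ∧ ∃ n : ℕ, 1 ≤ n ∧ z ^ n ∈ Y := by
        intro z hz
        have hz' := hz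
        rw [hZ, Subgroup.mem_lowerCentralSeries_succ_iff] at hz'
        induction hz' using Subgroup.closure_induction with
        | mem x hx =>
          obtain ⟨p, hp, q, _, hpq⟩ := hx
          have hxZ : x ∈ Z := by
            rw [← hpq, hZ, Subgroup.lowerCentralSeries_succ]
            exact Subgroup.commutator_mem_commutator hp (Subgroup.mem_top q)
          have hxc := hcen x hxZ
          refine ⟨hxc, ?_⟩
          obtain ⟨m, hm, y, hy, z1, hz1, e1⟩ := hdec p
          obtain ⟨l, hl, y', hy', z2, hz2, e2⟩ := hdec q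
          refine ⟨m * l, Nat.one_le_iff_ne_zero.mpr (by positivity), ?_⟩
          have hpc : ∀ w, Commute ⁅p, q⁆ w := by rw [hpq]; exact hxc
          have e3 : ⁅p ^ m, q ^ l⁆ = ⁅p, q⁆ ^ (m * l) := by
            have h4 := comm_pow_left hpc m
            have h5 : ∀ w, Commute ⁅p ^ m, q⁆ w := by
              intro w; rw [h4]; exact (hpc w).pow_left m
            rw [comm_pow_right h5, h4, ← pow_mul]
          rw [← hpq, ← e3, e1, e2, comm_central (hcen z1 hz1) (hcen z2 hz2), commutatorElement_def]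
          exact Y.mul_mem (Y.mul_mem (Y.mul_mem hy hy') (Y.inv_mem hy)) (Y.inv_mem hy')
        | one =>
          exact ⟨fun w => Commute.one_left w, 1, le_rfl, by rw [one_pow]; exact Y.one_mem⟩
        | mul a b ha hb iha ihb =>
          have haZ : a ∈ Z := by rw [hZ, Subgroup.mem_lowerCentralSeries_succ_iff]; exact ha
          have hbZ : b ∈ Z := by rw [hZ, Subgroup.mem_lowerCentralSeries_succ_iff]; exact hb
          obtain ⟨ca, n, hn, han⟩ := iha haZ
          obtain ⟨cb, k, hk, hbk⟩ := ihb hbZ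
          refine ⟨fun w => (ca w).mul_left (cb w), n * k, Nat.one_le_iff_ne_zero.mpr (by positivity), ?_⟩
          rw [(ca b).mul_pow, pow_mul, mul_comm n k, pow_mul]
          exact Y.mul_mem (Y.pow_mem han k) (Y.pow_mem hbk n)
        | inv a ha iha =>
          have haZ : a ∈ Z := by rw [hZ, Subgroup.mem_lowerCentralSeries_succ_iff]; exact ha
          obtain ⟨ca, n, hn, han⟩ := iha haZ
          exact ⟨fun w => (ca w).inv_left, n, hn, by rw [inv_pow]; exact Y.inv_mem han⟩
      obtain ⟨m, hm, y, hy, z, hz, e⟩ := hdec g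
      obtain ⟨cz, n, hn, hzn⟩ := hclaim z hz
      refine ⟨m * n, Nat.one_le_iff_ne_zero.mpr (by positivity), ?_⟩
      rw [pow_mul, e, (cz y).symm.mul_pow]
      exact Y.mul_mem (Y.pow_mem hy n) hzn

theorem exists_pow_mem {X : Type u} [Group X] [Group.IsNilpotent X] (Y : Subgroup X)
    (h : ∀ g : X, ∃ m : ℕ, 1 ≤ m ∧ g ^ m ∈ Y ⊔ commutator X) (g : X) :
    ∃ m : ℕ, 1 ≤ m ∧ g ^ m ∈ Y := by
  obtain ⟨c, hc⟩ := Subgroup.nilpotent_iff_lowerCentralSeries.mp (inferInstance : Group.IsNilpotent X)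
  exact exists_pow_mem_aux c X Y hc h g

end ConradSol
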