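import Mathlib

set_option autoImplicit false

namespace ConradSol

universe u v

theorem exists_isolator_aux
    (hA : ∀ (X : Type u) [Group X] [Group.IsNilpotent X] (Y : Subgroup X),
      (∀ g : X, ∃ m : ℕ, 1 ≤ m ∧ g ^ m ∈ Y ⊔ commutator X) →
      ∀ g : X, ∃ m : ℕ, 1 ≤ m ∧ g ^ m ∈ Y)
    {M : Type u} [Group M] [Group.IsNilpotent M] (H : Subgroup M) :
    ∃ I : Subgroup M, ∀ g, g ∈ I ↔ ∃ k : ℕ, 1 ≤ k ∧ g ^ k ∈ H := by
  have hmul : ∀ x y : M, (∃ k : ℕ, 1 ≤ k ∧ x ^ k ∈ H) → (∃ k : ℕ, 1 ≤ k ∧ y ^ k ∈ H) →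
      ∃ k : ℕ, 1 ≤ k ∧ (x * y) ^ k ∈ H := by
    rintro x y ⟨k, hk, hxk⟩ ⟨l, hl, hyl⟩
    let X : Subgroup M := Subgroup.closure {x, y}
    have hx : x ∈ X := Subgroup.subset_closure (by simp)
    have hy : y ∈ X := Subgroup.subset_closure (by simp)
    let Y : Subgroup X := H.subgroupOf X
    let W : Subgroup X := Y ⊔ commutator X
    have hWc : commutator X ≤ W := le_sup_right
    have hYW : Y ≤ W := le_sup_left
    -- the set is a subgroup
    have key : ∀ g : X, ∃ m : ℕ, 1 ≤ m ∧ g ^ m ∈ W := by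
      have hmulW : ∀ g h : X, (∃ m : ℕ, 1 ≤ m ∧ g ^ m ∈ W) → (∃ m : ℕ, 1 ≤ m ∧ h ^ m ∈ W) →
          ∃ m : ℕ, 1 ≤ m ∧ (g * h) ^ m ∈ W := by
        rintro g h ⟨m, hm, hgm⟩ ⟨n, hn, hhn⟩
        refine ⟨m * n, Nat.one_le_iff_ne_zero.2 (Nat.mul_ne_zero (by omega) (by omega)), ?_⟩
        have h1 : g ^ (m * n) * h ^ (m * n) ∈ W := by
          refine W.mul_mem ?_ ?_
          · rw [pow_mul]; exact W.pow_mem hgm n
          · rw [mul_comm m n, pow_mul]; exact W.pow_mem hhn m
        have h2 : (g * h) ^ (m * n) * (g ^ (m * n) * h ^ (m * n))⁻¹ ∈ commutator X := by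
          have : (Abelianization.of ((g * h) ^ (m * n) * (g ^ (m * n) * h ^ (m * n))⁻¹) : Abelianization X) = 1 := by
            rw [map_mul, map_inv, map_mul, map_pow, map_pow, map_pow, map_mul, mul_pow]
            exact mul_inv_cancel _
          rw [← Abelianization.ker_of, MonoidHom.mem_ker]
          exact this
        have h3 := W.mul_mem (hWc h2) h1
        rwa [inv_mul_cancel_right] at h3
      intro g
      obtain ⟨g, hg⟩ := g
      induction hg using Subgroup.closure_induction with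
      | mem z hz =>
        rcases hz with hz | hz
        · subst hz
          exact ⟨k, hk, hYW (by
            show ((⟨z, _⟩ : X) ^ k : X) ∈ H.subgroupOf X
            rw [Subgroup.mem_subgroupOf]
            simpa using hxk)⟩
        · have hz : z = y := hz
          subst hz
          exact ⟨l, hl, hYW (by
            show ((⟨z, _⟩ : X) ^ l : X) ∈ H.subgroupOf X
            rw [Subgroup.mem_subgroupOf]
            simpa using hyl)⟩
      | one => exact ⟨1, le_refl _, by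
          have : (⟨1, Subgroup.one_mem _⟩ : X) = 1 := rfl
          rw [this, one_pow]; exact W.one_mem⟩
      | mul a b ha hb iha ihb =>
        exact hmulW ⟨a, ha⟩ ⟨b, hb⟩ iha ihb
      | inv a ha iha =>
        obtain ⟨m, hm, h⟩ := iha
        refine ⟨m, hm, ?_⟩
        have : (⟨a⁻¹, Subgroup.inv_mem _ ha⟩ : X) = (⟨a, ha⟩ : X)⁻¹ := rfl
        rw [this, inv_pow]
        exact W.inv_mem h
    obtain ⟨m, hm, h⟩ := hA X Y key (⟨x, hx⟩ * ⟨y, hy⟩)
    refine ⟨m, hm, ?_⟩
    have h' := Subgroup.mem_subgroupOf.1 h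
    simpa using h'
  refine ⟨{ carrier := {g | ∃ k : ℕ, 1 ≤ k ∧ g ^ k ∈ H}
            mul_mem' := fun {a b} ha hb => hmul a b ha hb
            one_mem' := ⟨1, le_refl _, by rw [one_pow]; exact H.one_mem⟩
            inv_mem' := fun {a} ha => by
              obtain ⟨k, hk, h⟩ := ha
              exact ⟨k, hk, by rw [inv_pow]; exact H.inv_mem h⟩ }, fun g => Iff.rfl⟩

end ConradSol
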