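import Mathlib

set_option autoImplicit false

namespace ConradSol

universe u v

open scoped commutatorElement in
theorem ni_half
    (hA : ∀ (X : Type u) [Group X] [Group.IsNilpotent X] (Y : Subgroup X),
      (∀ g : X, ∃ m : ℕ, 1 ≤ m ∧ g ^ m ∈ Y ⊔ commutator X) →
      ∀ g : X, ∃ m : ℕ, 1 ≤ m ∧ g ^ m ∈ Y)
    (hI : ∀ (X : Type u) [Group X] [Group.IsNilpotent X] (H : Subgroup X),
      ∃ I : Subgroup X, ∀ g, g ∈ I ↔ ∃ k : ℕ, 1 ≤ k ∧ g ^ k ∈ H)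
    {M : Type u} [Group M] [Group.IsNilpotent M] (B : Subgroup M)
    (hB : ∀ (g : M) (k : ℕ), 1 ≤ k → g ^ k ∈ B → g ∈ B) (x : M) (k : ℕ) (hk : 1 ≤ k)
    (hx : ∀ b ∈ B, x ^ k * b * (x ^ k)⁻¹ ∈ B ∧ (x ^ k)⁻¹ * b * x ^ k ∈ B) :
    ∀ b ∈ B, x * b * x⁻¹ ∈ B := by
  intro b hb
  obtain ⟨Q, hQ⟩ : ∃ Q, Q = B ⊔ Subgroup.zpowers x := ⟨_, rfl⟩
  have hBQ : B ≤ Q := by rw [hQ]; exact le_sup_left
  have hxQ : x ∈ Q := by
    rw [hQ]; exact (le_sup_right : Subgroup.zpowers x ≤ _) (Subgroup.mem_zpowers x)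
  have hQnil : Group.IsNilpotent Q := inferInstance
  obtain ⟨W, hW⟩ : ∃ W, W = B.subgroupOf Q ⊔ commutator Q := ⟨_, rfl⟩
  have hBW : ∀ c (hc : c ∈ B), (⟨c, hBQ hc⟩ : Q) ∈ W := by
    intro c hc
    rw [hW]
    exact (le_sup_left : B.subgroupOf Q ≤ _) (Subgroup.mem_subgroupOf.2 hc)
  by_cases hcase : ∃ j : ℕ, 1 ≤ j ∧ (⟨x, hxQ⟩ : Q) ^ j ∈ W
  · obtain ⟨I, hI⟩ := hI Q W
    have hxI : (⟨x, hxQ⟩ : Q) ∈ I := (hI _).2 hcase
    have hBI : ∀ c (hc : c ∈ B), (⟨c, hBQ hc⟩ : Q) ∈ I := fun c hc =>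
      (hI _).2 ⟨1, le_rfl, by rw [pow_one]; exact hBW c hc⟩
    have htop : Q ≤ I.map Q.subtype := by
      conv_lhs => rw [hQ]
      refine sup_le (fun c hc => ⟨_, hBI c hc, rfl⟩) ?_
      rw [Subgroup.zpowers_le]
      exact ⟨_, hxI, rfl⟩
    have hall : ∀ g : Q, ∃ m : ℕ, 1 ≤ m ∧ g ^ m ∈ B.subgroupOf Q ⊔ commutator Q := by
      intro g
      obtain ⟨g', hg', hgg⟩ := htop g.2
      have : g' = g := Subtype.ext hgg
      rw [← hW]
      exact (hI g).1 (this ▸ hg')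
    obtain ⟨m, hm, hxm⟩ := hA Q (B.subgroupOf Q) hall ⟨x, hxQ⟩
    have hxB : x ∈ B := hB x m hm (by
      have := Subgroup.mem_subgroupOf.1 hxm
      simpa using this)
    exact B.mul_mem (B.mul_mem hxB hb) (B.inv_mem hxB)
  · obtain ⟨y, hy⟩ : ∃ y, y = x ^ k := ⟨_, rfl⟩
    rw [← hy] at hx
    have hyB : ∀ j : ℤ, ∀ c ∈ B, y ^ j * c * y ^ (-j) ∈ B := by
      intro j
      induction j using Int.induction_on with
      | zero => intro c hc; simpa using hc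
      | succ i ih =>
        intro c hc
        have h1 := (hx _ (ih c hc)).1
        have h2 : y * (y ^ (i : ℤ) * c * y ^ (-(i : ℤ))) * y⁻¹ =
            y ^ ((i : ℤ) + 1) * c * y ^ (-((i : ℤ) + 1)) := by group
        rwa [h2] at h1
      | pred i ih =>
        intro c hc
        have h1 := (hx _ (ih c hc)).2
        have h2 : y⁻¹ * (y ^ (-(i : ℤ)) * c * y ^ (-(-(i : ℤ)))) * y =
            y ^ (-(i : ℤ) - 1) * c * y ^ (-(-(i : ℤ) - 1)) := by group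
        rwa [h2] at h1
    let P0 : Subgroup M :=
      { carrier := {g | ∃ c ∈ B, ∃ j : ℤ, g = c * y ^ j}
        one_mem' := ⟨1, B.one_mem, 0, by simp⟩
        mul_mem' := by
          rintro _ _ ⟨c, hc, j, rfl⟩ ⟨d, hd, l, rfl⟩
          refine ⟨c * (y ^ j * d * y ^ (-j)), B.mul_mem hc (hyB j d hd), j + l, by group⟩
        inv_mem' := by
          rintro _ ⟨c, hc, j, rfl⟩
          refine ⟨y ^ (-j) * c⁻¹ * y ^ (-(-j)), hyB (-j) _ (B.inv_mem hc), -j, by group⟩ }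
    obtain ⟨I, hI⟩ := hI M P0
    have hxI : x ∈ I := (hI _).2 ⟨k, hk, 1, B.one_mem, 1, by rw [hy]; simp⟩
    have hbI : b ∈ I := (hI _).2 ⟨1, le_rfl, b, hb, 0, by simp⟩
    obtain ⟨n, hn, c, hc, j, hcj⟩ := (hI _).1 (I.mul_mem (I.mul_mem hxI hbI) (I.inv_mem hxI))
    rw [conj_pow] at hcj
    have hcj' : (⟨x, hxQ⟩ : Q) * (⟨b, hBQ hb⟩ : Q) ^ n * (⟨x, hxQ⟩ : Q)⁻¹ =
        ⟨c, hBQ hc⟩ * (⟨x, hxQ⟩ : Q) ^ ((k : ℤ) * j) := by
      apply Subtype.ext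
      simp only [Subgroup.coe_mul, Subgroup.coe_pow, Subgroup.coe_inv, Subgroup.coe_zpow]
      rw [hcj, hy, zpow_mul, zpow_natCast]
    have hcom : ⁅(⟨x, hxQ⟩ : Q), (⟨b, hBQ hb⟩ : Q) ^ n⁆ ∈ commutator Q :=
      Subgroup.commutator_mem_commutator (Subgroup.mem_top _) (Subgroup.mem_top _)
    have hkj : (⟨x, hxQ⟩ : Q) ^ ((k : ℤ) * j) ∈ W := by
      have h1 : (⟨x, hxQ⟩ : Q) ^ ((k : ℤ) * j) = (⟨c, hBQ hc⟩ : Q)⁻¹ *
          (⁅(⟨x, hxQ⟩ : Q), (⟨b, hBQ hb⟩ : Q) ^ n⁆ * (⟨b, hBQ hb⟩ : Q) ^ n) := by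
        rw [commutatorElement_def, inv_mul_cancel_right, hcj', inv_mul_cancel_left]
      rw [h1]
      refine W.mul_mem (W.inv_mem (hBW c hc)) (W.mul_mem ?_ (W.pow_mem (hBW b hb) n))
      rw [hW]
      exact (le_sup_right : commutator Q ≤ _) hcom
    have hkj0 : (k : ℤ) * j = 0 := by
      by_contra hne
      apply hcase
      refine ⟨((k : ℤ) * j).natAbs, Int.natAbs_pos.2 hne, ?_⟩
      rcases Int.natAbs_eq ((k : ℤ) * j) with h | h
      · rw [h, zpow_natCast] at hkj; exact hkj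
      · rw [h, zpow_neg, zpow_natCast] at hkj
        exact (Subgroup.inv_mem_iff W).1 hkj
    have hj0 : j = 0 := by
      rcases mul_eq_zero.1 hkj0 with h | h
      · omega
      · exact h
    rw [hj0, zpow_zero, mul_one, ← conj_pow] at hcj
    exact hB _ n hn (by rw [hcj]; exact hc)

/-
TARGET I3.  In a nilpotent group `M` let `B` be an isolated subgroup (g ^ k ∈ B → g ∈ B).  If `x ^ k` (k ≥ 1)
normalises B then x normalises B.   (hypotheses hA and hI are lemmas proved in other jobs)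

PROOF.  It is enough to show x * b * x⁻¹ ∈ B for all b ∈ B, for every x with this property (apply it to x⁻¹ for the
other half; the hypothesis is symmetric).  Let Q = B ⊔ zpowers x (a nilpotent group).  Let W = the subgroup
(B.subgroupOf Q) ⊔ commutator Q of Q.  x' = x as an element of Q.
Case (i): some x' ^ j ∈ W with j ≥ 1.  Then every g : Q has a power in W: the set of such g is a subgroup as
Q ⧸ commutator Q is abelian, and it contains B and x', which generate Q.  By hA every element of Q has a power in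
B.subgroupOf Q, so as B is isolated every element of Q lies in B; in particular x ∈ B and x * b * x⁻¹ ∈ B.
Case (ii): no x' ^ j with j ≥ 1 is in W.  Let P0 = {b * (x ^ k) ^ j | b ∈ B, j : ℤ}; since x ^ k normalises B this
is the subgroup B ⊔ zpowers (x ^ k) (e.g. `Subgroup.mem_sup` variants for a normalising subgroup, or build the
Subgroup directly with this carrier).  Let I be the isolator of P0 (from hI).  x ∈ I (as x ^ k ∈ P0), B ≤ I, so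
x * b * x⁻¹ ∈ I for b ∈ B: there is n ≥ 1 with (x * b * x⁻¹) ^ n = x * b ^ n * x⁻¹ = b1 * (x ^ k) ^ j, b1 ∈ B, j : ℤ.
Modulo commutator Q this gives b ^ n ≡ b1 * x ^ (k * j), so x' ^ (k*j) ∈ W, whence also x' ^ |k*j| ∈ W, and by (ii)
k * j = 0, j = 0.  So (x * b * x⁻¹) ^ n = b1 ∈ B and x * b * x⁻¹ ∈ B as B is isolated.
-/
theorem normalizer_isolated_aux
    (hA : ∀ (X : Type u) [Group X] [Group.IsNilpotent X] (Y : Subgroup X),
      (∀ g : X, ∃ m : ℕ, 1 ≤ m ∧ g ^ m ∈ Y ⊔ commutator X) →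
      ∀ g : X, ∃ m : ℕ, 1 ≤ m ∧ g ^ m ∈ Y)
    (hI : ∀ (X : Type u) [Group X] [Group.IsNilpotent X] (H : Subgroup X),
      ∃ I : Subgroup X, ∀ g, g ∈ I ↔ ∃ k : ℕ, 1 ≤ k ∧ g ^ k ∈ H)
    {M : Type u} [Group M] [Group.IsNilpotent M] (B : Subgroup M)
    (hB : ∀ (g : M) (k : ℕ), 1 ≤ k → g ^ k ∈ B → g ∈ B) (x : M) (k : ℕ) (hk : 1 ≤ k)
    (hx : ∀ b ∈ B, x ^ k * b * (x ^ k)⁻¹ ∈ B ∧ (x ^ k)⁻¹ * b * x ^ k ∈ B) :
    ∀ b ∈ B, x * b * x⁻¹ ∈ B ∧ x⁻¹ * b * x ∈ B := by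
  intro b hb
  refine ⟨ni_half hA hI B hB x k hk hx b hb, ?_⟩
  have h := ni_half hA hI B hB x⁻¹ k hk (by
    intro c hc
    rw [inv_pow, inv_inv]
    exact ⟨(hx c hc).2, (hx c hc).1⟩) b hb
  rwa [inv_inv] at h

end ConradSol
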