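import Mathlib

set_option autoImplicit false

namespace ConradSol

universe u v

/-- iterated commutator subgroups inside the ambient group -/
def auxDS {M : Type u} [Group M] (S : Subgroup M) : ℕ → Subgroup M
  | 0 => S
  | n + 1 => ⁅auxDS S n, auxDS S n⁆

theorem auxDS_eq {M : Type u} [Group M] (S : Subgroup M) (n : ℕ) :
    auxDS S n = (derivedSeries S n).map S.subtype := by
  induction n with
  | zero =>
    rw [derivedSeries_zero, ← MonoidHom.range_eq_map, Subgroup.range_subtype]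
    rfl
  | succ n ih =>
    rw [derivedSeries_succ, Subgroup.map_commutator, ← ih]
    rfl

theorem auxDS_bot {M : Type u} [Group M] (S : Subgroup M) (n : ℕ) :
    derivedSeries S n = ⊥ ↔ auxDS S n = ⊥ := by
  rw [auxDS_eq]
  exact (Subgroup.map_eq_bot_iff_of_injective _ S.subtype_injective).symm

open scoped commutatorElement in
theorem auxKey
    (hI : ∀ (X : Type u) [Group X] [Group.IsNilpotent X] (H : Subgroup X),
      ∃ I : Subgroup X, ∀ g, g ∈ I ↔ ∃ k : ℕ, 1 ≤ k ∧ g ^ k ∈ H)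
    (hN : ∀ (X : Type u) [Group X] [Group.IsNilpotent X] (B : Subgroup X),
      (∀ (g : X) (k : ℕ), 1 ≤ k → g ^ k ∈ B → g ∈ B) → ∀ (x : X) (k : ℕ), 1 ≤ k →
      (∀ b ∈ B, x ^ k * b * (x ^ k)⁻¹ ∈ B ∧ (x ^ k)⁻¹ * b * x ^ k ∈ B) →
      ∀ b ∈ B, x * b * x⁻¹ ∈ B ∧ x⁻¹ * b * x ∈ B)
    (hC : ∀ (X : Type u) [Group X] [Group.IsNilpotent X],
      (∀ (x : X) (n : ℕ), 1 ≤ n → x ^ n = 1 → x = 1) →
      ∀ (x y : X) (n : ℕ), 1 ≤ n → x * y ^ n = y ^ n * x → x * y = y * x)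
    {M : Type u} [Group M] [Group.IsNilpotent M] (K J : Subgroup M)
    (hJK : ∀ g ∈ J, ∃ k : ℕ, 1 ≤ k ∧ g ^ k ∈ K) :
    ∀ g ∈ ⁅J, J⁆, ∃ k : ℕ, 1 ≤ k ∧ g ^ k ∈ ⁅K, K⁆ := by
  obtain ⟨B, hB⟩ := hI M ⁅K, K⁆
  have hKK : ⁅K, K⁆ ≤ K := by
    rw [Subgroup.commutator_le]
    intro a ha b hb
    rw [commutatorElement_def]
    exact K.mul_mem (K.mul_mem (K.mul_mem ha hb) (K.inv_mem ha)) (K.inv_mem hb)
  have hsub : ∀ c ∈ ⁅K, K⁆, c ∈ B := fun c hc => (hB c).2 ⟨1, le_rfl, by simpa using hc⟩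
  have hiso : ∀ (g : M) (k : ℕ), 1 ≤ k → g ^ k ∈ B → g ∈ B := by
    intro g k hk hg
    obtain ⟨l, hl, hgl⟩ := (hB _).1 hg
    refine (hB g).2 ⟨k * l, Nat.one_le_iff_ne_zero.2 (by positivity), ?_⟩
    rw [pow_mul]
    exact hgl
  have hconjK : ∀ x ∈ K, ∀ c ∈ ⁅K, K⁆, x * c * x⁻¹ ∈ ⁅K, K⁆ := by
    intro x hx c hc
    have h1 : x * c * x⁻¹ = ⁅x, c⁆ * c := by
      rw [commutatorElement_def]; group
    rw [h1]
    exact Subgroup.mul_mem _ (Subgroup.commutator_mem_commutator hx (hKK hc)) hc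
  have hKB : ∀ x ∈ K, ∀ b ∈ B, x * b * x⁻¹ ∈ B := by
    intro x hx b hb
    obtain ⟨k, hk, hbk⟩ := (hB b).1 hb
    refine (hB _).2 ⟨k, hk, ?_⟩
    rw [conj_pow]
    exact hconjK x hx _ hbk
  have hKB2 : ∀ x ∈ K, ∀ b ∈ B, x * b * x⁻¹ ∈ B ∧ x⁻¹ * b * x ∈ B := by
    intro x hx b hb
    refine ⟨hKB x hx b hb, ?_⟩
    have := hKB x⁻¹ (K.inv_mem hx) b hb
    rwa [inv_inv] at this
  have hJB : ∀ g ∈ J, ∀ b ∈ B, g * b * g⁻¹ ∈ B ∧ g⁻¹ * b * g ∈ B := by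
    intro g hg
    obtain ⟨k, hk, hgk⟩ := hJK g hg
    exact hN M B hiso g k hk (hKB2 _ hgk)
  let N : Subgroup M :=
    { carrier := {x | ∀ b ∈ B, x * b * x⁻¹ ∈ B ∧ x⁻¹ * b * x ∈ B}
      one_mem' := by
        intro b hb
        simpa using hb
      mul_mem' := by
        intro x y hx hy b hb
        constructor
        · have := (hx _ (hy b hb).1).1
          have h2 : x * y * b * (x * y)⁻¹ = x * (y * b * y⁻¹) * x⁻¹ := by group
          rw [h2]; exact this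
        · have := (hy _ (hx b hb).2).2
          have h2 : (x * y)⁻¹ * b * (x * y) = y⁻¹ * (x⁻¹ * b * x) * y := by group
          rw [h2]; exact this
      inv_mem' := by
        intro x hx b hb
        rw [inv_inv]
        exact ⟨(hx b hb).2, (hx b hb).1⟩ }
  have hnorm : (B.subgroupOf N).Normal := by
    constructor
    intro n hn g
    rw [Subgroup.mem_subgroupOf] at hn ⊢
    exact (g.2 n hn).1
  have htfQ : ∀ (x : N ⧸ B.subgroupOf N) (n : ℕ), 1 ≤ n → x ^ n = 1 → x = 1 := by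
    intro x n hn hx
    induction x using QuotientGroup.induction_on with
    | H y =>
      rw [← QuotientGroup.mk_pow, QuotientGroup.eq_one_iff, Subgroup.mem_subgroupOf] at hx
      rw [QuotientGroup.eq_one_iff, Subgroup.mem_subgroupOf]
      exact hiso _ n hn (by simpa using hx)
  have hcomm := hC (N ⧸ B.subgroupOf N) htfQ
  have hle : ⁅J, J⁆ ≤ B := by
    rw [Subgroup.commutator_le]
    intro g hg h hh
    obtain ⟨k, hk, hgk⟩ := hJK g hg
    obtain ⟨l, hl, hhl⟩ := hJK h hh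
    have h1 : ⁅g ^ k, h ^ l⁆ ∈ B := hsub _ (Subgroup.commutator_mem_commutator hgk hhl)
    let g' : N := ⟨g, hJB g hg⟩
    let h' : N := ⟨h, hJB h hh⟩
    have h2 : (QuotientGroup.mk g' : N ⧸ B.subgroupOf N) ^ k * (QuotientGroup.mk h') ^ l =
        (QuotientGroup.mk h') ^ l * (QuotientGroup.mk g') ^ k := by
      rw [← QuotientGroup.mk_pow, ← QuotientGroup.mk_pow, ← QuotientGroup.mk_mul,
        ← QuotientGroup.mk_mul]
      symm
      rw [QuotientGroup.eq, Subgroup.mem_subgroupOf]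
      have h3 : (((h' ^ l * g' ^ k)⁻¹ * (g' ^ k * h' ^ l) : N) : M) =
          (h ^ l * g ^ k)⁻¹ * (g ^ k * h ^ l) := by
        simp [g', h']
      rw [h3]
      have h4 : (h ^ l * g ^ k)⁻¹ * (g ^ k * h ^ l) =
          (h ^ l * g ^ k)⁻¹ * ⁅g ^ k, h ^ l⁆ * (h ^ l * g ^ k) := by
        rw [commutatorElement_def]; group
      rw [h4]
      have h5 : h ^ l * g ^ k ∈ N := N.mul_mem (N.pow_mem h'.2 l) (N.pow_mem g'.2 k)
      exact (h5 _ h1).2
    have h6 := hcomm _ _ l hl h2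
    have h7 := hcomm _ _ k hk h6.symm
    rw [← QuotientGroup.mk_mul, ← QuotientGroup.mk_mul] at h7
    rw [QuotientGroup.eq, Subgroup.mem_subgroupOf] at h7
    have h8 : (((h' * g')⁻¹ * (g' * h') : N) : M) = (h * g)⁻¹ * (g * h) := by
      simp [g', h']
    rw [h8] at h7
    have h9 : ⁅g, h⁆ = (h * g) * ((h * g)⁻¹ * (g * h)) * (h * g)⁻¹ := by
      rw [commutatorElement_def]; group
    rw [h9]
    have h10 : h * g ∈ N := N.mul_mem h'.2 g'.2
    exact (h10 _ h7).1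
  intro g hg
  exact (hB g).1 (hle hg)

/-
TARGET I4.  In a torsion-free nilpotent group, the isolator of a soluble subgroup of derived length ≤ d has derived
length ≤ d.   (hypotheses hI, hN, hC are lemmas proved elsewhere)

PROOF.  Define for a subgroup S of M: `D S 0 = S`, `D S (n+1) = ⁅D S n, D S n⁆`.  Then
`D S n = (derivedSeries S n).map S.subtype` by induction (`derivedSeries_succ`, `Subgroup.map_commutator`, and
`map_top`: (⊤ : Subgroup S).map S.subtype = S), so `derivedSeries S d = ⊥ ↔ D S d = ⊥`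
(`Subgroup.map_eq_bot_iff_of_injective`).
KEY STEP: if K, J are subgroups with (∀ g ∈ J, ∃ k ≥ 1, g ^ k ∈ K), then ∀ g ∈ ⁅J, J⁆, ∃ k ≥ 1, g ^ k ∈ ⁅K, K⁆.
 Let B be the isolator of ⁅K,K⁆ (from hI).  B is isolated: (g^k)^l = g^(k l).  Every x ∈ K normalises B:
 (x b x⁻¹)^k = x b^k x⁻¹ ∈ ⁅K,K⁆ since K normalises ⁅K,K⁆ (`Subgroup.commutator_le_left`-like; x c x⁻¹ = ⁅x,c⁆ c, and
 c ∈ ⁅K,K⁆ ≤ K).  By hN every g ∈ J normalises B (as g ^ k ∈ K does).  Let N be the normalizer of B in M (it is a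
 nilpotent group, J ≤ N) and Q = N ⧸ B.subgroupOf N, which is nilpotent and torsion free as B is isolated.  For
 g, h ∈ J with g ^ k, h ^ l ∈ K the commutator ⁅g^k, h^l⁆ is in ⁅K,K⁆ ≤ B, so the images in Q satisfy
 ḡ^k h̄^l = h̄^l ḡ^k; hC twice gives ḡ h̄ = h̄ ḡ, i.e. ⁅g,h⁆ ∈ B.  So ⁅J,J⁆ ≤ B (`Subgroup.commutator_le`).
Then by induction on n:  ∀ g ∈ D I n, ∃ k ≥ 1, g ^ k ∈ D H n.  For n = d: D H d = ⊥ so g ^ k = 1 and g = 1 (htf).
-/
theorem derived_isolator_aux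
    (hI : ∀ (X : Type u) [Group X] [Group.IsNilpotent X] (H : Subgroup X),
      ∃ I : Subgroup X, ∀ g, g ∈ I ↔ ∃ k : ℕ, 1 ≤ k ∧ g ^ k ∈ H)
    (hN : ∀ (X : Type u) [Group X] [Group.IsNilpotent X] (B : Subgroup X),
      (∀ (g : X) (k : ℕ), 1 ≤ k → g ^ k ∈ B → g ∈ B) → ∀ (x : X) (k : ℕ), 1 ≤ k →
      (∀ b ∈ B, x ^ k * b * (x ^ k)⁻¹ ∈ B ∧ (x ^ k)⁻¹ * b * x ^ k ∈ B) →
      ∀ b ∈ B, x * b * x⁻¹ ∈ B ∧ x⁻¹ * b * x ∈ B)
    (hC : ∀ (X : Type u) [Group X] [Group.IsNilpotent X],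
      (∀ (x : X) (n : ℕ), 1 ≤ n → x ^ n = 1 → x = 1) →
      ∀ (x y : X) (n : ℕ), 1 ≤ n → x * y ^ n = y ^ n * x → x * y = y * x)
    {M : Type u} [Group M] [Group.IsNilpotent M]
    (htf : ∀ (x : M) (n : ℕ), 1 ≤ n → x ^ n = 1 → x = 1)
    (H I : Subgroup M) (hHI : ∀ g, g ∈ I ↔ ∃ k : ℕ, 1 ≤ k ∧ g ^ k ∈ H) (d : ℕ)
    (hd : derivedSeries H d = ⊥) : derivedSeries I d = ⊥ := by
  have key : ∀ n, ∀ g ∈ auxDS I n, ∃ k : ℕ, 1 ≤ k ∧ g ^ k ∈ auxDS H n := by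
    intro n
    induction n with
    | zero => exact fun g hg => (hHI g).1 hg
    | succ n ih => exact auxKey hI hN hC (auxDS H n) (auxDS I n) ih
  rw [auxDS_bot] at hd ⊢
  rw [Subgroup.eq_bot_iff_forall]
  intro x hx
  obtain ⟨k, hk, hxk⟩ := key d x hx
  rw [hd, Subgroup.mem_bot] at hxk
  exact htf x k hk hxk

end ConradSol
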