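import Pool.Agent.Helper277.MainThm

set_option autoImplicit false

namespace ConradSol

universe u v

lemma RC_top {G : Type u} [Group G] : RC (⊤ : Subgroup G) :=
  ⟨∅, ⟨fun x hx => absurd hx (Set.notMem_empty x), fun _ _ x hx => absurd hx (Set.notMem_empty x),
    fun _ _ x hx => absurd hx (Set.notMem_empty x), fun x hx => absurd hx (Set.notMem_empty x),
    fun x hx => absurd (Subgroup.mem_top x) hx⟩⟩

/-- isolated subgroups of torsion-free nilpotent groups are relatively convex -/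
theorem RC_of_isolated_aux
    (hI : ∀ (X : Type u) [Group X] [Group.IsNilpotent X] (H : Subgroup X),
      ∃ I : Subgroup X, ∀ g, g ∈ I ↔ ∃ k : ℕ, 1 ≤ k ∧ g ^ k ∈ H)
    (hN : ∀ (X : Type u) [Group X] [Group.IsNilpotent X] (B : Subgroup X),
      (∀ (g : X) (k : ℕ), 1 ≤ k → g ^ k ∈ B → g ∈ B) → ∀ (x : X) (k : ℕ), 1 ≤ k →
      (∀ b ∈ B, x ^ k * b * (x ^ k)⁻¹ ∈ B ∧ (x ^ k)⁻¹ * b * x ^ k ∈ B) →
      ∀ b ∈ B, x * b * x⁻¹ ∈ B ∧ x⁻¹ * b * x ∈ B)
    {M : Type u} [Group M] [Group.IsNilpotent M]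
    (htf : ∀ (x : M) (n : ℕ), 1 ≤ n → x ^ n = 1 → x = 1) (B : Subgroup M)
    (hB : ∀ (g : M) (k : ℕ), 1 ≤ k → g ^ k ∈ B → g ∈ B) : RC B := by
  revert htf B
  refine Group.nilpotent_center_quotient_ind
    (P := fun M _ _ => (∀ (x : M) (n : ℕ), 1 ≤ n → x ^ n = 1 → x = 1) → ∀ B : Subgroup M,
      (∀ (g : M) (k : ℕ), 1 ≤ k → g ^ k ∈ B → g ∈ B) → RC B) M ?_ ?_
  · intro M _ _ _ B _
    have : B = ⊤ := by
      ext x
      rw [Subsingleton.elim x 1]
      simp [B.one_mem]
    rw [this]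
    exact RC_top
  · intro M _ _ ih htf B hB
    have hq : ∀ (x : M ⧸ Subgroup.center M) (n : ℕ), 1 ≤ n → x ^ n = 1 → x = 1 := by
      intro q n hn hq
      obtain ⟨x, rfl⟩ := QuotientGroup.mk_surjective q
      rw [← QuotientGroup.mk_pow, QuotientGroup.eq_one_iff] at hq
      rw [QuotientGroup.eq_one_iff]
      exact j10_quot htf x n hn hq
    obtain ⟨E, hE⟩ := hI M (B ⊔ Subgroup.center M)
    have hBZE : B ⊔ Subgroup.center M ≤ E := by
      intro x hx
      rw [hE]
      exact ⟨1, le_rfl, by rwa [pow_one]⟩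
    have hZE : Subgroup.center M ≤ E := le_trans le_sup_right hBZE
    have hBE : B ≤ E := le_trans le_sup_left hBZE
    have hEiso : ∀ (g : M) (k : ℕ), 1 ≤ k → g ^ k ∈ E → g ∈ E := by
      intro g k hk hg
      rw [hE] at hg ⊢
      obtain ⟨l, hl, hg⟩ := hg
      exact ⟨k * l, Nat.mul_pos hk hl, by rwa [pow_mul]⟩
    have hmem : ∀ g : M, ((g : M ⧸ Subgroup.center M) ∈
        E.map (QuotientGroup.mk' (Subgroup.center M))) ↔ g ∈ E := by
      intro g
      constructor
      · rintro ⟨y, hy, hxy⟩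
        have h1 : (y : M ⧸ Subgroup.center M) = (g : M ⧸ Subgroup.center M) := hxy
        rw [QuotientGroup.eq] at h1
        have h2 := E.mul_mem hy (hZE h1)
        rwa [mul_inv_cancel_left] at h2
      · intro hg
        exact ⟨g, hg, rfl⟩
    have hRCE' := ih hq (E.map (QuotientGroup.mk' (Subgroup.center M))) (by
      intro q k hk hq
      obtain ⟨g, rfl⟩ := QuotientGroup.mk_surjective q
      rw [← QuotientGroup.mk_pow, hmem] at hq
      rw [hmem]
      exact hEiso g k hk hq)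
    have hRCE : RC E := by
      have h1 := RC.comap (QuotientGroup.mk' (Subgroup.center M)) _ hRCE'
      have h2 : (E.map (QuotientGroup.mk' (Subgroup.center M))).comap
          (QuotientGroup.mk' (Subgroup.center M)) = E := by
        ext g
        exact hmem g
      rwa [h2] at h1
    -- `B` is normal in `E`
    have hconj : ∀ g ∈ E, ∀ b ∈ B, g * b * g⁻¹ ∈ B ∧ g⁻¹ * b * g ∈ B := by
      intro g hg
      obtain ⟨k, hk, hgk⟩ := (hE g).mp hg
      refine hN M B hB g k hk ?_
      intro b hb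
      rw [Subgroup.mem_sup_of_normal_right] at hgk
      obtain ⟨y, hy, z, hz, hyz⟩ := hgk
      rw [Subgroup.mem_center_iff] at hz
      rw [← hyz]
      constructor
      · have h1 : y * z * b * (y * z)⁻¹ = y * b * y⁻¹ := by
          calc y * z * b * (y * z)⁻¹ = y * (z * b) * z⁻¹ * y⁻¹ := by group
            _ = y * (b * z) * z⁻¹ * y⁻¹ := by rw [hz b]
            _ = y * b * y⁻¹ := by group
        rw [h1]
        exact B.mul_mem (B.mul_mem hy hb) (B.inv_mem hy)
      · have h1 : (y * z)⁻¹ * b * (y * z) = y⁻¹ * b * y := by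
          calc (y * z)⁻¹ * b * (y * z) = z⁻¹ * ((y⁻¹ * b * y) * z) := by group
            _ = z⁻¹ * (z * (y⁻¹ * b * y)) := by rw [hz (y⁻¹ * b * y)]
            _ = y⁻¹ * b * y := by group
        rw [h1]
        exact B.mul_mem (B.mul_mem (B.inv_mem hy) hb) hy
    have hBn : (B.subgroupOf E).Normal := by
      refine ⟨fun b hb g => ?_⟩
      rw [Subgroup.mem_subgroupOf] at hb ⊢
      exact (hconj g g.2 b hb).1
    have hord : Orderable (E ⧸ B.subgroupOf E) := by
      refine orderable_of_nilpotent ?_ exists_cone_ab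
      intro q n hn hq
      obtain ⟨x, rfl⟩ := QuotientGroup.mk_surjective q
      rw [← QuotientGroup.mk_pow, QuotientGroup.eq_one_iff, Subgroup.mem_subgroupOf] at hq
      rw [QuotientGroup.eq_one_iff, Subgroup.mem_subgroupOf]
      exact hB x n hn hq
    obtain ⟨Q, hQ⟩ := hord
    have h1 : RC (B.subgroupOf E) := ⟨_, isRC_quot _ hQ.toCone⟩
    have h2 := RC.trans hRCE h1
    have h3 : (B.subgroupOf E).map E.subtype = B := by
      rw [Subgroup.subgroupOf_map_subtype]
      exact inf_eq_left.mpr hBE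
    rwa [h3] at h2

end ConradSol
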