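import Pool.Agent.Helper277.Basic

set_option autoImplicit false

namespace ConradSol

universe u v

lemma Cone.inv_pow_mem {G : Type*} [Group G] {P : Set G} (hP : Cone P) {x : G} {n : ℕ}
    (hn : 1 ≤ n) (h : x ^ n ∈ P) : x ∈ P := by
  rcases hP.trich x with h1 | h1 | h1
  · exact h1
  · rw [h1, one_pow] at h; exact absurd h hP.one_not_mem
  · have := hP.pow_mem h1 hn
    rw [inv_pow] at this
    exact absurd this (hP.inv_not_mem h)

theorem Orderable.subgroup {G : Type u} [Group G] (h : Orderable G) (H : Subgroup G) :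
    Orderable H := by
  obtain ⟨P, hP⟩ := h
  refine ⟨{x | (x : G) ∈ P}, ⟨⟨?_, ?_, ?_⟩, ?_⟩⟩
  · intro x hx y hy
    exact hP.mul_mem _ hx _ hy
  · intro hx
    exact hP.one_not_mem hx
  · intro x hx
    exact hP.total x (fun h => hx (Subtype.ext h))
  · intro g x hx
    exact hP.conj_mem _ _ hx

theorem AllConrad.of_RC {G : Type u} [Group G] (h : AllConrad G) (H : Subgroup G) (hH : RC H) :
    AllConrad H := by
  intro Q hQ
  obtain ⟨R, hR⟩ := hH
  have hC : Cone {x : G | x ∈ R ∨ ∃ y : H, y ∈ Q ∧ (y : G) = x} := by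
    refine ⟨?_, ?_, ?_⟩
    · rintro x (hx | ⟨x', hx', rfl⟩) y (hy | ⟨y', hy', rfl⟩)
      · exact Or.inl (hR.mul_mem _ hx _ hy)
      · exact Or.inl (hR.right_mem _ y'.2 _ hx)
      · exact Or.inl (hR.left_mem _ x'.2 _ hy)
      · exact Or.inr ⟨x' * y', hQ.mul_mem _ hx' _ hy', rfl⟩
    · rintro (hx | ⟨y, hy, hy1⟩)
      · exact hR.not_mem _ hx H.one_mem
      · have : y = 1 := Subtype.ext hy1
        exact hQ.one_not_mem (this ▸ hy)
    · intro x hx
      by_cases hxH : x ∈ H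
      · rcases hQ.total ⟨x, hxH⟩ (fun h => hx (congrArg Subtype.val h)) with h1 | h1
        · exact Or.inl (Or.inr ⟨_, h1, rfl⟩)
        · exact Or.inr (Or.inr ⟨_, h1, rfl⟩)
      · rcases hR.total x hxH with h1 | h1
        · exact Or.inl (Or.inl h1)
        · exact Or.inr (Or.inl h1)
  intro f g hf hg
  obtain ⟨m, hm, h1 | ⟨y, hy, hy1⟩⟩ := h _ hC (f : G) (g : G) (Or.inr ⟨f, hf, rfl⟩)
    (Or.inr ⟨g * f⁻¹, hg, rfl⟩)
  · exfalso
    refine hR.not_mem _ h1 ?_
    exact H.mul_mem (H.mul_mem (H.mul_mem f.2 (H.pow_mem g.2 m)) (H.inv_mem f.2)) (H.inv_mem g.2)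
  · refine ⟨m, hm, ?_⟩
    have : y = f * g ^ m * f⁻¹ * g⁻¹ := Subtype.ext hy1
    rwa [← this]

/-- J13 -/
theorem OX.of_RC {G : Type u} [Group G] (h : OX G) (H : Subgroup G) (hH : RC H) : OX H :=
  ⟨h.1.subgroup H, h.2.of_RC H hH⟩

/-- J14 -/
theorem OX.quotient {G : Type u} [Group G] (h : OX G) (N : Subgroup G) [N.Normal]
    (hN : Orderable (G ⧸ N)) : OX (G ⧸ N) := by
  refine ⟨hN, ?_⟩
  intro Q hQ
  obtain ⟨P, hP⟩ := h.1
  have hC : Cone {x : G | (x : G ⧸ N) ∈ Q ∨ (x ∈ N ∧ x ∈ P)} := by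
    refine ⟨?_, ?_, ?_⟩
    · rintro x (hx | ⟨hx, hx'⟩) y (hy | ⟨hy, hy'⟩)
      · exact Or.inl (hQ.mul_mem _ hx _ hy)
      · left
        have : ((x * y : G) : G ⧸ N) = (x : G ⧸ N) := by
          rw [QuotientGroup.mk_mul, (QuotientGroup.eq_one_iff y).mpr hy, mul_one]
        rw [this]; exact hx
      · left
        have : ((x * y : G) : G ⧸ N) = (y : G ⧸ N) := by
          rw [QuotientGroup.mk_mul, (QuotientGroup.eq_one_iff x).mpr hx, one_mul]
        rw [this]; exact hy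
      · exact Or.inr ⟨N.mul_mem hx hy, hP.mul_mem _ hx' _ hy'⟩
    · rintro (hx | ⟨hx, hx'⟩)
      · exact hQ.one_not_mem hx
      · exact hP.one_not_mem hx'
    · intro x hx
      by_cases hxN : x ∈ N
      · rcases hP.total x hx with h1 | h1
        · exact Or.inl (Or.inr ⟨hxN, h1⟩)
        · exact Or.inr (Or.inr ⟨N.inv_mem hxN, h1⟩)
      · have : (x : G ⧸ N) ≠ 1 := fun h => hxN ((QuotientGroup.eq_one_iff x).mp h)
        rcases hQ.total _ this with h1 | h1
        · exact Or.inl (Or.inl h1)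
        · exact Or.inr (Or.inl h1)
  intro f g hf hg
  obtain ⟨f, rfl⟩ := QuotientGroup.mk_surjective f
  obtain ⟨g, rfl⟩ := QuotientGroup.mk_surjective g
  obtain ⟨m, hm, h1 | ⟨h1, -⟩⟩ := h.2 _ hC f g (Or.inl hf) (Or.inl hg)
  · exact ⟨m, hm, h1⟩
  · refine ⟨m + 1, by omega, ?_⟩
    have h2 : (f : G ⧸ N) * (g : G ⧸ N) ^ m * (f : G ⧸ N)⁻¹ = (g : G ⧸ N) := by
      have := (QuotientGroup.eq_one_iff _).mpr h1
      rw [QuotientGroup.mk_mul, QuotientGroup.mk_mul, QuotientGroup.mk_mul, QuotientGroup.mk_pow,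
        QuotientGroup.mk_inv, QuotientGroup.mk_inv] at this
      exact mul_inv_eq_one.mp this
    set a : G ⧸ N := (f : G ⧸ N)
    set b : G ⧸ N := (g : G ⧸ N)
    have h3 : (a * b * a⁻¹) ^ m = b := by
      rw [conj_pow]; exact h2
    have hb : b ∈ Q := by
      have := hQ.mul_mem _ hg _ hf
      rwa [inv_mul_cancel_right] at this
    have h4 : a * b * a⁻¹ ∈ Q := hQ.inv_pow_mem hm (by rw [h3]; exact hb)
    have h5 : a * b ^ (m + 1) * a⁻¹ * b⁻¹ = a * b * a⁻¹ := by
      rw [← conj_pow, pow_succ', h3, mul_inv_cancel_right]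
    rw [h5]; exact h4

theorem Orderable.equiv {G : Type u} {G' : Type v} [Group G] [Group G'] (h : Orderable G)
    (e : G ≃* G') : Orderable G' := by
  obtain ⟨P, hP⟩ := h
  refine ⟨{x | e.symm x ∈ P}, ⟨⟨?_, ?_, ?_⟩, ?_⟩⟩
  · intro x hx y hy
    simpa using hP.mul_mem _ hx _ hy
  · simpa using hP.one_not_mem
  · intro x hx
    simpa using hP.total (e.symm x) (by simpa using hx)
  · intro g x hx
    simpa using hP.conj_mem (e.symm g) _ hx

theorem AllConrad.equiv {G : Type u} {G' : Type v} [Group G] [Group G'] (h : AllConrad G)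
    (e : G ≃* G') : AllConrad G' := by
  intro P hP
  have hC : Cone {x : G | e x ∈ P} := by
    refine ⟨?_, ?_, ?_⟩
    · intro x hx y hy
      simpa using hP.mul_mem _ hx _ hy
    · simpa using hP.one_not_mem
    · intro x hx
      simpa using hP.total (e x) (by simpa using hx)
  intro f g hf hg
  obtain ⟨m, hm, h1⟩ := h _ hC (e.symm f) (e.symm g) (by simpa using hf) (by simpa using hg)
  exact ⟨m, hm, by simpa using h1⟩

theorem OX.equiv {G : Type u} {G' : Type v} [Group G] [Group G'] (h : OX G) (e : G ≃* G') :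
    OX G' := ⟨h.1.equiv e, h.2.equiv e⟩

/-- injective homs pull back orders -/
theorem Orderable.of_injective {G : Type u} {G' : Type v} [Group G] [Group G'] (h : Orderable G')
    (f : G →* G') (hf : Function.Injective f) : Orderable G := by
  obtain ⟨P, hP⟩ := h
  refine ⟨{x | f x ∈ P}, ⟨⟨?_, ?_, ?_⟩, ?_⟩⟩
  · intro x hx y hy
    simpa using hP.mul_mem _ hx _ hy
  · simpa using hP.one_not_mem
  · intro x hx
    simpa using hP.total (f x) (fun h => hx (hf (by rw [h, map_one])))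
  · intro g x hx
    simpa using hP.conj_mem (f g) _ hx

end ConradSol
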