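import Pool.Agent.Helper277.Pair

set_option autoImplicit false

namespace ConradSol

universe u v

lemma RC.isolated {G : Type u} [Group G] {R : Subgroup G} (hR : RC R) {g : G} {n : ℕ}
    (hn : 0 < n) (hg : g ^ n ∈ R) : g ∈ R := by
  obtain ⟨P, hP⟩ := hR
  have hpow : ∀ x ∈ P, ∀ k : ℕ, x ^ (k + 1) ∈ P := by
    intro x hx k
    induction k with
    | zero => simpa using hx
    | succ k ih => rw [pow_succ]; exact hP.mul_mem _ ih _ hx
  obtain ⟨k, rfl⟩ : ∃ k, n = k + 1 := ⟨n - 1, by omega⟩
  by_contra hgR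
  rcases hP.total g hgR with h | h
  · exact hP.not_mem _ (hpow g h k) hg
  · refine hP.not_mem _ (hpow _ h k) ?_
    rw [inv_pow]
    exact R.inv_mem hg

/-- the smallest relatively convex subgroup containing a set -/
def hull {G : Type u} [Group G] (S : Set G) : Subgroup G :=
  ⨅ R : {R : Subgroup G // RC R ∧ S ⊆ R}, R.1

lemma RC_hull {G : Type u} [Group G] (S : Set G) : RC (hull S) :=
  RC.iInf _ (fun R => R.2.1)

lemma subset_hull {G : Type u} [Group G] (S : Set G) : S ⊆ hull S := by
  intro x hx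
  rw [SetLike.mem_coe, hull, Subgroup.mem_iInf]
  exact fun R => R.2.2 hx

lemma hull_le {G : Type u} [Group G] {S : Set G} {R : Subgroup G} (hR : RC R) (h : S ⊆ R) :
    hull S ≤ R :=
  iInf_le (fun R : {R : Subgroup G // RC R ∧ S ⊆ R} => R.1) ⟨R, hR, h⟩

lemma hull_mono {G : Type u} [Group G] {S T : Set G} (h : S ⊆ T) : hull S ≤ hull T :=
  hull_le (RC_hull T) (h.trans (subset_hull T))

/-- if the isolator of a locally nilpotent subgroup of an `OX` group is the whole group, the
group is locally nilpotent -/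
theorem locally_nilpotent_of_isolator {G : Type u} [Group G] (hG : OX G) (H : Subgroup G)
    (hH : ∀ K : Subgroup G, K.FG → K ≤ H → Group.IsNilpotent K)
    (hI : ∀ I : Subgroup G, H ≤ I → (∀ (g : G) (n : ℕ), 0 < n → g ^ n ∈ I → g ∈ I) → I = ⊤)
    (K : Subgroup G) (hK : K.FG) : Group.IsNilpotent K := by
  classical
  let Λ : Subgroup G :=
    { carrier := {g | ∃ S : Finset G, (∀ s ∈ S, s ∈ H) ∧ g ∈ hull (S : Set G)}
      mul_mem' := by
        rintro a b ⟨S, hS, ha⟩ ⟨T, hT, hb⟩
        refine ⟨S ∪ T, ?_, ?_⟩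
        · intro s hs
          rcases Finset.mem_union.mp hs with h | h
          · exact hS s h
          · exact hT s h
        · refine mul_mem (hull_mono ?_ ha) (hull_mono ?_ hb)
          · intro x hx
            simp only [Finset.coe_union, Set.mem_union]
            exact Or.inl hx
          · intro x hx
            simp only [Finset.coe_union, Set.mem_union]
            exact Or.inr hx
      one_mem' := ⟨∅, by simp, one_mem _⟩
      inv_mem' := by
        rintro a ⟨S, hS, ha⟩
        exact ⟨S, hS, inv_mem ha⟩ }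
  have hΛ : Λ = ⊤ := by
    refine hI Λ ?_ ?_
    · intro h hh
      refine ⟨{h}, ?_, subset_hull _ (by simp)⟩
      intro s hs
      rw [Finset.mem_singleton] at hs
      rwa [hs]
    · rintro g n hn ⟨S, hS, hg⟩
      exact ⟨S, hS, (RC_hull _).isolated hn hg⟩
  obtain ⟨T, hT⟩ := hK
  have hex : ∀ t : G, ∃ S : Finset G, (∀ s ∈ S, s ∈ H) ∧ t ∈ hull (S : Set G) := by
    intro t
    have : t ∈ Λ := by rw [hΛ]; exact Subgroup.mem_top t
    exact this
  choose S hS1 hS2 using hex
  let U : Finset G := T.biUnion S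
  have hUH : ∀ s ∈ U, s ∈ H := by
    intro s hs
    obtain ⟨t, _, h⟩ := Finset.mem_biUnion.mp hs
    exact hS1 t s h
  let F : Subgroup G := Subgroup.closure (U : Set G)
  have hFH : F ≤ H := (Subgroup.closure_le H).mpr hUH
  have hFnil : Group.IsNilpotent F := hH F ⟨U, rfl⟩ hFH
  obtain ⟨L, hL1, hL2, hL3⟩ := exists_nilpotent_RC F G hG F.subtype
  have hUL : (U : Set G) ⊆ L := by
    intro x hx
    exact hL3 ⟨⟨x, Subgroup.subset_closure hx⟩, rfl⟩
  have hKL : K ≤ L := by
    rw [← hT, Subgroup.closure_le]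
    intro t ht
    refine hull_le hL1 hUL (hull_mono ?_ (hS2 t))
    intro x hx
    exact Finset.mem_coe.mpr (Finset.mem_biUnion.mpr ⟨t, ht, hx⟩)
  refine Subgroup.isNilpotent_of_ker_le_center (Subgroup.inclusion hKL) ?_
  intro x hx
  have h1 : x = 1 := Subgroup.inclusion_injective hKL (by rw [map_one]; exact hx)
  rw [h1]
  exact one_mem _

end ConradSol
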