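import Pool.Agent.Helper277.Inherit

set_option autoImplicit false

namespace ConradSol

universe u v




section ord17

/-- a cone on the elements that are central modulo `N` -/
structure RelQ {G : Type*} [Group G] (N : Subgroup G) (Q : Set G) : Prop where
  mul_mem : ∀ g ∈ Q, ∀ h ∈ Q, g * h ∈ Q
  not_mem : ∀ g ∈ Q, g ∉ N
  mul_N : ∀ g ∈ Q, ∀ n ∈ N, g * n ∈ Q
  total : ∀ g, g ∉ N → (∀ x, x * g * x⁻¹ * g⁻¹ ∈ N) → g ∈ Q ∨ g⁻¹ ∈ Q

lemma exists_relQ {G : Type u} [Group G]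
    (hab : ∀ (A : Type u) [Group A], (∀ a b : A, a * b = b * a) →
      (∀ (a : A) (n : ℕ), 1 ≤ n → a ^ n = 1 → a = 1) → ∃ Q : Set A, BiCone Q)
    (N : Subgroup G) [N.Normal] (hiso : ∀ g : G, ∀ n : ℕ, 1 ≤ n → g ^ n ∈ N → g ∈ N) :
    ∃ Q : Set G, RelQ N Q := by
  obtain ⟨Q', hQ'⟩ := hab (Subgroup.center (G ⧸ N)) (by
    intro a b
    exact Subtype.ext ((Subgroup.mem_center_iff.1 b.2 a.1))) (by
    rintro ⟨a, ha⟩ n hn h
    obtain ⟨g, rfl⟩ := QuotientGroup.mk_surjective a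
    have h1 : ((g : G ⧸ N)) ^ n = 1 := congrArg Subtype.val h
    have h2 : ((g ^ n : G) : G ⧸ N) = 1 := by rw [QuotientGroup.mk_pow]; exact h1
    have h3 := hiso g n hn ((QuotientGroup.eq_one_iff _).1 h2)
    exact Subtype.ext ((QuotientGroup.eq_one_iff _).2 h3))
  refine ⟨{g | ∃ h : (g : G ⧸ N) ∈ Subgroup.center (G ⧸ N), (⟨(g : G ⧸ N), h⟩ : Subgroup.center (G ⧸ N)) ∈ Q'}, ?_, ?_, ?_, ?_⟩
  · rintro g ⟨hg, hgQ⟩ h ⟨hh, hhQ⟩
    refine ⟨?_, ?_⟩
    · rw [QuotientGroup.mk_mul]; exact mul_mem hg hh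
    · exact hQ'.mul_mem _ hgQ _ hhQ
  · rintro g ⟨hg, hgQ⟩ hN
    refine hQ'.one_not_mem ?_
    have : (⟨(g : G ⧸ N), hg⟩ : Subgroup.center (G ⧸ N)) = 1 :=
      Subtype.ext ((QuotientGroup.eq_one_iff _).2 hN)
    rwa [this] at hgQ
  · rintro g ⟨hg, hgQ⟩ n hn
    have e : ((g * n : G) : G ⧸ N) = (g : G ⧸ N) := by
      rw [QuotientGroup.mk_mul, (QuotientGroup.eq_one_iff n).2 hn, mul_one]
    refine ⟨by rw [e]; exact hg, ?_⟩
    have : (⟨((g * n : G) : G ⧸ N), by rw [e]; exact hg⟩ : Subgroup.center (G ⧸ N)) = ⟨(g : G ⧸ N), hg⟩ :=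
      Subtype.ext e
    rw [this]
    exact hgQ
  · intro g hgN hgc
    have hc : (g : G ⧸ N) ∈ Subgroup.center (G ⧸ N) := by
      rw [Subgroup.mem_center_iff]
      intro q
      obtain ⟨x, rfl⟩ := QuotientGroup.mk_surjective q
      have h1 : ((x * g * x⁻¹ * g⁻¹ : G) : G ⧸ N) = 1 := (QuotientGroup.eq_one_iff _).2 (hgc x)
      rw [QuotientGroup.mk_mul, QuotientGroup.mk_mul, QuotientGroup.mk_mul, QuotientGroup.mk_inv,
        QuotientGroup.mk_inv, mul_inv_eq_one, mul_inv_eq_iff_eq_mul] at h1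
      exact h1
    rcases hQ'.total ⟨(g : G ⧸ N), hc⟩ (by
      intro h
      exact hgN ((QuotientGroup.eq_one_iff _).1 (congrArg Subtype.val h))) with h | h
    · exact Or.inl ⟨hc, h⟩
    · refine Or.inr ⟨?_, h⟩
      rw [QuotientGroup.mk_inv]
      exact inv_mem hc

lemma orderable_of_chain {G : Type u} [Group G]
    (hab : ∀ (A : Type u) [Group A], (∀ a b : A, a * b = b * a) →
      (∀ (a : A) (n : ℕ), 1 ≤ n → a ^ n = 1 → a = 1) → ∃ Q : Set A, BiCone Q)
    (F : Set (Subgroup G)) (hn : ∀ I ∈ F, I.Normal) (hchain : ∀ I ∈ F, ∀ J ∈ F, I ≤ J ∨ J ≤ I)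
    (hZ : ∀ I ∈ F, Subgroup.center G ≤ I)
    (hiso : ∀ I ∈ F, ∀ g : G, ∀ n : ℕ, 1 ≤ n → g ^ n ∈ I → g ∈ I)
    (hkey : ∀ g, g ∉ Subgroup.center G → ∀ x, ∃ I ∈ F, g ∉ I ∧ x * g * x⁻¹ * g⁻¹ ∈ I) :
    Orderable (G ⧸ Subgroup.center G) := by
  classical
  set Z := Subgroup.center G with hZdef
  -- the subgroups N g
  set N : G → Subgroup G := fun g => sSup {I | I ∈ F ∧ g ∉ I} with hN
  have hSne : ∀ g, g ∉ Z → {I | I ∈ F ∧ g ∉ I}.Nonempty := by
    intro g hg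
    obtain ⟨I, hI, h1, -⟩ := hkey g hg 1
    exact ⟨I, hI, h1⟩
  have hmem : ∀ g, g ∉ Z → ∀ x, x ∈ N g ↔ ∃ I ∈ F, g ∉ I ∧ x ∈ I := by
    intro g hg x
    have hdir : DirectedOn (· ≤ ·) {I | I ∈ F ∧ g ∉ I} := by
      rintro I ⟨hI, hgI⟩ J ⟨hJ, hgJ⟩
      rcases hchain I hI J hJ with h | h
      · exact ⟨J, ⟨hJ, hgJ⟩, h, le_rfl⟩
      · exact ⟨I, ⟨hI, hgI⟩, le_rfl, h⟩
    rw [hN]
    simp only
    rw [Subgroup.mem_sSup_of_directedOn (hSne g hg) hdir]
    constructor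
    · rintro ⟨I, ⟨h1, h2⟩, h3⟩; exact ⟨I, h1, h2, h3⟩
    · rintro ⟨I, h1, h2, h3⟩; exact ⟨I, ⟨h1, h2⟩, h3⟩
  have hNnormal : ∀ g, g ∉ Z → (N g).Normal := by
    intro g hg
    refine ⟨fun n hn' x => ?_⟩
    rw [hmem g hg] at hn' ⊢
    obtain ⟨I, h1, h2, h3⟩ := hn'
    exact ⟨I, h1, h2, (hn I h1).conj_mem n h3 x⟩
  have hNiso : ∀ g, g ∉ Z → ∀ x : G, ∀ n : ℕ, 1 ≤ n → x ^ n ∈ N g → x ∈ N g := by
    intro g hg x n hn1 hx
    rw [hmem g hg] at hx ⊢
    obtain ⟨I, h1, h2, h3⟩ := hx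
    exact ⟨I, h1, h2, hiso I h1 x n hn1 h3⟩
  have hNself : ∀ g, g ∉ Z → g ∉ N g := by
    intro g hg h
    rw [hmem g hg] at h
    obtain ⟨I, h1, h2, h3⟩ := h
    exact h2 h3
  have hNle : ∀ g I, I ∈ F → g ∉ I → I ≤ N g := by
    intro g I h1 h2
    exact le_sSup ⟨h1, h2⟩
  have hNcent : ∀ g, g ∉ Z → ∀ x, x * g * x⁻¹ * g⁻¹ ∈ N g := by
    intro g hg x
    obtain ⟨I, h1, h2, h3⟩ := hkey g hg x
    exact hNle g I h1 h2 h3
  have hZN : ∀ g, g ∉ Z → Z ≤ N g := by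
    intro g hg
    obtain ⟨I, h1, h2⟩ := hSne g hg
    exact (hZ I h1).trans (hNle g I h1 h2)
  have hNcongr : ∀ g h, (∀ I ∈ F, g ∉ I ↔ h ∉ I) → N g = N h := by
    intro g h hgh
    rw [hN]
    simp only
    congr 1
    ext I
    constructor
    · rintro ⟨h1, h2⟩; exact ⟨h1, (hgh I h1).1 h2⟩
    · rintro ⟨h1, h2⟩; exact ⟨h1, (hgh I h1).2 h2⟩
  have hQex : ∀ M : Subgroup G, ∃ Q : Set G, M.Normal → (∀ g : G, ∀ n : ℕ, 1 ≤ n → g ^ n ∈ M → g ∈ M) →
      RelQ M Q := by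
    intro M
    by_cases h1 : M.Normal
    · by_cases h2 : (∀ g : G, ∀ n : ℕ, 1 ≤ n → g ^ n ∈ M → g ∈ M)
      · obtain ⟨Q, hQ⟩ := exists_relQ hab M h2
        exact ⟨Q, fun _ _ => hQ⟩
      · exact ⟨∅, fun _ h => absurd h h2⟩
    · exact ⟨∅, fun h => absurd h h1⟩
  choose Q hQ using hQex
  have hQN : ∀ g, g ∉ Z → RelQ (N g) (Q (N g)) := fun g hg => hQ _ (hNnormal g hg) (hNiso g hg)
  have hcongrQ : ∀ g, g ∉ Z → ∀ x ∈ Q (N g), ∀ y, x⁻¹ * y ∈ N g → y ∈ Q (N g) := by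
    intro g hg x hx y hy
    have := (hQN g hg).mul_N x hx _ hy
    rwa [mul_inv_cancel_left] at this
  set Pos : Set G := {g | g ∉ Z ∧ g ∈ Q (N g)} with hPos
  have hZmul : ∀ g, ∀ z ∈ Z, g * z ∉ Z → g ∉ Z := by
    intro g z hz h1 h2
    exact h1 (mul_mem h2 hz)
  -- invariance modulo Z
  have hPosZ : ∀ g ∈ Pos, ∀ z ∈ Z, g * z ∈ Pos := by
    rintro g ⟨hg, hgQ⟩ z hz
    have h1 : g * z ∉ Z := by
      intro h
      have := mul_mem h (inv_mem hz)
      rw [mul_inv_cancel_right] at this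
      exact hg this
    have h2 : N (g * z) = N g := by
      apply hNcongr
      intro I hI
      have hzI := hZ I hI hz
      exact not_congr (Subgroup.mul_mem_cancel_right I hzI)
    refine ⟨h1, ?_⟩
    rw [h2]
    exact (hQN g hg).mul_N g hgQ z (hZN g hg hz)
  have hPosInv : ∀ g, g ∉ Z → g ∈ Pos ∨ g⁻¹ ∈ Pos := by
    intro g hg
    have h1 : g⁻¹ ∉ Z := fun h => hg (by simpa using inv_mem h)
    have h2 : N g⁻¹ = N g := by
      apply hNcongr
      intro I hI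
      exact not_congr (Subgroup.inv_mem_iff I)
    rcases (hQN g hg).total g (hNself g hg) (hNcent g hg) with h | h
    · exact Or.inl ⟨hg, h⟩
    · refine Or.inr ⟨h1, ?_⟩
      rw [h2]
      exact h
  have hPosConj : ∀ g ∈ Pos, ∀ x, x * g * x⁻¹ ∈ Pos := by
    rintro g ⟨hg, hgQ⟩ x
    have h1 : x * g * x⁻¹ ∉ Z := by
      intro h
      have := (inferInstance : (Subgroup.center G).Normal).conj_mem _ h x⁻¹
      apply hg
      rw [show x⁻¹ * (x * g * x⁻¹) * x⁻¹⁻¹ = g by group] at this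
      exact this
    have h2 : N (x * g * x⁻¹) = N g := by
      apply hNcongr
      intro I hI
      have hIn := hn I hI
      refine not_congr ⟨fun h => ?_, fun h => hIn.conj_mem g h x⟩
      have := hIn.conj_mem _ h x⁻¹
      rwa [show x⁻¹ * (x * g * x⁻¹) * x⁻¹⁻¹ = g by group] at this
    refine ⟨h1, ?_⟩
    rw [h2]
    refine hcongrQ g hg g hgQ _ ?_
    have h3 := hNcent g hg x
    have h4 := (hNnormal g hg).conj_mem _ h3 g⁻¹
    rwa [show g⁻¹ * (x * g * x⁻¹ * g⁻¹) * g⁻¹⁻¹ = g⁻¹ * (x * g * x⁻¹) by group] at h4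
  have hPosMul : ∀ g ∈ Pos, ∀ h ∈ Pos, g * h ∈ Pos := by
    rintro g ⟨hg, hgQ⟩ h ⟨hh, hhQ⟩
    by_cases hcase : ∀ I ∈ F, g ∉ I ↔ h ∉ I
    · have h1 := hNcongr g h hcase
      rw [← h1] at hhQ
      have h2 := (hQN g hg).mul_mem g hgQ h hhQ
      have h3 := (hQN g hg).not_mem _ h2
      have h4 : N (g * h) = N g := by
        apply hNcongr
        intro I hI
        constructor
        · intro h5 h6
          have h7 : h ∈ I := by
            by_contra h8
            exact ((hcase I hI).2 h8) h6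
          exact h5 (mul_mem h6 h7)
        · intro h5 h6
          exact h3 (hNle g I hI h5 h6)
      refine ⟨fun h5 => h3 (hZN g hg h5), ?_⟩
      rw [h4]
      exact h2
    · simp only [not_forall] at hcase
      obtain ⟨I, hI, hne⟩ := hcase
      by_cases hgI : g ∈ I
      · have hhI : h ∉ I := by
          intro h5
          exact hne ⟨fun h6 => absurd hgI h6, fun h6 => absurd h5 h6⟩
        have h1 : ∀ J ∈ F, g * h ∉ J ↔ h ∉ J := by
          intro J hJ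
          constructor
          · intro h2 h3
            rcases hchain I hI J hJ with h4 | h4
            · exact h2 (mul_mem (h4 hgI) h3)
            · exact hhI (h4 h3)
          · intro h2 h3
            rcases hchain I hI J hJ with h4 | h4
            · exact h2 ((Subgroup.mul_mem_cancel_left J (h4 hgI)).1 h3)
            · exact hhI ((Subgroup.mul_mem_cancel_left I hgI).1 (h4 h3))
        have h2 := hNcongr _ _ h1
        have h3 : g ∈ N h := hNle h I hI hhI hgI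
        refine ⟨?_, ?_⟩
        · intro h4
          exact ((h1 I hI).2 hhI) (hZ I hI h4)
        · rw [h2]
          refine hcongrQ h hh h hhQ _ ?_
          have := (hNnormal h hh).conj_mem g h3 h⁻¹
          rwa [inv_inv, mul_assoc] at this
      · have hhI : h ∈ I := by
          by_contra h5
          exact hne ⟨fun _ => h5, fun _ => hgI⟩
        have h1 : ∀ J ∈ F, g * h ∉ J ↔ g ∉ J := by
          intro J hJ
          constructor
          · intro h2 h3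
            rcases hchain I hI J hJ with h4 | h4
            · exact h2 (mul_mem h3 (h4 hhI))
            · exact hgI (h4 h3)
          · intro h2 h3
            rcases hchain I hI J hJ with h4 | h4
            · exact h2 ((Subgroup.mul_mem_cancel_right J (h4 hhI)).1 h3)
            · exact hgI ((Subgroup.mul_mem_cancel_right I hhI).1 (h4 h3))
        have h2 := hNcongr _ _ h1
        have h3 : h ∈ N g := hNle g I hI hgI hhI
        refine ⟨?_, ?_⟩
        · intro h4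
          exact ((h1 I hI).2 hgI) (hZ I hI h4)
        · rw [h2]
          exact (hQN g hg).mul_N g hgQ h h3
  have hPosNe : ∀ g ∈ Pos, g ∉ Z := fun g hg => hg.1
  refine ⟨{q | ∃ g ∈ Pos, (g : G ⧸ Z) = q}, ⟨⟨?_, ?_, ?_⟩, ?_⟩⟩
  · rintro _ ⟨g, hg, rfl⟩ _ ⟨h, hh, rfl⟩
    exact ⟨g * h, hPosMul g hg h hh, rfl⟩
  · rintro ⟨g, hg, h1⟩
    exact hg.1 ((QuotientGroup.eq_one_iff g).1 h1)
  · intro q hq
    obtain ⟨g, rfl⟩ := QuotientGroup.mk_surjective q
    have hg : g ∉ Z := fun h => hq ((QuotientGroup.eq_one_iff g).2 h)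
    rcases hPosInv g hg with h | h
    · exact Or.inl ⟨g, h, rfl⟩
    · exact Or.inr ⟨g⁻¹, h, rfl⟩
  · rintro q _ ⟨h, hh, rfl⟩
    obtain ⟨x, rfl⟩ := QuotientGroup.mk_surjective q
    exact ⟨x * h * x⁻¹, hPosConj h hh x, rfl⟩

end ord17

section conv17
variable {G : Type u} [Group G] {P : Set G}

/-- convex subgroup -/
def Conv (P : Set G) (U : Subgroup G) : Prop := ∀ x ∈ P, ∀ y ∈ U, y * x⁻¹ ∈ P → x ∈ U

lemma Conv.normal (hP : CentralCone P) {U : Subgroup G} (hU : Conv P U) : U.Normal := by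
  have h1 : ∀ y ∈ U, y ∈ P → ∀ g, g * y * g⁻¹ ∈ U := by
    intro y hy hyP g
    refine hU _ (hP.conj_mem g y hyP) (y * y) (mul_mem hy hy) ?_
    have := hP.central g y hyP (-1)
    rwa [show y * (g * y * g⁻¹ * y⁻¹) ^ (-1 : ℤ) = y * y * (g * y * g⁻¹)⁻¹ by group] at this
  refine ⟨fun y hy g => ?_⟩
  rcases hP.toBiCone.toCone.trich y with h | h | h
  · exact h1 y hy h g
  · rw [h]; simp
  · have := inv_mem (h1 y⁻¹ (inv_mem hy) h g)
    rwa [show (g * y⁻¹ * g⁻¹)⁻¹ = g * y * g⁻¹ by group] at this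

lemma Conv.total (hP : CentralCone P) {U W : Subgroup G} (hU : Conv P U) (hW : Conv P W) :
    U ≤ W ∨ W ≤ U := by
  by_contra hcon
  rw [not_or, SetLike.not_le_iff_exists, SetLike.not_le_iff_exists] at hcon
  obtain ⟨⟨u, huU, huW⟩, ⟨w, hwW, hwU⟩⟩ := hcon
  have hC := hP.toBiCone.toCone
  -- positive representatives
  obtain ⟨u', hu', hu'U, hu'W⟩ : ∃ u' ∈ P, u' ∈ U ∧ u' ∉ W := by
    rcases hC.trich u with h | h | h
    · exact ⟨u, h, huU, huW⟩
    · rw [h] at huW; exact absurd (one_mem W) huW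
    · exact ⟨u⁻¹, h, inv_mem huU, fun h' => huW (by simpa using inv_mem h')⟩
  obtain ⟨w', hw', hw'W, hw'U⟩ : ∃ w' ∈ P, w' ∈ W ∧ w' ∉ U := by
    rcases hC.trich w with h | h | h
    · exact ⟨w, h, hwW, hwU⟩
    · rw [h] at hwU; exact absurd (one_mem U) hwU
    · exact ⟨w⁻¹, h, inv_mem hwW, fun h' => hwU (by simpa using inv_mem h')⟩
  rcases hC.trich (u' * w'⁻¹) with h | h | h
  · exact hw'U (hU w' hw' u' hu'U h)
  · rw [mul_inv_eq_one] at h
    exact hw'U (h ▸ hu'U)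
  · rw [mul_inv_rev, inv_inv] at h
    exact hu'W (hW u' hu' w' hw'W h)

/-- commutators with powers -/
lemma comm_pow (hP : BiCone P) {x g : G} (hc : x * g * x⁻¹ * g⁻¹ ∈ P) (k : ℕ) :
    x * g ^ (k + 1) * x⁻¹ * (g ^ (k + 1))⁻¹ ∈ P ∧
      (k ≠ 0 → x * g ^ (k + 1) * x⁻¹ * (g ^ (k + 1))⁻¹ * (x * g * x⁻¹ * g⁻¹)⁻¹ ∈ P) := by
  induction k with
  | zero => exact ⟨by simpa using hc, fun h => absurd rfl h⟩
  | succ k ih =>
    have e : x * g ^ (k + 1 + 1) * x⁻¹ * (g ^ (k + 1 + 1))⁻¹ =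
        (x * g * x⁻¹ * g⁻¹) * (g * (x * g ^ (k + 1) * x⁻¹ * (g ^ (k + 1))⁻¹) * g⁻¹) := by
      rw [pow_succ' g (k + 1)]
      group
    have h1 := hP.conj_mem g _ ih.1
    refine ⟨?_, fun _ => ?_⟩
    · rw [e]
      exact hP.mul_mem _ hc _ h1
    · rw [e]
      exact hP.conj_mem _ _ h1

lemma Conv.root (hP : CentralCone P) {U : Subgroup G} (hU : Conv P U) {x g : G} {n : ℕ}
    (hn : 1 ≤ n) (h : x * g ^ n * x⁻¹ * (g ^ n)⁻¹ ∈ U) : x * g * x⁻¹ * g⁻¹ ∈ U := by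
  have hUn := hU.normal hP
  have key : ∀ x : G, x * g ^ n * x⁻¹ * (g ^ n)⁻¹ ∈ U → x * g * x⁻¹ * g⁻¹ ∈ P →
      x * g * x⁻¹ * g⁻¹ ∈ U := by
    intro x h hc
    obtain ⟨k, rfl⟩ : ∃ k, n = k + 1 := ⟨n - 1, by omega⟩
    by_cases hk : k = 0
    · subst hk
      simpa using h
    · exact hU _ hc _ h ((comm_pow hP.toBiCone hc k).2 hk)
  rcases hP.toBiCone.toCone.trich (x * g * x⁻¹ * g⁻¹) with h1 | h1 | h1
  · exact key x h h1
  · rw [h1]; exact one_mem U
  · have h2 := hP.conj_mem x⁻¹ _ h1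
    have h3 := hUn.conj_mem _ (inv_mem h) x⁻¹
    have h4 := key x⁻¹ (by
      rwa [show x⁻¹ * (x * g ^ n * x⁻¹ * (g ^ n)⁻¹)⁻¹ * x⁻¹⁻¹ =
        x⁻¹ * g ^ n * x⁻¹⁻¹ * (g ^ n)⁻¹ by group] at h3) (by
      rwa [show x⁻¹ * (x * g * x⁻¹ * g⁻¹)⁻¹ * x⁻¹⁻¹ = x⁻¹ * g * x⁻¹⁻¹ * g⁻¹ by group] at h2)
    have h5 := hUn.conj_mem _ (inv_mem h4) x
    rwa [show x * (x⁻¹ * g * x⁻¹⁻¹ * g⁻¹)⁻¹ * x⁻¹ = x * g * x⁻¹ * g⁻¹ by group] at h5

/-- the linear order of a bicone -/
@[reducible] noncomputable def ordOf (hP : BiCone P) : LinearOrder G where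
  le a b := a = b ∨ b * a⁻¹ ∈ P
  le_refl a := Or.inl rfl
  le_trans a b c := by
    rintro (rfl | h1) (rfl | h2)
    · exact Or.inl rfl
    · exact Or.inr h2
    · exact Or.inr h1
    · right
      have := hP.mul_mem _ h2 _ h1
      rwa [show c * b⁻¹ * (b * a⁻¹) = c * a⁻¹ by group] at this
  le_antisymm a b := by
    rintro (h | h1) (h' | h2)
    · exact h
    · exact h
    · exact h'.symm
    · exfalso
      have := hP.mul_mem _ h2 _ h1
      rw [show a * b⁻¹ * (b * a⁻¹) = 1 by group] at this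
      exact hP.one_not_mem this
  le_total a b := by
    rcases hP.toCone.trich (b * a⁻¹) with h | h | h
    · exact Or.inl (Or.inr h)
    · exact Or.inl (Or.inl (mul_inv_eq_one.1 h).symm)
    · right; right
      rwa [mul_inv_rev, inv_inv] at h
  toDecidableLE := Classical.decRel _

/-- the largest convex subgroup not containing `c` -/
lemma exists_W (hP : CentralCone P) {c : G} (hc : c ∈ P) :
    ∃ W : Subgroup G, Conv P W ∧ c ∉ W ∧ ∀ y, y * c * y⁻¹ * c⁻¹ ∈ W := by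
  letI : LinearOrder G := ordOf hP.toBiCone
  have hle : ∀ a b : G, a ≤ b ↔ a = b ∨ b * a⁻¹ ∈ P := fun a b => Iff.rfl
  have hlt : ∀ a b : G, a < b ↔ b * a⁻¹ ∈ P := by
    intro a b
    rw [lt_iff_le_and_ne, hle]
    constructor
    · rintro ⟨h | h, hne⟩
      · exact absurd h hne
      · exact h
    · intro h
      refine ⟨Or.inr h, ?_⟩
      rintro rfl
      rw [mul_inv_cancel] at h
      exact hP.one_not_mem h
  haveI : MulLeftMono G := ⟨fun x a b h => by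
    rcases (hle a b).1 h with rfl | h
    · exact le_rfl
    · refine (hle _ _).2 (Or.inr ?_)
      have := hP.conj_mem x _ h
      simpa [mul_assoc] using this⟩
  haveI : MulRightMono G := ⟨fun x a b h => by
    rcases (hle a b).1 h with rfl | h
    · exact le_rfl
    · refine (hle _ _).2 (Or.inr ?_)
      simpa [Function.swap, mul_assoc] using h⟩
  have hc1 : 1 < c := (hlt 1 c).2 (by simpa using hc)
  let W : Subgroup G :=
    { carrier := {y | ∀ k : ℕ, y ^ k < c ∧ (y⁻¹) ^ k < c}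
      mul_mem' := by
        intro a b ha hb
        obtain ⟨m, hm, h1, h2, h3, h4⟩ : ∃ m : G, (∀ k : ℕ, m ^ k < c) ∧ a ≤ m ∧ a⁻¹ ≤ m ∧ b ≤ m ∧ b⁻¹ ≤ m := by
          refine ⟨max (max a a⁻¹) (max b b⁻¹), ?_, ?_, ?_, ?_, ?_⟩
          · intro k
            rcases max_choice (max a a⁻¹) (max b b⁻¹) with h | h
            · rw [h]
              rcases max_choice a a⁻¹ with h' | h'
              · rw [h']; exact (ha k).1
              · rw [h']; exact (ha k).2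
            · rw [h]
              rcases max_choice b b⁻¹ with h' | h'
              · rw [h']; exact (hb k).1
              · rw [h']; exact (hb k).2
          · exact (le_max_left _ _).trans (le_max_left _ _)
          · exact (le_max_right _ _).trans (le_max_left _ _)
          · exact (le_max_left _ _).trans (le_max_right _ _)
          · exact (le_max_right _ _).trans (le_max_right _ _)
        intro k
        have hmm : (m * m) ^ k < c := by
          rw [← pow_two, ← pow_mul]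
          exact hm _
        refine ⟨lt_of_le_of_lt (pow_le_pow_left' (mul_le_mul' h1 h3) k) hmm, ?_⟩
        rw [mul_inv_rev]
        exact lt_of_le_of_lt (pow_le_pow_left' (mul_le_mul' h4 h2) k) hmm
      one_mem' := by
        intro k
        simpa using hc1
      inv_mem' := by
        intro a ha k
        exact ⟨(ha k).2, by rw [inv_inv]; exact (ha k).1⟩ }
  refine ⟨W, ?_, ?_, ?_⟩
  · intro x hx y hy hyx k
    have hx1 : 1 ≤ x := ((hlt 1 x).2 (by simpa using hx)).le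
    have hxy : x ≤ y := ((hlt x y).2 hyx).le
    refine ⟨lt_of_le_of_lt (pow_le_pow_left' hxy k) (hy k).1, lt_of_le_of_lt ?_ hc1⟩
    exact pow_le_one' (Left.inv_le_one_iff.2 hx1) k
  · intro h
    have := (h 1).1
    rw [pow_one] at this
    exact lt_irrefl _ this
  · intro y k
    refine ⟨(hlt _ _).2 ?_, (hlt _ _).2 ?_⟩
    · have := hP.central y c hc (-(k : ℤ))
      rwa [zpow_neg, zpow_natCast] at this
    · have := hP.central y c hc (k : ℤ)
      rw [zpow_natCast] at this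
      rwa [inv_pow, inv_inv]

lemma exists_J (hP : CentralCone P) {U : Subgroup G} (hU : Conv P U) :
    ∃ I : Subgroup G, ∀ g, g ∈ I ↔ ∀ x, x * g * x⁻¹ * g⁻¹ ∈ U := by
  have hUn := hU.normal hP
  refine ⟨{ carrier := {g | ∀ x, x * g * x⁻¹ * g⁻¹ ∈ U}
            mul_mem' := ?_
            one_mem' := ?_
            inv_mem' := ?_ }, fun g => Iff.rfl⟩
  · intro g h hg hh x
    have h1 := hUn.conj_mem _ (hh x) g
    have h2 := mul_mem (hg x) h1
    rwa [show x * g * x⁻¹ * g⁻¹ * (g * (x * h * x⁻¹ * h⁻¹) * g⁻¹) = x * (g * h) * x⁻¹ * (g * h)⁻¹ by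
      group] at h2
  · intro x
    rw [mul_one, mul_inv_cancel, one_mul, inv_one]
    exact one_mem U
  · intro g hg x
    have h1 := hUn.conj_mem _ (inv_mem (hg x)) g⁻¹
    rwa [show g⁻¹ * (x * g * x⁻¹ * g⁻¹)⁻¹ * g⁻¹⁻¹ = x * g⁻¹ * x⁻¹ * g⁻¹⁻¹ by group] at h1

end conv17

/-- TARGET: a group with a central two-sided order has orderable central quotient -/
theorem orderable_quotient_center {G : Type u} [Group G] {P : Set G} (hP : CentralCone P)
    (hab : ∀ (A : Type u) [Group A], (∀ a b : A, a * b = b * a) →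
      (∀ (a : A) (n : ℕ), 1 ≤ n → a ^ n = 1 → a = 1) → ∃ Q : Set A, BiCone Q) :
    Orderable (G ⧸ Subgroup.center G) := by
  refine orderable_of_chain hab
    {I | ∃ U : Subgroup G, Conv P U ∧ ∀ g, g ∈ I ↔ ∀ x, x * g * x⁻¹ * g⁻¹ ∈ U} ?_ ?_ ?_ ?_ ?_
  · rintro I ⟨U, hU, hI⟩
    have hUn := hU.normal hP
    refine ⟨fun g hg y => ?_⟩
    rw [hI] at hg ⊢
    intro x
    have h1 := hUn.conj_mem _ (hg (y⁻¹ * x * y)) y
    rwa [show y * (y⁻¹ * x * y * g * (y⁻¹ * x * y)⁻¹ * g⁻¹) * y⁻¹ =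
      x * (y * g * y⁻¹) * x⁻¹ * (y * g * y⁻¹)⁻¹ by group] at h1
  · rintro I ⟨U, hU, hI⟩ J ⟨W, hW, hJ⟩
    rcases hU.total hP hW with h | h
    · left
      intro g hg
      rw [hI] at hg
      rw [hJ]
      exact fun x => h (hg x)
    · right
      intro g hg
      rw [hJ] at hg
      rw [hI]
      exact fun x => h (hg x)
  · rintro I ⟨U, hU, hI⟩ z hz
    rw [hI]
    intro x
    have := Subgroup.mem_center_iff.1 hz x
    rw [this, mul_inv_cancel_right, mul_inv_cancel]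
    exact one_mem U
  · rintro I ⟨U, hU, hI⟩ g n hn hg
    rw [hI] at hg ⊢
    exact fun x => hU.root hP hn (hg x)
  · intro g hg x
    have hC := hP.toBiCone.toCone
    rcases hC.trich (x * g * x⁻¹ * g⁻¹) with h | h | h
    · obtain ⟨W, hW, hcW, hyW⟩ := exists_W hP h
      obtain ⟨I, hI⟩ := exists_J hP hW
      refine ⟨I, ⟨W, hW, hI⟩, fun h1 => hcW ((hI g).1 h1 x), (hI _).2 hyW⟩
    · have hbot : Conv P (⊥ : Subgroup G) := by
        intro a ha y hy hya
        rw [Subgroup.mem_bot] at hy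
        rw [hy, one_mul] at hya
        exact absurd hya (hC.inv_not_mem ha)
      obtain ⟨I, hI⟩ := exists_J hP hbot
      refine ⟨I, ⟨⊥, hbot, hI⟩, fun h1 => hg ?_, by rw [h]; exact one_mem I⟩
      rw [Subgroup.mem_center_iff]
      intro y
      have := (hI g).1 h1 y
      rw [Subgroup.mem_bot, mul_inv_eq_one, mul_inv_eq_iff_eq_mul] at this
      exact this
    · obtain ⟨W, hW, hcW, hyW⟩ := exists_W hP h
      obtain ⟨I, hI⟩ := exists_J hP hW
      refine ⟨I, ⟨W, hW, hI⟩, fun h1 => hcW (inv_mem ((hI g).1 h1 x)), ?_⟩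
      have : (x * g * x⁻¹ * g⁻¹)⁻¹ ∈ I := (hI _).2 hyW
      simpa using inv_mem this



end ConradSol


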