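import Pool.Agent.Helper277.Inherit

set_option autoImplicit false

namespace ConradSol

universe u v




theorem isRC_iInf {G : Type u} [Group G] {ι : Type v} (r : ι → ι → Prop) [IsWellOrder ι r]
    (H : ι → Subgroup G) (P : ι → Set G) (h : ∀ i, IsRC (H i) (P i)) :
    IsRC (⨅ i, H i) {x | ∃ i, x ∈ P i ∧ ∀ j, r j i → x ∈ H j} := by
  refine ⟨?_, ?_, ?_, ?_, ?_⟩
  · rintro x ⟨i, hxi, hxi'⟩ y ⟨j, hyj, hyj'⟩
    rcases trichotomous_of r i j with hij | hij | hij
    · exact ⟨i, (h i).right_mem y (hyj' i hij) x hxi, fun k hk =>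
        (H k).mul_mem (hxi' k hk) (hyj' k (trans_of r hk hij))⟩
    · subst hij
      exact ⟨i, (h i).mul_mem x hxi y hyj, fun k hk => (H k).mul_mem (hxi' k hk) (hyj' k hk)⟩
    · exact ⟨j, (h j).left_mem x (hxi' j hij) y hyj, fun k hk =>
        (H k).mul_mem (hxi' k (trans_of r hk hij)) (hyj' k hk)⟩
  · rintro g hg x ⟨i, hxi, hxi'⟩
    rw [Subgroup.mem_iInf] at hg
    exact ⟨i, (h i).left_mem g (hg i) x hxi, fun k hk => (H k).mul_mem (hg k) (hxi' k hk)⟩
  · rintro g hg x ⟨i, hxi, hxi'⟩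
    rw [Subgroup.mem_iInf] at hg
    exact ⟨i, (h i).right_mem g (hg i) x hxi, fun k hk => (H k).mul_mem (hxi' k hk) (hg k)⟩
  · rintro x ⟨i, hxi, -⟩ hx
    rw [Subgroup.mem_iInf] at hx
    exact (h i).not_mem x hxi (hx i)
  · intro x hx
    rw [Subgroup.mem_iInf] at hx
    have hwf : WellFounded r := IsWellFounded.wf
    have hne : {i | x ∉ H i}.Nonempty := by
      by_contra hcon
      apply hx
      intro i
      by_contra hi
      exact hcon ⟨i, hi⟩
    have hmin := hwf.min_mem {i | x ∉ H i} hne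
    have hlt : ∀ j, r j (hwf.min {i | x ∉ H i} hne) → x ∈ H j := by
      intro j hj
      by_contra hcon
      exact hwf.not_lt_min {i | x ∉ H i} hcon hj
    rcases (h _).total x hmin with h1 | h1
    · exact Or.inl ⟨_, h1, hlt⟩
    · exact Or.inr ⟨_, h1, fun j hj => (H j).inv_mem (hlt j hj)⟩

theorem isRC_comap {G : Type u} {K : Type v} [Group G] [Group K] (f : G →* K) {H : Subgroup K}
    {P : Set K} (h : IsRC H P) : IsRC (H.comap f) (f ⁻¹' P) := by
  refine ⟨?_, ?_, ?_, ?_, ?_⟩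
  · intro x hx y hy
    show f (x * y) ∈ P
    rw [map_mul]
    exact h.mul_mem _ hx _ hy
  · intro g hg x hx
    show f (g * x) ∈ P
    rw [map_mul]
    exact h.left_mem _ hg _ hx
  · intro g hg x hx
    show f (x * g) ∈ P
    rw [map_mul]
    exact h.right_mem _ hg _ hx
  · intro x hx hx'
    exact h.not_mem _ hx hx'
  · intro x hx
    have : f x ∉ H := hx
    rcases h.total _ this with h1 | h1
    · exact Or.inl h1
    · right
      show f x⁻¹ ∈ P
      rw [map_inv]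
      exact h1

theorem isRC_quot {G : Type u} [Group G] (N : Subgroup G) [N.Normal] {P : Set (G ⧸ N)}
    (h : Cone P) : IsRC N (QuotientGroup.mk' N ⁻¹' P) := by
  have h1 := isRC_comap (QuotientGroup.mk' N) (cone_iff_isRC_bot.mp h)
  rwa [MonoidHom.comap_bot, QuotientGroup.ker_mk'] at h1

/-- TARGET: residually orderable along a sequence -/
theorem orderable_residual {G : Type u} [Group G] (D : ℕ → Subgroup G) [hD : ∀ n, (D n).Normal]
    (h : ∀ n, Orderable (G ⧸ D n)) [(⨅ n, D n).Normal] : Orderable (G ⧸ ⨅ n, D n) := by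
  choose Q hQ using h
  have hR := isRC_iInf (· < · : ℕ → ℕ → Prop) D (fun n => QuotientGroup.mk' (D n) ⁻¹' (Q n))
    (fun n => isRC_quot (D n) (hQ n).toCone)
  set R : Set G := {x | ∃ i, x ∈ QuotientGroup.mk' (D i) ⁻¹' (Q i) ∧ ∀ j, j < i → x ∈ D j} with hRdef
  have hRconj : ∀ g, ∀ x ∈ R, g * x * g⁻¹ ∈ R := by
    rintro g x ⟨i, hi, hi'⟩
    refine ⟨i, ?_, fun j hj => (hD j).conj_mem x (hi' j hj) g⟩
    show QuotientGroup.mk' (D i) (g * x * g⁻¹) ∈ Q i
    rw [map_mul, map_mul, map_inv]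
    exact (hQ i).conj_mem _ _ hi
  have hiff : ∀ x : G, ((x : G ⧸ ⨅ n, D n) ∈ (QuotientGroup.mk '' R : Set (G ⧸ ⨅ n, D n))) ↔ x ∈ R := by
    intro x
    constructor
    · rintro ⟨y, hy, hxy⟩
      have h1 : y⁻¹ * x ∈ ⨅ n, D n := QuotientGroup.eq.mp hxy
      have h2 := hR.right_mem _ h1 y hy
      rwa [mul_inv_cancel_left] at h2
    · intro hx
      exact ⟨x, hx, rfl⟩
  refine ⟨QuotientGroup.mk '' R, ?_⟩
  refine { mul_mem := ?_, one_not_mem := ?_, total := ?_, conj_mem := ?_ }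
  · rintro _ ⟨x, hx, rfl⟩ _ ⟨y, hy, rfl⟩
    exact ⟨x * y, hR.mul_mem x hx y hy, rfl⟩
  · intro h1
    have h2 : (1 : G) ∈ R := (hiff 1).mp h1
    exact hR.not_mem 1 h2 (Subgroup.one_mem _)
  · intro q hq
    induction q using QuotientGroup.induction_on with
    | H x =>
      have hx : x ∉ ⨅ n, D n := by
        intro hx
        apply hq
        exact (QuotientGroup.eq_one_iff x).mpr hx
      rcases hR.total x hx with h1 | h1
      · exact Or.inl ((hiff x).mpr h1)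
      · exact Or.inr ((hiff x⁻¹).mpr h1)
  · intro g x hx
    induction g using QuotientGroup.induction_on with
    | H g =>
      obtain ⟨x, hx, rfl⟩ := hx
      exact ⟨g * x * g⁻¹, hRconj g x hx, rfl⟩

/-- TARGET -/
theorem RC.iInf {G : Type u} [Group G] {ι : Type v} (H : ι → Subgroup G) (h : ∀ i, RC (H i)) :
    RC (⨅ i, H i) := by
  choose P hP using h
  exact ⟨_, isRC_iInf WellOrderingRel H P hP⟩

/-- TARGET -/
theorem RC.comap {G : Type u} {K : Type v} [Group G] [Group K] (f : G →* K) (H : Subgroup K)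
    (h : RC H) : RC (H.comap f) := by
  obtain ⟨P, hP⟩ := h
  exact ⟨_, isRC_comap f hP⟩

/-- TARGET -/
theorem RC.trans {G : Type u} [Group G] {K : Subgroup G} (hK : RC K) {H : Subgroup K}
    (hH : RC H) : RC (H.map K.subtype) := by
  obtain ⟨P, hP⟩ := hK
  obtain ⟨Q, hQ⟩ := hH
  have hle : ∀ x ∈ H.map K.subtype, ∃ y : K, y ∈ H ∧ (y : G) = x := by
    rintro x ⟨y, hy, rfl⟩
    exact ⟨y, hy, rfl⟩
  refine ⟨P ∪ Subtype.val '' Q, ?_, ?_, ?_, ?_, ?_⟩
  · rintro x (hx | ⟨x, hx, rfl⟩) y (hy | ⟨y, hy, rfl⟩)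
    · exact Or.inl (hP.mul_mem x hx y hy)
    · exact Or.inl (hP.right_mem _ y.2 x hx)
    · exact Or.inl (hP.left_mem _ x.2 y hy)
    · exact Or.inr ⟨x * y, hQ.mul_mem x hx y hy, rfl⟩
  · rintro g hg x (hx | ⟨x, hx, rfl⟩)
    · obtain ⟨g, hg, rfl⟩ := hle g hg
      exact Or.inl (hP.left_mem _ g.2 x hx)
    · obtain ⟨g, hg1, rfl⟩ := hle g hg
      exact Or.inr ⟨g * x, hQ.left_mem g hg1 x hx, rfl⟩
  · rintro g hg x (hx | ⟨x, hx, rfl⟩)
    · obtain ⟨g, hg, rfl⟩ := hle g hg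
      exact Or.inl (hP.right_mem _ g.2 x hx)
    · obtain ⟨g, hg1, rfl⟩ := hle g hg
      exact Or.inr ⟨x * g, hQ.right_mem g hg1 x hx, rfl⟩
  · rintro x (hx | ⟨x, hx, rfl⟩) hx'
    · obtain ⟨g, hg, rfl⟩ := hle x hx'
      exact hP.not_mem _ hx g.2
    · obtain ⟨g, hg, hgx⟩ := hle _ hx'
      have : g = x := Subtype.ext hgx
      subst this
      exact hQ.not_mem _ hx hg
  · intro x hx
    by_cases hxK : x ∈ K
    · have : (⟨x, hxK⟩ : K) ∉ H := by
        intro h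
        exact hx ⟨⟨x, hxK⟩, h, rfl⟩
      rcases hQ.total _ this with h1 | h1
      · exact Or.inl (Or.inr ⟨_, h1, rfl⟩)
      · exact Or.inr (Or.inr ⟨_, h1, rfl⟩)
    · rcases hP.total x hxK with h1 | h1
      · exact Or.inl (Or.inl h1)
      · exact Or.inr (Or.inl h1)

theorem RC.centralizer_one {G : Type u} [Group G] (h : Orderable G) (y : G) :
    RC (Subgroup.centralizer {y}) := by
  obtain ⟨P, hP⟩ := h
  have hmem : ∀ g : G, g ∈ Subgroup.centralizer {y} ↔ g * y * g⁻¹ * y⁻¹ = 1 := by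
    intro g
    rw [Subgroup.mem_centralizer_singleton_iff, mul_inv_eq_one, mul_inv_eq_iff_eq_mul]
    try exact eq_comm
  have hprod : ∀ g k : G, (g * k) * y * (g * k)⁻¹ * y⁻¹ =
      (g * (k * y * k⁻¹ * y⁻¹) * g⁻¹) * (g * y * g⁻¹ * y⁻¹) := by
    intro g k; group
  refine ⟨{g | g * y * g⁻¹ * y⁻¹ ∈ P}, ?_, ?_, ?_, ?_, ?_⟩
  · intro g hg k hk
    show (g * k) * y * (g * k)⁻¹ * y⁻¹ ∈ P
    rw [hprod]
    exact hP.mul_mem _ (hP.conj_mem g _ hk) _ hg
  · intro g hg k hk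
    show (g * k) * y * (g * k)⁻¹ * y⁻¹ ∈ P
    rw [hprod, (hmem g).mp hg, mul_one]
    exact hP.conj_mem g _ hk
  · intro k hk g hg
    show (g * k) * y * (g * k)⁻¹ * y⁻¹ ∈ P
    rw [hprod, (hmem k).mp hk, mul_one, mul_inv_cancel, one_mul]
    exact hg
  · intro g hg hg'
    have : g * y * g⁻¹ * y⁻¹ ∈ P := hg
    rw [(hmem g).mp hg'] at this
    exact hP.one_not_mem this
  · intro g hg
    rw [hmem] at hg
    rcases hP.total _ hg with h1 | h1
    · exact Or.inl h1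
    · right
      show g⁻¹ * y * g⁻¹⁻¹ * y⁻¹ ∈ P
      have e : g⁻¹ * y * g⁻¹⁻¹ * y⁻¹ = g⁻¹ * (g * y * g⁻¹ * y⁻¹)⁻¹ * g⁻¹⁻¹ := by group
      rw [e]
      exact hP.conj_mem g⁻¹ _ h1

/-- TARGET -/
theorem RC.centralizer {G : Type u} [Group G] (h : Orderable G) (S : Set G) :
    RC (Subgroup.centralizer S) := by
  have h1 := RC.iInf (fun s : S => Subgroup.centralizer {(s : G)}) (fun s => RC.centralizer_one h s)
  have h2 : (⨅ s : S, Subgroup.centralizer {(s : G)}) = Subgroup.centralizer S := by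
    ext g
    rw [Subgroup.mem_iInf, Subgroup.mem_centralizer_iff]
    constructor
    · intro hg s hs
      have := hg ⟨s, hs⟩
      rw [Subgroup.mem_centralizer_iff] at this
      exact this s rfl
    · intro hg s
      rw [Subgroup.mem_centralizer_iff]
      intro t ht
      rw [Set.mem_singleton_iff.mp ht]
      exact hg s s.2
  rwa [h2] at h1

/-- TARGET -/
theorem RC.of_quotient {G : Type u} [Group G] (N : Subgroup G) [N.Normal]
    (h : ∃ P : Set (G ⧸ N), Cone P) : RC N := by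
  obtain ⟨P, hP⟩ := h
  exact ⟨_, isRC_quot N hP⟩

end ConradSol
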