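import Pool.Agent.Helper277.Inherit

set_option autoImplicit false

namespace ConradSol

universe u v



lemma BiCone.pow_lt {G : Type*} [Group G] {P : Set G} (hP : BiCone P) {c g : G} (h : c * g⁻¹ ∈ P) :
    ∀ {k : ℕ}, 1 ≤ k → c ^ k * (g ^ k)⁻¹ ∈ P := by
  intro k hk
  induction k, hk using Nat.le_induction with
  | base => simpa using h
  | succ n hn ih =>
    have h1 : c ^ (n + 1) * (g ^ (n + 1))⁻¹ = (c * (c ^ n * (g ^ n)⁻¹) * c⁻¹) * (c * g⁻¹) := by
      rw [pow_succ' c n, pow_succ' g n]; group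
    rw [h1]
    exact hP.mul_mem _ (hP.conj_mem c _ ih) _ h

lemma BiCone.root_unique {G : Type*} [Group G] {P : Set G} (hP : BiCone P) {c g : G} {k : ℕ}
    (hk : 1 ≤ k) (h : c ^ k = g ^ k) : c = g := by
  by_contra hne
  have h1 : c * g⁻¹ ≠ 1 := fun h2 => hne (mul_inv_eq_one.1 h2)
  rcases hP.total _ h1 with h2 | h2
  · have := hP.pow_lt h2 hk
    rw [h, mul_inv_cancel] at this
    exact hP.one_not_mem this
  · have h3 : g * c⁻¹ ∈ P := by simpa using h2
    have := hP.pow_lt h3 hk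
    rw [h, mul_inv_cancel] at this
    exact hP.one_not_mem this

lemma BiCone.comm_of_pow {G : Type*} [Group G] {P : Set G} (hP : BiCone P) {x g : G} {k : ℕ}
    (hk : 1 ≤ k) (h : x * g ^ k = g ^ k * x) : x * g = g * x := by
  have h1 : (x * g * x⁻¹) ^ k = g ^ k := by
    rw [conj_pow, h, mul_inv_cancel_right]
  have h2 := hP.root_unique hk h1
  exact mul_inv_eq_iff_eq_mul.1 h2

lemma BiCone.comm_of_zpow {G : Type*} [Group G] {P : Set G} (hP : BiCone P) {x g : G} {j : ℤ}
    (hj : j ≠ 0) (h : x * g ^ j = g ^ j * x) : x * g = g * x := by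
  rcases Int.natAbs_eq j with h1 | h1
  · rw [h1, zpow_natCast] at h
    exact hP.comm_of_pow (Int.natAbs_pos.2 hj) h
  · rw [h1, zpow_neg, zpow_natCast] at h
    have h2 : Commute x (g ^ j.natAbs)⁻¹ := h
    exact hP.comm_of_pow (Int.natAbs_pos.2 hj) (Commute.inv_right_iff.1 h2)

lemma BiCone.zpow_inj {G : Type*} [Group G] {P : Set G} (hP : BiCone P) {s : G} (hs : s ≠ 1)
    {i j : ℤ} (h : s ^ i = s ^ j) : i = j := by
  by_contra hne
  have h1 : s ^ (i - j) = 1 := by rw [zpow_sub, h, mul_inv_cancel]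
  have hne' : i - j ≠ 0 := sub_ne_zero.2 hne
  rcases Int.natAbs_eq (i - j) with h2 | h2
  · rw [h2, zpow_natCast] at h1
    exact hs (hP.toCone.pow_eq_one (Int.natAbs_pos.2 hne') h1)
  · rw [h2, zpow_neg, zpow_natCast, inv_eq_one] at h1
    exact hs (hP.toCone.pow_eq_one (Int.natAbs_pos.2 hne') h1)

/-- TARGET: in an orderable group the root closure of a cyclic subgroup is relatively convex and
has rank one -/
theorem exists_rankOne {Q : Type u} [Group Q] (h : Orderable Q) (s : Q) (hs : s ≠ 1)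
    (hcen : ∀ S : Set Q, RC (Subgroup.centralizer S))
    (hiInf : ∀ (ι : Type) (H : ι → Subgroup Q), (∀ i, RC (H i)) → RC (⨅ i, H i))
    (htrans : ∀ (K : Subgroup Q), RC K → ∀ H : Subgroup K, RC H → RC (H.map K.subtype))
    (hquo : ∀ (A : Type u) [Group A] (N : Subgroup A) [N.Normal],
      (∃ P : Set (A ⧸ N), Cone P) → RC N)
    (hab : ∀ (A : Type u) [Group A], (∀ a b : A, a * b = b * a) →
      (∀ (a : A) (n : ℕ), 1 ≤ n → a ^ n = 1 → a = 1) → ∃ Q : Set A, BiCone Q) :
    ∃ I : Subgroup Q, RC I ∧ ∃ hsI : s ∈ I, ∃ π : I →* Multiplicative ℚ, Function.Injective π ∧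
      π ⟨s, hsI⟩ = Multiplicative.ofAdd 1 := by
  classical
  obtain ⟨P, hP⟩ := h
  obtain ⟨A, hAdef⟩ : ∃ A : Subgroup Q, A = Subgroup.centralizer {s} ⊓
      Subgroup.centralizer ((Subgroup.centralizer {s} : Subgroup Q) : Set Q) := ⟨_, rfl⟩
  have hAmem : ∀ a, a ∈ A ↔ s * a = a * s ∧ ∀ x, s * x = x * s → x * a = a * x := by
    intro a
    rw [hAdef, Subgroup.mem_inf, Subgroup.mem_centralizer_iff, Subgroup.mem_centralizer_iff]
    constructor
    · rintro ⟨h1, h2⟩
      refine ⟨h1 s rfl, fun x hx => h2 x ?_⟩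
      rw [SetLike.mem_coe, Subgroup.mem_centralizer_iff]
      rintro y rfl
      exact hx
    · rintro ⟨h1, h2⟩
      refine ⟨by rintro y rfl; exact h1, fun x hx => h2 x ?_⟩
      rw [SetLike.mem_coe, Subgroup.mem_centralizer_iff] at hx
      exact hx s rfl
  have hRCA : RC A := by
    have h1 := hiInf Bool (fun b => if b then Subgroup.centralizer {s} else
      Subgroup.centralizer ((Subgroup.centralizer {s} : Subgroup Q) : Set Q)) (by
        intro b; cases b
        · exact hcen _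
        · exact hcen _)
    rw [iInf_bool_eq] at h1
    rw [hAdef]
    simpa using h1
  have hAcomm : ∀ a ∈ A, ∀ b ∈ A, a * b = b * a := by
    intro a ha b hb
    exact ((hAmem b).1 hb).2 a ((hAmem a).1 ha).1
  have hIA : ∀ g : Q, (∃ k : ℕ, 1 ≤ k ∧ ∃ j : ℤ, g ^ k = s ^ j) → g ∈ A := by
    rintro g ⟨k, hk, j, hj⟩
    by_cases hj0 : j = 0
    · rw [hj0, zpow_zero] at hj
      rw [hP.toCone.pow_eq_one hk hj]
      exact A.one_mem
    · rw [hAmem]
      refine ⟨?_, ?_⟩
      · have h1 : g * s ^ j = s ^ j * g := by rw [← hj]; exact (pow_succ' g k).symm.trans (pow_succ g k)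
        exact (hP.comm_of_zpow hj0 h1).symm
      · intro x hx
        have h1 : Commute x s := hx.symm
        have h2 : x * g ^ k = g ^ k * x := by rw [hj]; exact (h1.zpow_right j)
        exact hP.comm_of_pow hk h2
  obtain ⟨I, hImem⟩ : ∃ I : Subgroup Q, ∀ g, g ∈ I ↔ ∃ k : ℕ, 1 ≤ k ∧ ∃ j : ℤ, g ^ k = s ^ j := by
    refine ⟨{ carrier := {g | ∃ k : ℕ, 1 ≤ k ∧ ∃ j : ℤ, g ^ k = s ^ j}
              mul_mem' := ?_
              one_mem' := ⟨1, le_rfl, 0, by simp⟩
              inv_mem' := ?_ }, fun g => Iff.rfl⟩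
    · rintro a b ⟨k, hk, j, hj⟩ ⟨k', hk', j', hj'⟩
      have hc : Commute a b := hAcomm a (hIA a ⟨k, hk, j, hj⟩) b (hIA b ⟨k', hk', j', hj'⟩)
      refine ⟨k * k', Nat.mul_pos hk hk', j * k' + j' * k, ?_⟩
      rw [hc.mul_pow, pow_mul, hj, mul_comm k k', pow_mul, hj', zpow_add, zpow_mul, zpow_mul,
        zpow_natCast, zpow_natCast]
    · rintro a ⟨k, hk, j, hj⟩
      exact ⟨k, hk, -j, by rw [inv_pow, hj, zpow_neg]⟩
  have hIleA : I ≤ A := fun g hg => hIA g ((hImem g).1 hg)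
  have hsI : s ∈ I := (hImem s).2 ⟨1, le_rfl, 1, by simp⟩
  -- relative convexity
  have hRCI : RC I := by
    have hAc : ∀ a b : A, a * b = b * a := fun a b => Subtype.ext (hAcomm a a.2 b b.2)
    haveI hN : (I.subgroupOf A).Normal := by
      refine ⟨fun n hn g => ?_⟩
      rw [hAc g n, mul_inv_cancel_right]; exact hn
    have hbi := hab (A ⧸ I.subgroupOf A) (by
      intro a b
      induction a using QuotientGroup.induction_on with
      | H a =>
        induction b using QuotientGroup.induction_on with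
        | H b => rw [← QuotientGroup.mk_mul, ← QuotientGroup.mk_mul, hAc]) (by
      intro a n hn han
      induction a using QuotientGroup.induction_on with
      | H a =>
        rw [← QuotientGroup.mk_pow, QuotientGroup.eq_one_iff, Subgroup.mem_subgroupOf, hImem] at han
        rw [QuotientGroup.eq_one_iff, Subgroup.mem_subgroupOf, hImem]
        obtain ⟨k, hk, j, hj⟩ := han
        exact ⟨n * k, Nat.mul_pos hn hk, j, by rw [pow_mul]; exact hj⟩)
    obtain ⟨R, hR⟩ := hbi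
    have h1 := hquo A (I.subgroupOf A) ⟨R, hR.toCone⟩
    have h2 := htrans A hRCA _ h1
    rwa [Subgroup.subgroupOf_map_subtype, inf_eq_left.2 hIleA] at h2
  refine ⟨I, hRCI, hsI, ?_⟩
  have key : ∀ g : I, ∃ q : ℚ, ∀ (k : ℕ) (j : ℤ), 1 ≤ k → (g : Q) ^ k = s ^ j → q = (j : ℚ) / k := by
    intro g
    obtain ⟨k0, hk0, j0, hj0⟩ := (hImem g).1 g.2
    refine ⟨(j0 : ℚ) / k0, fun k j hk hj => ?_⟩
    have h1 : s ^ (j0 * k) = s ^ (j * k0) := by
      rw [zpow_mul, zpow_mul, ← hj0, ← hj, zpow_natCast, zpow_natCast, ← pow_mul, ← pow_mul,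
        mul_comm]
    have h2 := hP.zpow_inj hs h1
    have hk0' : (k0 : ℚ) ≠ 0 := by positivity
    have hk' : (k : ℚ) ≠ 0 := by positivity
    rw [div_eq_div_iff hk0' hk']
    exact_mod_cast h2
  choose π hπ using key
  refine ⟨{ toFun := fun g => Multiplicative.ofAdd (π g)
            map_one' := ?_
            map_mul' := ?_ }, ?_, ?_⟩
  · rw [hπ 1 1 0 le_rfl (by simp)]; simp
  · intro a b
    obtain ⟨k, hk, j, hj⟩ := (hImem a).1 a.2
    obtain ⟨k', hk', j', hj'⟩ := (hImem b).1 b.2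
    have hc : Commute (a : Q) (b : Q) := hAcomm a (hIleA a.2) b (hIleA b.2)
    have h1 : ((a * b : I) : Q) ^ (k * k') = s ^ (j * k' + j' * k) := by
      rw [Subgroup.coe_mul, hc.mul_pow, pow_mul, hj, mul_comm k k', pow_mul, hj', zpow_add,
        zpow_mul, zpow_mul, zpow_natCast, zpow_natCast]
    rw [hπ (a * b) _ _ (Nat.mul_pos hk hk') h1, hπ a _ _ hk hj, hπ b _ _ hk' hj', ← ofAdd_add]
    congr 1
    have hk0 : (k : ℚ) ≠ 0 := by positivity
    have hk0' : (k' : ℚ) ≠ 0 := by positivity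
    push_cast
    field_simp
  · intro a b hab'
    have hab'' : π a = π b := Multiplicative.ofAdd.injective hab'
    obtain ⟨k, hk, j, hj⟩ := (hImem a).1 a.2
    obtain ⟨k', hk', j', hj'⟩ := (hImem b).1 b.2
    rw [hπ a _ _ hk hj, hπ b _ _ hk' hj', div_eq_div_iff (by positivity) (by positivity)] at hab''
    have h2 : j * k' = j' * k := by exact_mod_cast hab''
    apply Subtype.ext
    apply hP.root_unique (Nat.mul_pos hk hk')
    rw [pow_mul, hj, mul_comm k k', pow_mul, hj', ← zpow_natCast, ← zpow_natCast, ← zpow_mul,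
      ← zpow_mul, h2]
  · show Multiplicative.ofAdd (π ⟨s, hsI⟩) = _
    rw [hπ ⟨s, hsI⟩ 1 1 le_rfl (by simp)]
    simp

end ConradSol
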