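import Pool.Agent.Helper277.Inherit

set_option autoImplicit false

namespace ConradSol

universe u v




theorem tf_key {A : Type u} [CommGroup A]
    (h : ∀ (a : A) (n : ℕ), 1 ≤ n → a ^ n = 1 → a = 1) {P : Set A}
    (hP : Maximal (· ∈ {P : Set A | (∀ x ∈ P, ∀ y ∈ P, x * y ∈ P) ∧ (1 : A) ∉ P}) P)
    {x : A} (hx : x ≠ 1) (hxP : x ∉ P) : ∃ n : ℕ, 1 ≤ n ∧ (x ^ n)⁻¹ ∈ P := by
  have hmul := hP.prop.1
  have hone := hP.prop.2
  by_contra hcon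
  push Not at hcon
  set P' : Set A := {y | ∃ n : ℕ, (∃ p ∈ P, y = p * x ^ n) ∨ (1 ≤ n ∧ y = x ^ n)} with hP'
  have hPP' : P ⊆ P' := fun p hp => ⟨0, Or.inl ⟨p, hp, by simp⟩⟩
  have hxP' : x ∈ P' := ⟨1, Or.inr ⟨le_refl 1, by simp⟩⟩
  have hS : P' ∈ {P : Set A | (∀ x ∈ P, ∀ y ∈ P, x * y ∈ P) ∧ (1 : A) ∉ P} := by
    refine ⟨?_, ?_⟩
    · rintro a ⟨n, ⟨p, hp, rfl⟩ | ⟨hn, rfl⟩⟩ b ⟨m, ⟨q, hq, rfl⟩ | ⟨hm, rfl⟩⟩
      · exact ⟨n + m, Or.inl ⟨p * q, hmul p hp q hq, by rw [pow_add, mul_mul_mul_comm]⟩⟩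
      · exact ⟨n + m, Or.inl ⟨p, hp, by rw [pow_add, mul_assoc]⟩⟩
      · exact ⟨n + m, Or.inl ⟨q, hq, by rw [pow_add, mul_left_comm]⟩⟩
      · exact ⟨n + m, Or.inr ⟨by omega, by rw [pow_add]⟩⟩
    · rintro ⟨n, ⟨p, hp, e⟩ | ⟨hn, e⟩⟩
      · rcases Nat.eq_zero_or_pos n with rfl | hn
        · rw [pow_zero, mul_one] at e
          exact hone (e ▸ hp)
        · apply hcon n hn
          rw [inv_eq_of_mul_eq_one_left e.symm]
          exact hp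
      · exact hx (h x n hn e.symm)
  exact hxP (hP.le_of_ge hS hPP' hxP')

/-- TARGET: torsion-free abelian groups are orderable -/
theorem exists_cone_of_torsionFree {A : Type u} [Group A] (hcomm : ∀ a b : A, a * b = b * a)
    (h : ∀ (a : A) (n : ℕ), 1 ≤ n → a ^ n = 1 → a = 1) : ∃ P : Set A, BiCone P := by
  letI : CommGroup A := { ‹Group A› with mul_comm := hcomm }
  obtain ⟨P, hP⟩ := zorn_subset
    {P : Set A | (∀ x ∈ P, ∀ y ∈ P, x * y ∈ P) ∧ (1 : A) ∉ P} (by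
      intro c hc hchain
      refine ⟨⋃₀ c, ⟨?_, ?_⟩, fun s hs => Set.subset_sUnion_of_mem hs⟩
      · rintro x ⟨s, hs, hxs⟩ y ⟨t, ht, hyt⟩
        rcases hchain.total hs ht with hst | hts
        · exact ⟨t, ht, (hc ht).1 x (hst hxs) y hyt⟩
        · exact ⟨s, hs, (hc hs).1 x hxs y (hts hyt)⟩
      · rintro ⟨s, hs, hxs⟩
        exact (hc hs).2 hxs)
  have hmul := hP.prop.1
  have hone := hP.prop.2
  have hpow : ∀ x ∈ P, ∀ n : ℕ, 1 ≤ n → x ^ n ∈ P := by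
    intro x hx n hn
    induction n, hn using Nat.le_induction with
    | base => simpa using hx
    | succ k hk ih => rw [pow_succ]; exact hmul _ ih _ hx
  refine ⟨P, ⟨⟨hmul, hone, ?_⟩, ?_⟩⟩
  · intro x hx
    by_contra hcon
    push Not at hcon
    obtain ⟨n, hn, h1⟩ := tf_key h hP hx hcon.1
    obtain ⟨m, hm, h2⟩ := tf_key h hP (inv_ne_one.2 hx) hcon.2
    have h3 := hpow _ h1 m hm
    have h4 := hpow _ h2 n hn
    apply hone
    have h5 := hmul _ h3 _ h4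
    have h6 : ((x ^ n)⁻¹) ^ m * ((x⁻¹ ^ m)⁻¹) ^ n = 1 := by
      rw [inv_pow x m, inv_inv, inv_pow, ← pow_mul, ← pow_mul, mul_comm n m,
        inv_mul_cancel]
    rwa [h6] at h5
  · intro g x hx
    rw [hcomm g x, mul_assoc, mul_inv_cancel, mul_one]
    exact hx

end ConradSol
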