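import Pool.Agent.Helper277.Inherit

set_option autoImplicit false

namespace ConradSol

universe u v



/-- TARGET: an affine action on the real line gives a right order which is not Conrad -/
theorem affine_not_allConrad {H : Type u} [Group H] (hH : ∃ P : Set H, Cone P)
    (w c : H → ℝ) (hw : ∀ h, 0 < w h) (hwm : ∀ g h, w (g * h) = w g * w h)
    (hc : ∀ g h, c (g * h) = c g + w g * c h) (t a : H) (ht : 2 ≤ w t) (hct : c t = 0)
    (ha : w a = 1) (hca : c a = 1) : ¬ AllConrad H := by
  obtain ⟨P0, hP0⟩ := hH
  have w1 : w 1 = 1 := by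
    have h := hwm 1 1
    rw [mul_one] at h
    have h0 := hw 1
    have : w 1 * (w 1 - 1) = 0 := by linarith
    rcases mul_eq_zero.mp this with h1 | h1
    · linarith
    · linarith
  have c1 : c 1 = 0 := by
    have h := hc 1 1
    rw [mul_one, w1] at h
    linarith
  have winv : ∀ h, w h * w h⁻¹ = 1 := by
    intro h
    rw [← hwm, mul_inv_cancel, w1]
  have cinv : ∀ h, c h + w h * c h⁻¹ = 0 := by
    intro h
    rw [← hc, mul_inv_cancel, c1]
  -- the action
  let rho : H → ℝ → ℝ := fun h x => w h * x + c h
  have rho_mul : ∀ g h x, rho (g * h) x = rho g (rho h x) := by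
    intro g h x
    simp only [rho]
    rw [hwm, hc]; ring
  have rho_zero : ∀ h, rho h 0 = c h := by
    intro h; simp [rho]
  have rho_a : ∀ x, rho a x = x + 1 := by
    intro x; simp [rho, ha, hca]
  have rho_t : ∀ x, rho t x = w t * x := by
    intro x; simp [rho, hct]
  have rho_inv : ∀ h x, rho h (rho h⁻¹ x) = x := by
    intro h x
    rw [← rho_mul, mul_inv_cancel]
    simp [rho, w1, c1]
  have rho_ainv : ∀ x, rho a⁻¹ x = x - 1 := by
    intro x
    have := rho_inv a x
    rw [rho_a] at this
    linarith
  have hl : (0 : ℝ) < w t := hw t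
  have rho_tinv : ∀ x, rho t⁻¹ x = x / w t := by
    intro x
    have := rho_inv t x
    rw [rho_t] at this
    rw [eq_div_iff hl.ne']
    linarith
  have rho_apow : ∀ (n : ℕ) x, rho (a ^ n) x = x + n := by
    intro n
    induction n with
    | zero => intro x; simp [rho, w1, c1]
    | succ k ih =>
      intro x
      rw [pow_succ, rho_mul, rho_a, ih]
      push_cast; ring
  have rho_apowinv : ∀ (n : ℕ) x, rho (a ^ n)⁻¹ x = x - n := by
    intro n x
    have := rho_inv (a ^ n) x
    rw [rho_apow] at this
    linarith
  -- the cone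
  let P : Set H := {h | 0 < c h ∨ (c h = 0 ∧ h ∈ P0)}
  have hP : Cone P := by
    refine ⟨?_, ?_, ?_⟩
    · rintro x hx y hy
      have hwx := hw x
      have hcxy := hc x y
      rcases hx with hx | ⟨hx, hx0⟩
      · rcases hy with hy | ⟨hy, hy0⟩
        · left
          rw [hcxy]
          have := mul_pos hwx hy
          linarith
        · left
          rw [hcxy, hy]
          linarith
      · rcases hy with hy | ⟨hy, hy0⟩
        · left
          rw [hcxy, hx]
          have := mul_pos hwx hy
          linarith
        · right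
          refine ⟨?_, hP0.mul_mem _ hx0 _ hy0⟩
          rw [hcxy, hx, hy]; ring
    · rintro (h | ⟨_, h⟩)
      · rw [c1] at h; exact lt_irrefl _ h
      · exact hP0.one_not_mem h
    · intro x hx
      have hwx := hw x
      have h1 := cinv x
      rcases lt_trichotomy (c x) 0 with h | h | h
      · right
        left
        by_contra h2
        push Not at h2
        have : w x * c x⁻¹ ≤ 0 := mul_nonpos_of_nonneg_of_nonpos hwx.le h2
        linarith
      · have h3 : c x⁻¹ = 0 := by
          rw [h] at h1
          have : w x * c x⁻¹ = 0 := by linarith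
          rcases mul_eq_zero.mp this with h4 | h4
          · exact absurd h4 hwx.ne'
          · exact h4
        rcases hP0.total x hx with h4 | h4
        · left; right; exact ⟨h, h4⟩
        · right; right; exact ⟨h3, h4⟩
      · left; left; exact h
  intro hall
  have hcon := hall P hP
  obtain ⟨N, hN⟩ := exists_nat_gt (w t)
  set lam := w t with hlam
  let f : H := a * t⁻¹ * a⁻¹
  let g : H := (a ^ N)⁻¹ * t * a ^ N
  have rho_f : ∀ x, rho f x = (x - 1) / lam + 1 := by
    intro x
    simp only [f]
    rw [rho_mul, rho_mul, rho_ainv, rho_tinv, rho_a]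
  have rho_finv : ∀ x, rho f⁻¹ x = lam * (x - 1) + 1 := by
    intro x
    have hf : f⁻¹ = a * t * a⁻¹ := by simp only [f]; group
    rw [hf, rho_mul, rho_mul, rho_ainv, rho_t, rho_a]
  have rho_g : ∀ x, rho g x = lam * (x + N) - N := by
    intro x
    simp only [g]
    rw [rho_mul, rho_mul, rho_apow, rho_t, rho_apowinv]
  have rho_ginv : ∀ x, rho g⁻¹ x = (x + N) / lam - N := by
    intro x
    have hg : g⁻¹ = (a ^ N)⁻¹ * t⁻¹ * a ^ N := by simp only [g]; group
    rw [hg, rho_mul, rho_mul, rho_apow, rho_tinv, rho_apowinv]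
  have hf : f ∈ P := by
    left
    rw [← rho_zero, rho_f]
    have : (0 - 1) / lam + 1 = (lam - 1) / lam := by field_simp; ring
    rw [this]
    exact div_pos (by linarith) hl
  have hg : g * f⁻¹ ∈ P := by
    left
    rw [← rho_zero, rho_mul, rho_finv, rho_g]
    have : lam * (lam * (0 - 1) + 1 + N) - N = (lam - 1) * (N - lam) := by ring
    rw [this]
    exact mul_pos (by linarith) (by linarith)
  obtain ⟨m, hm1, hm⟩ := hcon f g hf hg
  have hpow : ∀ (k : ℕ) (x : ℝ), x < -N → rho (g ^ k) x < -N := by
    intro k
    induction k with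
    | zero => intro x hx; simpa [rho, w1, c1] using hx
    | succ k ih =>
      intro x hx
      rw [pow_succ, rho_mul]
      apply ih
      rw [rho_g]
      have : lam * (x + N) < 0 := mul_neg_of_pos_of_neg hl (by linarith)
      linarith
  have hneg : c (f * g ^ m * f⁻¹ * g⁻¹) < 0 := by
    rw [← rho_zero, rho_mul, rho_mul, rho_mul, rho_ginv, rho_finv]
    have hx : lam * ((0 + (N : ℝ)) / lam - N - 1) + 1 < -N := by
      have : lam * ((0 + (N : ℝ)) / lam - N - 1) + 1 = N - lam * N - lam + 1 := by
        field_simp; ring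
      rw [this]
      have hN0 : (0 : ℝ) ≤ N := Nat.cast_nonneg N
      nlinarith
    have h2 := hpow m _ hx
    rw [rho_f]
    generalize rho (g ^ m) (lam * ((0 + (N : ℝ)) / lam - N - 1) + 1) = y at h2
    have : (y - 1) / lam + 1 = (y - 1 + lam) / lam := by field_simp
    rw [this]
    exact div_neg_of_neg_of_pos (by linarith) hl
  rcases hm with hm | ⟨hm, _⟩
  · linarith
  · linarith

end ConradSol
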