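import Pool.Agent.Helper277.Inherit

set_option autoImplicit false

namespace ConradSol

universe u v



/-- TARGET: ℝ is an injective module over a domain embedded in ℝ -/
theorem exists_equivariant {S V : Type u} [CommRing S] [AddCommGroup V] [Module S V]
    (ev : S →+* ℝ) (hinj : Function.Injective ev) (a : V) (ha : ∀ s : S, s • a = 0 → s = 0) :
    ∃ f : V →+ ℝ, (∀ (s : S) (v : V), f (s • v) = ev s * f v) ∧ f a = 1 := by
  letI : Module S ℝ := Module.compHom ℝ ev
  have hsm : ∀ (s : S) (r : ℝ), s • r = ev s * r := fun s r => rfl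
  have hB : Module.Baer S ℝ := by
    intro I g
    by_cases hI : ∃ x ∈ I, x ≠ 0
    · obtain ⟨x, hxI, hx0⟩ := hI
      have hevx : ev x ≠ 0 := by
        intro h
        exact hx0 (hinj (by rw [h, map_zero]))
      refine ⟨LinearMap.toSpanSingleton S ℝ (g ⟨x, hxI⟩ / ev x), ?_⟩
      intro y hy
      rw [LinearMap.toSpanSingleton_apply, hsm]
      have h1 : ev x * g ⟨y, hy⟩ = ev y * g ⟨x, hxI⟩ := by
        rw [← hsm, ← hsm, ← map_smul, ← map_smul]
        congr 1
        apply Subtype.ext
        change x * y = y * x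
        exact mul_comm _ _
      rw [← mul_div_assoc, div_eq_iff hevx, ← h1, mul_comm]
    · refine ⟨0, ?_⟩
      intro y hy
      have hy0 : y = 0 := by
        by_contra h
        exact hI ⟨y, hy, h⟩
      subst hy0
      have : (⟨0, hy⟩ : I) = 0 := rfl
      rw [this, map_zero, map_zero]
  let i : S →ₗ[S] V := LinearMap.toSpanSingleton S V a
  have hi : Function.Injective i := by
    intro s t hst
    have h1 : (s - t) • a = 0 := by
      rw [sub_smul]
      have : s • a = t • a := hst
      rw [this, sub_self]
    exact sub_eq_zero.mp (ha _ h1)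
  let g0 : S →ₗ[S] ℝ := LinearMap.toSpanSingleton S ℝ (1 : ℝ)
  obtain ⟨f, hf⟩ := hB.extension_property i hi g0
  refine ⟨f.toAddMonoidHom, ?_, ?_⟩
  · intro s v
    change f (s • v) = ev s * f v
    rw [map_smul, hsm]
  · have h1 := congrArg (fun φ => φ (1 : S)) hf
    simp only [LinearMap.comp_apply, i, g0, LinearMap.toSpanSingleton_apply, one_smul] at h1
    exact h1

end ConradSol
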