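import Pool.Agent.Helper277.Inherit

set_option autoImplicit false

namespace ConradSol

universe u v




lemma eri_poly {mu : ℝ} (hmu : Transcendental ℤ mu) {ι : Type*} (S : Finset ι) (c : ι → ℤ)
    (e : ι → ℕ) (he : ∀ i ∈ S, ∀ j ∈ S, e i = e j → i = j)
    (h : ∑ i ∈ S, (c i : ℝ) * mu ^ (e i) = 0) : ∀ i ∈ S, c i = 0 := by
  classical
  let p : Polynomial ℤ := ∑ i ∈ S, Polynomial.monomial (e i) (c i)
  have hp : Polynomial.aeval mu p = 0 := by
    rw [← h]
    simp only [p, map_sum, Polynomial.aeval_monomial]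
    apply Finset.sum_congr rfl
    intro i _
    simp
  have hp0 : p = 0 := by
    by_contra hne
    exact hmu ⟨p, hne, hp⟩
  intro i hi
  have hc : p.coeff (e i) = c i := by
    simp only [p, Polynomial.finsetSum_coeff, Polynomial.coeff_monomial]
    rw [Finset.sum_eq_single i]
    · simp
    · intro j hj hji
      rw [if_neg]
      intro hh
      exact hji (he j hj i hi hh)
    · intro hni
      exact absurd hi hni
  rw [← hc, hp0, Polynomial.coeff_zero]

/-- TARGET: real powers of a transcendental number are independent over ℤ -/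
theorem exists_real_independent : ∃ lam : ℝ, 2 ≤ lam ∧
    ∀ s : ℚ →₀ ℤ, s.sum (fun q c => (c : ℝ) * lam ^ (q : ℝ)) = 0 → s = 0 := by
  classical
  obtain ⟨t, ht⟩ : ∃ t : ℝ, Transcendental ℤ t :=
    ⟨_, transcendental_liouvilleNumber (le_refl 2)⟩
  set k : ℤ := ⌈2 - t⌉ with hk
  refine ⟨t + k, ?_, ?_⟩
  · have := Int.le_ceil (2 - t)
    linarith
  intro s hs
  have hlam2 : (2 : ℝ) ≤ t + k := by
    have := Int.le_ceil (2 - t)
    linarith
  have hlamT : Transcendental ℤ (t + k) := by
    intro hA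
    apply ht
    have h1 : IsAlgebraic ℤ ((t + k) - (k : ℝ)) := hA.sub (isAlgebraic_intCast k)
    rwa [add_sub_cancel_right] at h1
  set lam : ℝ := t + k with hlam
  have hlam0 : 0 < lam := by linarith
  -- common denominator
  set N : ℕ := ∏ q ∈ s.support, q.den with hN
  have hN0 : 0 < N := Finset.prod_pos fun q _ => q.den_pos
  have hNr : (N : ℝ) ≠ 0 := by exact_mod_cast hN0.ne'
  set mu : ℝ := lam ^ (1 / (N : ℝ)) with hmu
  have hmu0 : 0 < mu := Real.rpow_pos_of_pos hlam0 _
  have hmuN : mu ^ (N : ℝ) = lam := by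
    rw [hmu, ← Real.rpow_mul hlam0.le, one_div_mul_cancel hNr, Real.rpow_one]
  have hmuT : Transcendental ℤ mu := by
    intro hA
    apply hlamT
    rw [← hmuN, Real.rpow_natCast]
    exact hA.pow N
  let a : ℚ → ℤ := fun q => ((N / q.den : ℕ) : ℤ) * q.num
  have ha : ∀ q ∈ s.support, (a q : ℚ) = N * q := by
    intro q hq
    obtain ⟨m, hm⟩ : q.den ∣ N := Finset.dvd_prod_of_mem _ hq
    have h1 : N / q.den = m := by rw [hm]; exact Nat.mul_div_cancel_left m q.den_pos
    simp only [a]
    rw [h1, hm]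
    push_cast
    have h2 : (q.num : ℚ) = q.den * q := by
      rw [mul_comm]; exact (Rat.mul_den_eq_num q).symm
    rw [h2]; ring
  let K : ℕ := ∑ q ∈ s.support, (a q).natAbs
  have hK : ∀ q ∈ s.support, 0 ≤ a q + K := by
    intro q hq
    have h1 : (a q).natAbs ≤ K :=
      Finset.single_le_sum (f := fun q => (a q).natAbs) (fun _ _ => Nat.zero_le _) hq
    omega
  let e : ℚ → ℕ := fun q => (a q + K).toNat
  have he : ∀ q ∈ s.support, ((e q : ℕ) : ℤ) = a q + K := by
    intro q hq
    exact Int.toNat_of_nonneg (hK q hq)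
  have hinj : ∀ q ∈ s.support, ∀ r ∈ s.support, e q = e r → q = r := by
    intro q hq r hr hqr
    have h1 : a q = a r := by
      have h2 := he q hq
      have h3 := he r hr
      rw [hqr] at h2
      omega
    have h4 : (N : ℚ) * q = N * r := by rw [← ha q hq, ← ha r hr, h1]
    have h5 : (N : ℚ) ≠ 0 := by exact_mod_cast hN0.ne'
    exact mul_left_cancel₀ h5 h4
  have hpow : ∀ q ∈ s.support, lam ^ (q : ℝ) * mu ^ K = mu ^ (e q) := by
    intro q hq
    have h1 : lam ^ (q : ℝ) = mu ^ ((a q : ℤ) : ℝ) := by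
      have h2 : ((a q : ℤ) : ℝ) = (N : ℝ) * (q : ℝ) := by
        have := ha q hq
        exact_mod_cast this
      rw [h2, Real.rpow_mul hmu0.le, hmuN]
    rw [h1, ← Real.rpow_natCast mu K, ← Real.rpow_add hmu0, ← Real.rpow_natCast mu (e q)]
    congr 1
    have h3 := he q hq
    exact_mod_cast h3.symm
  have hsum : ∑ q ∈ s.support, (s q : ℝ) * mu ^ (e q) = 0 := by
    have h1 : (∑ q ∈ s.support, (s q : ℝ) * lam ^ (q : ℝ)) * mu ^ K = 0 := by
      have h2 : ∑ q ∈ s.support, (s q : ℝ) * lam ^ (q : ℝ) = 0 := hs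
      rw [h2, zero_mul]
    rw [Finset.sum_mul] at h1
    rw [← h1]
    apply Finset.sum_congr rfl
    intro q hq
    rw [← hpow q hq]; ring
  have hz := eri_poly hmuT s.support s e hinj hsum
  ext q
  by_cases hq : q ∈ s.support
  · rw [hz q hq]; rfl
  · rw [Finsupp.notMem_support_iff.1 hq]; rfl

end ConradSol
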