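import Pool.Agent.Helper277.Inherit

set_option autoImplicit false

namespace ConradSol

universe u v




lemma j7_two {Q : Type u} [CommGroup Q] (π : Q →* Multiplicative ℚ) (hπ : Function.Injective π)
    (x y : Q) : ∃ (g : Q) (m n : ℤ), x = g ^ m ∧ y = g ^ n := by
  -- common denominator
  set a : ℚ := Multiplicative.toAdd (π x) with ha
  set b : ℚ := Multiplicative.toAdd (π y) with hb
  have hD : ((a.den * b.den : ℕ) : ℚ) ≠ 0 := by
    exact_mod_cast Nat.mul_ne_zero a.den_ne_zero b.den_ne_zero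
  set D : ℚ := ((a.den * b.den : ℕ) : ℚ) with hDdef
  have hA : ((a.num * b.den : ℤ) : ℚ) = a * D := by
    rw [hDdef]
    push_cast
    have := Rat.mul_den_eq_num a
    rw [← mul_assoc, this]
  have hB : ((b.num * a.den : ℤ) : ℚ) = b * D := by
    rw [hDdef]
    push_cast
    have := Rat.mul_den_eq_num b
    rw [mul_comm (a.den : ℚ), ← mul_assoc, this]
  set A : ℤ := a.num * b.den with hAdef
  set B : ℤ := b.num * a.den with hBdef
  set G : ℤ := (Int.gcd A B : ℤ) with hG
  have hbez : G = A * Int.gcdA A B + B * Int.gcdB A B := Int.gcd_eq_gcd_ab A B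
  obtain ⟨m, hm⟩ : G ∣ A := Int.gcd_dvd_left ..
  obtain ⟨n, hn⟩ : G ∣ B := Int.gcd_dvd_right ..
  refine ⟨x ^ (Int.gcdA A B) * y ^ (Int.gcdB A B), m, n, ?_, ?_⟩
  · apply hπ
    rw [map_zpow, map_mul, map_zpow, map_zpow]
    apply Multiplicative.toAdd.injective
    show a = m • (Int.gcdA A B • a + Int.gcdB A B • b)
    simp only [zsmul_eq_mul]
    have h1 : a * D = (m : ℚ) * (((Int.gcdA A B : ℤ) : ℚ) * a + ((Int.gcdB A B : ℤ) : ℚ) * b) * D := by
      have h2 : (m : ℚ) * (((Int.gcdA A B : ℤ) : ℚ) * a + ((Int.gcdB A B : ℤ) : ℚ) * b) * D =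
        (m : ℚ) * (((Int.gcdA A B : ℤ) : ℚ) * (a * D) + ((Int.gcdB A B : ℤ) : ℚ) * (b * D)) := by ring
      rw [h2, ← hA, ← hB]
      have h3 : A = m * (Int.gcdA A B * A + Int.gcdB A B * B) := by
        rw [mul_comm (Int.gcdA A B) A, mul_comm (Int.gcdB A B) B, ← hbez, mul_comm]
        exact hm
      exact_mod_cast h3
    exact mul_right_cancel₀ hD h1
  · apply hπ
    rw [map_zpow, map_mul, map_zpow, map_zpow]
    apply Multiplicative.toAdd.injective
    show b = n • (Int.gcdA A B • a + Int.gcdB A B • b)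
    simp only [zsmul_eq_mul]
    have h1 : b * D = (n : ℚ) * (((Int.gcdA A B : ℤ) : ℚ) * a + ((Int.gcdB A B : ℤ) : ℚ) * b) * D := by
      have h2 : (n : ℚ) * (((Int.gcdA A B : ℤ) : ℚ) * a + ((Int.gcdB A B : ℤ) : ℚ) * b) * D =
        (n : ℚ) * (((Int.gcdA A B : ℤ) : ℚ) * (a * D) + ((Int.gcdB A B : ℤ) : ℚ) * (b * D)) := by ring
      rw [h2, ← hA, ← hB]
      have h3 : B = n * (Int.gcdA A B * A + Int.gcdB A B * B) := by
        rw [mul_comm (Int.gcdA A B) A, mul_comm (Int.gcdB A B) B, ← hbez, mul_comm]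
        exact hn
      exact_mod_cast h3
    exact mul_right_cancel₀ hD h1

lemma j7_fin {Q : Type u} [CommGroup Q] (π : Q →* Multiplicative ℚ) (hπ : Function.Injective π)
    (F : Finset Q) : ∃ g : Q, ∀ q ∈ F, ∃ n : ℤ, q = g ^ n := by
  classical
  induction F using Finset.induction_on with
  | empty => exact ⟨1, by simp⟩
  | insert q F _ ih =>
    obtain ⟨g, hg⟩ := ih
    obtain ⟨g', m, n, h1, h2⟩ := j7_two π hπ g q
    refine ⟨g', ?_⟩
    intro r hr
    rcases Finset.mem_insert.1 hr with rfl | hr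
    · exact ⟨n, h2⟩
    · obtain ⟨j, hj⟩ := hg r hr
      refine ⟨m * j, ?_⟩
      rw [zpow_mul, ← h1]
      exact hj

lemma j7_bound {V : Type u} [AddCommGroup V] [LinearOrder V] [IsOrderedAddMonoid V]
    (T : AddMonoid.End V) (hT : ∀ v : V, |T v| ≤ 2 • |v|) (r : Polynomial ℤ) (v : V) :
    ∃ N : ℕ, |(Polynomial.aeval T r) v| ≤ N • |v| := by
  have hpow : ∀ n : ℕ, |(T ^ n) v| ≤ (2 ^ n) • |v| := by
    intro n
    induction n with
    | zero => simp
    | succ n ih =>
      rw [pow_succ' T, pow_succ' 2]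
      show |T ((T ^ n) v)| ≤ _
      calc |T ((T ^ n) v)| ≤ 2 • |(T ^ n) v| := hT _
        _ ≤ 2 • ((2 ^ n) • |v|) := nsmul_le_nsmul_right ih 2
        _ = (2 * 2 ^ n) • |v| := by rw [mul_nsmul']
  induction r using Polynomial.induction_on' with
  | add p q hp hq =>
    obtain ⟨N, hN⟩ := hp
    obtain ⟨M, hM⟩ := hq
    refine ⟨N + M, ?_⟩
    rw [map_add, add_nsmul]
    exact (abs_add_le _ _).trans (add_le_add hN hM)
  | monomial n c =>
    refine ⟨c.natAbs * 2 ^ n, ?_⟩
    have h1 : (Polynomial.aeval T (Polynomial.monomial n c)) v = c • ((T ^ n) v) := by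
      rw [Polynomial.aeval_monomial, ← Algebra.smul_def]
      rfl
    rw [h1, abs_zsmul, mul_nsmul']
    have h2 : |c| • |(T ^ n) v| = c.natAbs • |(T ^ n) v| := by
      rw [Int.abs_eq_natAbs, natCast_zsmul]
    rw [h2]
    exact nsmul_le_nsmul_right (hpow n) _

/-- TARGET: in a centrally ordered module over a rank one group, a non-unipotent vector is
non-torsion -/
theorem module_torsionFree {Q : Type u} {V : Type u} [CommGroup Q] [AddCommGroup V]
    [LinearOrder V] [IsOrderedAddMonoid V] (ρ : Q →* AddMonoid.End V)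
    (hcent : ∀ (q : Q) (v : V), 0 < v → ∀ k : ℤ, k • (ρ q v - v) < v)
    (π : Q →* Multiplicative ℚ) (hπ : Function.Injective π) (t : Q) (ht : π t = Multiplicative.ofAdd 1)
    (a : V) (ha : ∀ m : ℕ, (fun v => ρ t v - v)^[m] a ≠ 0)
    (s : Q →₀ ℤ) (hs : s.sum (fun q c => c • ρ q a) = 0) : s = 0 := by
  classical
  by_contra hs0
  -- a common root
  obtain ⟨g, hg, k, hk⟩ : ∃ g : Q, (∀ q ∈ s.support, ∃ n : ℤ, q = g ^ n) ∧ ∃ k : ℕ, t = g ^ k := by
    obtain ⟨g, hg⟩ := j7_fin π hπ (insert t s.support)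
    obtain ⟨k, hk⟩ := hg t (Finset.mem_insert_self _ _)
    rcases Int.eq_nat_or_neg k with ⟨j, hj | hj⟩
    · refine ⟨g, fun q hq => hg q (Finset.mem_insert_of_mem hq), j, ?_⟩
      rw [hk, hj, zpow_natCast]
    · refine ⟨g⁻¹, fun q hq => ?_, j, ?_⟩
      · obtain ⟨n, hn⟩ := hg q (Finset.mem_insert_of_mem hq)
        refine ⟨-n, ?_⟩
        rw [inv_zpow', neg_neg]
        exact hn
      · rw [hk, hj, zpow_neg, inv_pow, zpow_natCast]
  choose! n hn using hg
  set T : AddMonoid.End V := ρ g with hTdef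
  have hTv : ∀ v : V, |T v| ≤ 2 • |v| := by
    have hpos : ∀ v : V, 0 < v → |T v| ≤ 2 • |v| := by
      intro v hv
      have h1 := hcent g v hv 1
      have h2 := hcent g v hv (-1)
      rw [one_zsmul] at h1
      rw [neg_one_zsmul] at h2
      have h3 : 0 < T v := by
        have h4 : v - T v < v := by
          have h5 : v - T v = -(T v - v) := by abel
          rw [h5]
          exact h2
        simpa using h4
      rw [abs_of_pos h3, abs_of_pos hv, two_nsmul]
      have h6 : T v < v + v := sub_lt_iff_lt_add.1 h1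
      exact h6.le
    intro v
    rcases lt_trichotomy v 0 with hv | hv | hv
    · have h1 := hpos (-v) (neg_pos.2 hv)
      rw [map_neg, abs_neg, abs_neg] at h1
      exact h1
    · rw [hv]
      simp
    · exact hpos v hv
  -- the exponents
  obtain ⟨N, hN⟩ : ∃ N : ℕ, ∀ q ∈ s.support, 0 ≤ n q + N := by
    refine ⟨∑ q ∈ s.support, (n q).natAbs, ?_⟩
    intro q hq
    have h1 : (n q).natAbs ≤ ∑ q ∈ s.support, (n q).natAbs :=
      Finset.single_le_sum (f := fun q => (n q).natAbs) (fun _ _ => Nat.zero_le _) hq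
    have h2 : ((n q).natAbs : ℤ) ≤ ((∑ q ∈ s.support, (n q).natAbs : ℕ) : ℤ) := by
      exact_mod_cast h1
    have h3 : -((n q).natAbs : ℤ) ≤ n q := by omega
    omega
  let p : Polynomial ℤ := ∑ q ∈ s.support, Polynomial.monomial (n q + N).toNat (s q)
  have hp0 : p ≠ 0 := by
    obtain ⟨q0, hq0⟩ := Finsupp.support_nonempty_iff.2 hs0
    intro h
    have h1 : p.coeff (n q0 + N).toNat = s q0 := by
      show (∑ q ∈ s.support, Polynomial.monomial (n q + N).toNat (s q)).coeff _ = _
      rw [Polynomial.finsetSum_coeff]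
      rw [Finset.sum_eq_single q0]
      · simp
      · intro q hq hne
        rw [Polynomial.coeff_monomial, if_neg]
        intro h2
        apply hne
        have h3 := hN q hq
        have h4 := hN q0 hq0
        have h5 : n q = n q0 := by omega
        rw [hn q hq, hn q0 hq0, h5]
      · intro h2
        exact absurd hq0 h2
    rw [h, Polynomial.coeff_zero] at h1
    exact (Finsupp.mem_support_iff.1 hq0) h1.symm
  have hev : ∀ (F : Finset Q) (f : Q → AddMonoid.End V), (∑ q ∈ F, f q) a = ∑ q ∈ F, f q a := by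
    intro F f
    induction F using Finset.induction_on with
    | empty => rfl
    | insert q F hq ih =>
      rw [Finset.sum_insert hq, Finset.sum_insert hq, ← ih]
      rfl
  have hpa : (Polynomial.aeval T p) a = 0 := by
    have h1 : (Polynomial.aeval T p) a = ∑ q ∈ s.support, s q • (T ^ (n q + N).toNat) a := by
      show (Polynomial.aeval T (∑ q ∈ s.support, Polynomial.monomial (n q + N).toNat (s q))) a = _
      rw [map_sum, hev]
      refine Finset.sum_congr rfl (fun q _ => ?_)
      rw [Polynomial.aeval_monomial, ← Algebra.smul_def]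
      rfl
    have h2 : ∀ q ∈ s.support, s q • (T ^ (n q + N).toNat) a = ρ (g ^ N) (s q • ρ q a) := by
      intro q hq
      rw [map_zsmul]
      congr 1
      have h3 : T ^ (n q + N).toNat = ρ (g ^ N) * ρ q := by
        rw [hTdef, ← map_pow, ← map_mul]
        congr 1
        rw [← zpow_natCast g (n q + N).toNat, Int.toNat_of_nonneg (hN q hq), zpow_add,
          zpow_natCast, mul_comm]
        congr 1
        exact (hn q hq).symm
      rw [h3]
      rfl
    rw [h1, Finset.sum_congr rfl h2, ← map_sum]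
    have h4 : ∑ q ∈ s.support, s q • ρ q a = 0 := hs
    rw [h4, map_zero]
  set D : AddMonoid.End V := T - 1 with hD
  have hDm : ∀ m : ℕ, (D ^ m) a ≠ 0 := by
    intro m hm
    have h1 : ∀ m : ℕ, ∀ v : V, ((ρ t - 1) ^ m) v = (fun v => ρ t v - v)^[m] v := by
      intro m
      induction m with
      | zero => intro v; rfl
      | succ m ih =>
        intro v
        rw [pow_succ, Function.iterate_succ_apply]
        show ((ρ t - 1) ^ m) ((ρ t - 1) v) = _
        rw [ih]
        rfl
    apply ha m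
    rw [← h1]
    obtain ⟨C, hC⟩ : ∃ C : AddMonoid.End V, ρ t - 1 = C * D ∧ Commute C D := by
      refine ⟨∑ i ∈ Finset.range k, T ^ i, ?_, ?_⟩
      · rw [hk, map_pow, hD, geom_sum_mul]
      · apply Commute.sum_left
        intro i _
        rw [hD]
        exact ((Commute.refl T).pow_left i).sub_right (Commute.one_right _)
    rw [hC.1, hC.2.mul_pow]
    show (C ^ m) ((D ^ m) a) = 0
    rw [hm, map_zero]
  obtain ⟨q, hq1, hq2⟩ := Polynomial.exists_eq_pow_rootMultiplicity_mul_and_not_dvd p hp0 1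
  set m := Polynomial.rootMultiplicity 1 p with hmdef
  set c : ℤ := q.eval 1 with hc
  have hc0 : c ≠ 0 := by
    intro h
    apply hq2
    rw [Polynomial.dvd_iff_isRoot]
    exact h
  set a' : V := (D ^ m) a with ha'
  have ha'0 : a' ≠ 0 := hDm m
  have hX : Polynomial.aeval T ((Polynomial.X - Polynomial.C 1 : Polynomial ℤ)) = D := by
    simp [hD]
  have hqa : (Polynomial.aeval T q) a' = 0 := by
    have h1 : Polynomial.aeval T p = Polynomial.aeval T q * D ^ m := by
      conv_lhs => rw [hq1]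
      rw [mul_comm, map_mul, map_pow, hX]
    rw [h1] at hpa
    exact hpa
  obtain ⟨r, hr⟩ := Polynomial.X_sub_C_dvd_sub_C_eval (p := q) (a := 1)
  set w : V := (Polynomial.aeval T r) a' with hw
  have h0 : c • a' = -(D w) := by
    have h1 : q = Polynomial.C c + (Polynomial.X - Polynomial.C 1) * r := by
      rw [← hr]
      ring
    have h2 : Polynomial.aeval T q = Polynomial.aeval T (Polynomial.C c) + D * Polynomial.aeval T r := by
      conv_lhs => rw [h1]
      rw [map_add, map_mul, hX]
    rw [h2] at hqa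
    have h3 : (Polynomial.aeval T (Polynomial.C c : Polynomial ℤ)) a' = c • a' := by
      rw [Polynomial.aeval_C, Algebra.algebraMap_eq_smul_one]
      rfl
    have h4 : (Polynomial.aeval T (Polynomial.C c : Polynomial ℤ)) a' + D w = 0 := hqa
    rw [h3] at h4
    exact eq_neg_of_add_eq_zero_left h4
  obtain ⟨M, hM⟩ := j7_bound T hTv r a'
  have hca : |a'| ≤ |c • a'| := by
    rw [abs_zsmul]
    have h1 : 1 ≤ |c| := Int.one_le_abs hc0
    calc |a'| = (1 : ℤ) • |a'| := (one_zsmul _).symm
      _ ≤ |c| • |a'| := zsmul_le_zsmul_left (abs_nonneg _) h1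
  by_cases hw0 : w = 0
  · rw [hw0, map_zero, neg_zero] at h0
    rw [h0, abs_zero] at hca
    exact ha'0 (abs_nonpos_iff.1 hca)
  · have hwpos : 0 < |w| := abs_pos.2 hw0
    have h1 : ∀ k : ℤ, k • (D w) < |w| := by
      intro k
      rcases lt_or_gt_of_ne hw0 with hneg | hpos
      · have h2 := hcent g |w| hwpos (-k)
        rw [abs_of_neg hneg] at h2 ⊢
        have h3 : -k • (ρ g (-w) - -w) = k • (D w) := by
          show -k • (ρ g (-w) - -w) = k • (ρ g w - w)
          rw [map_neg, neg_smul, ← smul_neg]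
          congr 1
          abel
        rw [h3] at h2
        exact h2
      · have h2 := hcent g |w| hwpos k
        rw [abs_of_pos hpos] at h2 ⊢
        exact h2
    have h2 : M • |D w| < |w| := by
      rcases le_total 0 (D w) with h3 | h3
      · rw [abs_of_nonneg h3]
        have := h1 M
        rwa [natCast_zsmul] at this
      · rw [abs_of_nonpos h3]
        have := h1 (-M)
        rwa [neg_smul, ← smul_neg, natCast_zsmul] at this
    have h3 : M • |D w| < M • |a'| := lt_of_lt_of_le h2 hM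
    have h4 : |D w| < |a'| := by
      by_contra h5
      exact absurd (nsmul_le_nsmul_right (not_lt.1 h5) M) (not_le.2 h3)
    rw [h0, abs_neg] at hca
    exact absurd hca (not_le.2 h4)

end ConradSol
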