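import Pool.Agent.Helper277.Chain

set_option autoImplicit false

namespace ConradSol

universe u v

lemma Orderable.torsionFree {G : Type u} [Group G] (h : Orderable G) (x : G) (n : ℕ)
    (hn : 1 ≤ n) (hx : x ^ n = 1) : x = 1 := by
  obtain ⟨P, hP⟩ := h
  exact hP.toCone.pow_eq_one hn hx

/-- in an orderable group, elements commuting with a power commute -/
lemma Orderable.commute_of_pow {G : Type u} [Group G] (h : Orderable G) {x y : G} {n : ℕ}
    (hn : 1 ≤ n) (hx : x * y ^ n = y ^ n * x) : x * y = y * x := by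
  obtain ⟨P, hP⟩ := h
  let _ := hP.linearOrder
  have _ := hP.mulLeft
  have _ := hP.mulRight
  have key : (x * y * x⁻¹) ^ n = y ^ n := by
    rw [conj_pow, hx, mul_inv_cancel_right]
  have hpow : ∀ a b : G, a < b → a ^ n < b ^ n := fun a b hab =>
    pow_lt_pow_left' (by omega) hab
  have h1 : x * y * x⁻¹ = y := by
    rcases lt_trichotomy (x * y * x⁻¹) y with h | h | h
    · exact absurd key (hpow _ _ h).ne
    · exact h
    · exact absurd key (hpow _ _ h).ne'
  exact mul_inv_eq_iff_eq_mul.mp h1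

/-- root closure of an abelian normal subgroup -/
lemma exists_rootClosure {L : Type u} [Group L] (hL : Orderable L) (A : Subgroup L) [A.Normal]
    (hA : ∀ x ∈ A, ∀ y ∈ A, x * y = y * x) :
    ∃ I : Subgroup L, I.Normal ∧ (∀ x ∈ I, ∀ y ∈ I, x * y = y * x) ∧
      (∀ g, g ∈ I ↔ ∃ k : ℕ, 1 ≤ k ∧ g ^ k ∈ A) := by
  have hcomm : ∀ x y : L, (∃ k : ℕ, 1 ≤ k ∧ x ^ k ∈ A) → (∃ k : ℕ, 1 ≤ k ∧ y ^ k ∈ A) →
      x * y = y * x := by
    rintro x y ⟨k, hk, hx⟩ ⟨l, hl, hy⟩
    apply hL.commute_of_pow hl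
    have := hL.commute_of_pow (x := y ^ l) (y := x) hk (hA _ hy _ hx)
    exact this.symm
  refine ⟨{ carrier := {g | ∃ k : ℕ, 1 ≤ k ∧ g ^ k ∈ A}
            mul_mem' := ?_
            one_mem' := ⟨1, le_rfl, by simp [A.one_mem]⟩
            inv_mem' := ?_ }, ⟨?_⟩, ?_, fun g => Iff.rfl⟩
  · intro x y hx hy
    have hc : Commute x y := hcomm x y hx hy
    obtain ⟨k, hk, hx⟩ := hx
    obtain ⟨l, hl, hy⟩ := hy
    refine ⟨k * l, Nat.mul_pos hk hl, ?_⟩
    rw [hc.mul_pow, pow_mul]
    refine A.mul_mem (A.pow_mem hx l) ?_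
    rw [mul_comm k l, pow_mul]
    exact A.pow_mem hy k
  · rintro x ⟨k, hk, hx⟩
    refine ⟨k, hk, ?_⟩
    rw [inv_pow]
    exact A.inv_mem hx
  · rintro x ⟨k, hk, hx⟩ g
    refine ⟨k, hk, ?_⟩
    rw [conj_pow]
    exact Subgroup.Normal.conj_mem inferInstance _ hx g
  · intro x hx y hy
    exact hcomm x y hx hy

lemma exists_cone_ab : ∀ (A : Type u) [Group A], (∀ a b : A, a * b = b * a) →
      (∀ (a : A) (n : ℕ), 1 ≤ n → a ^ n = 1 → a = 1) → ∃ Q : Set A, BiCone Q :=
    fun _ _ h1 h2 => exists_cone_of_torsionFree h1 h2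

lemma derivedSeries_bot_of_injective {G : Type u} {K : Type v} [Group G] [Group K] (f : K →* G)
    (hf : Function.Injective f) {d : ℕ} (hd : derivedSeries G d = ⊥) : derivedSeries K d = ⊥ := by
  have h1 := map_derivedSeries_le_derivedSeries f d
  rw [hd, le_bot_iff, Subgroup.map_eq_bot_iff_of_injective _ hf] at h1
  exact h1

/-- the induction step of the main theorem -/
theorem main_step (d : ℕ)
    (IH : ∀ (G : Type u) [Group G], OX G → derivedSeries G d = ⊥ →
      ∀ (F : Type u) [Group F] [Group.FG F] (φ : F →* G),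
        ∃ n, (⊤ : Subgroup F).lowerCentralSeries n ≤ φ.ker)
    (G : Type u) [Group G] (hG : OX G) (hd : derivedSeries G (d + 1) = ⊥)
    (V : ℕ → Subgroup G) [hVn : ∀ n, (V n).Normal] (hV : ∀ x, (∀ n, x ∈ V n) → x = 1)
    (hVo : ∀ n, Orderable (G ⧸ V n)) (F : Type u) [Group F] [Group.FG F] (φ : F →* G)
    (hφ : ∀ n, ((⊤ : Subgroup F).lowerCentralSeries (n + 1)).map φ ≤ V n) :
    ∃ n, (⊤ : Subgroup F).lowerCentralSeries n ≤ φ.ker := by
  -- nilpotent relatively convex subgroups in the quotients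
  have hL : ∀ n, ∃ L : Subgroup (G ⧸ V n), RC L ∧ Group.IsNilpotent L ∧
      ∀ f : F, ((φ f : G) : G ⧸ V n) ∈ L := by
    intro n
    have hnil : Group.IsNilpotent (F ⧸ (⊤ : Subgroup F).lowerCentralSeries (n + 1)) := by
      rw [Subgroup.nilpotent_iff_lowerCentralSeries]
      refine ⟨n + 1, ?_⟩
      have := Subgroup.map_lowerCentralSeries (⊤ : Subgroup F)
        (QuotientGroup.mk' ((⊤ : Subgroup F).lowerCentralSeries (n + 1))) (n + 1)
      rw [Subgroup.map_top_of_surjective _ (QuotientGroup.mk'_surjective _)] at this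
      rw [← this, Subgroup.map_eq_bot_iff, QuotientGroup.ker_mk']
    let φn : F ⧸ (⊤ : Subgroup F).lowerCentralSeries (n + 1) →* G ⧸ V n :=
      QuotientGroup.lift _ ((QuotientGroup.mk' (V n)).comp φ) (by
        intro x hx
        rw [MonoidHom.mem_ker, MonoidHom.comp_apply, QuotientGroup.mk'_apply,
          QuotientGroup.eq_one_iff]
        exact hφ n ⟨x, hx, rfl⟩)
    obtain ⟨L, h1, h2, h3⟩ := exists_nilpotent_RC _ (G ⧸ V n) (hG.quotient _ (hVo n)) φn
    exact ⟨L, h1, h2, fun f => h3 ⟨(f : F ⧸ _), rfl⟩⟩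
  choose L hLRC hLnil hLφ using hL
  set K : Subgroup G := ⨅ n, (L n).comap (QuotientGroup.mk' (V n)) with hK
  have hKmem : ∀ x : G, x ∈ K → ∀ n, (x : G ⧸ V n) ∈ L n := by
    intro x hx n
    rw [hK, Subgroup.mem_iInf] at hx
    exact hx n
  have hKRC : RC K := RC.iInf _ (fun n => RC.comap _ _ (hLRC n))
  have hKOX : OX K := hG.of_RC K hKRC
  have hφK : ∀ f, φ f ∈ K := by
    intro f
    rw [hK, Subgroup.mem_iInf]
    intro n
    exact hLφ n f
  let φK : F →* K := φ.codRestrict K hφK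
  -- the maps to the quotients
  let C : ℕ → Subgroup K := fun n => (V n).subgroupOf K
  have hCn : ∀ n, (C n).Normal := fun n => inferInstance
  have hCmem : ∀ n (x : K), x ∈ C n ↔ (x : G) ∈ V n := fun n x => Subgroup.mem_subgroupOf
  let ι : ∀ n, K ⧸ C n →* G ⧸ V n := fun n =>
    QuotientGroup.map (C n) (V n) K.subtype (fun x hx => hx)
  have hι : ∀ n, Function.Injective (ι n) := by
    intro n
    rw [injective_iff_map_eq_one]
    intro q hq
    obtain ⟨x, rfl⟩ := QuotientGroup.mk_surjective q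
    have h1 : ((x : G) : G ⧸ V n) = 1 := hq
    rw [QuotientGroup.eq_one_iff] at h1 ⊢
    exact h1
  have hord : ∀ n, Orderable (K ⧸ C n) := fun n => (hVo n).of_injective (ι n) (hι n)
  have hnil : ∀ n, Group.IsNilpotent (K ⧸ C n) := by
    intro n
    have hmem : ∀ q, ι n q ∈ L n := by
      intro q
      obtain ⟨x, rfl⟩ := QuotientGroup.mk_surjective q
      exact hKmem x x.2 n
    let ι' : K ⧸ C n →* L n := (ι n).codRestrict (L n) hmem
    have _ := hLnil n
    refine Subgroup.isNilpotent_of_ker_le_center ι' ?_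
    intro x hx
    have : ι n x = 1 := congrArg Subtype.val hx
    have h2 : x = 1 := hι n (by rw [this, map_one])
    rw [h2]; exact Subgroup.one_mem _
  -- the last term of the derived series
  have hKd : derivedSeries K (d + 1) = ⊥ :=
    derivedSeries_bot_of_injective K.subtype K.subtype_injective hd
  set A : Subgroup K := derivedSeries K d with hA
  have hAn : A.Normal := derivedSeries_normal K d
  have hAcomm : ∀ x ∈ A, ∀ y ∈ A, x * y = y * x := by
    intro x hx y hy
    have h1 : x * y * x⁻¹ * y⁻¹ ∈ derivedSeries K (d + 1) :=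
      Subgroup.commutator_mem_commutator hx hy
    rw [hKd, Subgroup.mem_bot] at h1
    calc x * y = (x * y * x⁻¹ * y⁻¹) * (y * x) := by group
      _ = y * x := by rw [h1, one_mul]
  -- its closure
  have hI : ∀ n, ∃ I : Subgroup (K ⧸ C n), I.Normal ∧ (∀ x ∈ I, ∀ y ∈ I, x * y = y * x) ∧
      (∀ g, g ∈ I ↔ ∃ k : ℕ, 1 ≤ k ∧ g ^ k ∈ A.map (QuotientGroup.mk' (C n))) := by
    intro n
    have _ : (A.map (QuotientGroup.mk' (C n))).Normal :=
      Subgroup.Normal.map hAn _ (QuotientGroup.mk'_surjective _)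
    refine exists_rootClosure (hord n) _ ?_
    rintro _ ⟨x, hx, rfl⟩ _ ⟨y, hy, rfl⟩
    rw [← map_mul, ← map_mul, hAcomm x hx y hy]
  choose I hIn hIc hImem using hI
  let D : ℕ → Subgroup K := fun n => (I n).comap (QuotientGroup.mk' (C n))
  have hDn : ∀ n, (D n).Normal := fun n => (hIn n).comap _
  have hDord : ∀ n, Orderable (K ⧸ D n) := by
    intro n
    have _ := hnil n
    have h1 : Group.IsNilpotent (K ⧸ D n) := by
      let ψ : K ⧸ C n →* K ⧸ D n := QuotientGroup.map (C n) (D n) (MonoidHom.id K) (by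
        intro x hx
        change ((x : K) : K ⧸ C n) ∈ I n
        rw [(QuotientGroup.eq_one_iff x).mpr hx]
        exact (I n).one_mem)
      refine Group.nilpotent_of_surjective ψ ?_
      intro q
      obtain ⟨x, rfl⟩ := QuotientGroup.mk_surjective q
      exact ⟨(x : K ⧸ C n), rfl⟩
    refine orderable_of_nilpotent ?_ exists_cone_ab
    intro q k hk hq
    obtain ⟨x, rfl⟩ := QuotientGroup.mk_surjective q
    rw [← QuotientGroup.mk_pow, QuotientGroup.eq_one_iff] at hq
    rw [QuotientGroup.eq_one_iff]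
    change ((x ^ k : K) : K ⧸ C n) ∈ I n at hq
    change ((x : K) : K ⧸ C n) ∈ I n
    rw [hImem] at hq ⊢
    obtain ⟨l, hl, h⟩ := hq
    refine ⟨k * l, Nat.mul_pos hk hl, ?_⟩
    rwa [pow_mul, ← QuotientGroup.mk_pow]
  set B : Subgroup K := ⨅ n, D n with hB
  have hBn : B.Normal := Subgroup.normal_iInf_normal hDn
  have hBord : Orderable (K ⧸ B) := orderable_residual D hDord
  have hBcomm : ∀ x ∈ B, ∀ y ∈ B, x * y = y * x := by
    intro x hx y hy
    rw [hB, Subgroup.mem_iInf] at hx hy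
    have h1 : ∀ n, ((x * y * x⁻¹ * y⁻¹ : K) : G) ∈ V n := by
      intro n
      rw [← hCmem, ← QuotientGroup.eq_one_iff]
      have := hIc n _ (hx n) _ (hy n)
      rw [QuotientGroup.mk_mul, QuotientGroup.mk_mul, QuotientGroup.mk_mul, QuotientGroup.mk_inv,
        QuotientGroup.mk_inv]
      have h2 : (x : K ⧸ C n) * (y : K ⧸ C n) = (y : K ⧸ C n) * (x : K ⧸ C n) := this
      rw [h2]; group
    have h3 := hV _ h1
    have h4 : x * y * x⁻¹ * y⁻¹ = 1 := Subtype.ext h3
    calc x * y = (x * y * x⁻¹ * y⁻¹) * (y * x) := by group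
      _ = y * x := by rw [h4, one_mul]
  have hAB : A ≤ B := by
    intro x hx
    rw [hB, Subgroup.mem_iInf]
    intro n
    change ((x : K) : K ⧸ C n) ∈ I n
    rw [hImem]
    exact ⟨1, le_rfl, by rw [pow_one]; exact ⟨x, hx, rfl⟩⟩
  have hBOX : OX (K ⧸ B) := hKOX.quotient B hBord
  have hBd : derivedSeries (K ⧸ B) d = ⊥ := by
    rw [← map_derivedSeries_eq (QuotientGroup.mk'_surjective B) d, Subgroup.map_eq_bot_iff,
      QuotientGroup.ker_mk']
    exact hAB
  obtain ⟨c, hc⟩ := IH (K ⧸ B) hBOX hBd F ((QuotientGroup.mk' B).comp φK)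
  -- apply the Gruenberg lemma in the range of `φK`
  have hunip : ∀ t : K, ∀ a ∈ B, ∃ m : ℕ, (fun x => t * x * t⁻¹ * x⁻¹)^[m] a = 1 :=
    fun t a ha => unipotent_of_OX hKOX B hBcomm hBord t a ha
  let R : Subgroup K := φK.range
  have hRfg : Group.FG R := by
    have : Function.Surjective φK.rangeRestrict := φK.rangeRestrict_surjective
    exact Group.fg_of_surjective this
  let M : Subgroup R := B.subgroupOf R
  have hMn : M.Normal := inferInstance
  have hRnil : Group.IsNilpotent R := by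
    refine nilpotent_of_unipotent M ?_ c ?_ ?_
    · intro x hx y hy
      exact Subtype.ext (hBcomm _ (Subgroup.mem_subgroupOf.mp hx) _ (Subgroup.mem_subgroupOf.mp hy))
    · have h1 := Subgroup.map_lowerCentralSeries (⊤ : Subgroup F) φK.rangeRestrict c
      rw [Subgroup.map_top_of_surjective _ φK.rangeRestrict_surjective] at h1
      rw [← h1]
      rintro _ ⟨x, hx, rfl⟩
      have h2 := hc hx
      rw [MonoidHom.mem_ker, MonoidHom.comp_apply, QuotientGroup.mk'_apply,
        QuotientGroup.eq_one_iff] at h2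
      exact h2
    · intro t a ha
      obtain ⟨m, hm⟩ := hunip (t : K) (a : K) (Subgroup.mem_subgroupOf.mp ha)
      refine ⟨m, Subtype.ext ?_⟩
      have h1 : ∀ (k : ℕ) (b : R), (((fun x : R => t * x * t⁻¹ * x⁻¹)^[k] b : R) : K) =
          (fun x : K => (t : K) * x * (t : K)⁻¹ * x⁻¹)^[k] (b : K) := by
        intro k
        induction k with
        | zero => intro b; rfl
        | succ k ih =>
          intro b
          rw [Function.iterate_succ_apply, Function.iterate_succ_apply, ih]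
          rfl
      rw [h1, hm]; rfl
  obtain ⟨n, hn⟩ := Subgroup.nilpotent_iff_lowerCentralSeries.mp hRnil
  refine ⟨n, ?_⟩
  have h1 := Subgroup.map_lowerCentralSeries (⊤ : Subgroup F) φK.rangeRestrict n
  rw [Subgroup.map_top_of_surjective _ φK.rangeRestrict_surjective, hn,
    Subgroup.map_eq_bot_iff] at h1
  intro x hx
  have h2 := h1 hx
  rw [MonoidHom.mem_ker] at h2 ⊢
  have h3 : φK x = 1 := congrArg Subtype.val h2
  exact congrArg Subtype.val h3

end ConradSol
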