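import Pool.Agent.Helper277.Star
import Pool.Agent.Helper277.J4
import Pool.Agent.Helper277.J5
import Pool.Agent.Helper277.J6
import Pool.Agent.Helper277.J7
import Pool.Agent.Helper277.J16

set_option autoImplicit false

namespace ConradSol

universe u v

/-- an equivariant functional which does not vanish on a non-torsion vector -/
theorem exists_functional {Q V : Type u} [CommGroup Q] [AddCommGroup V]
    (ρ : Q →* AddMonoid.End V) (χ : Q →* ℝ)
    (hindep : ∀ s : Q →₀ ℤ, s.sum (fun q c => (c : ℝ) * χ q) = 0 → s = 0) (a : V)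
    (ha : ∀ s : Q →₀ ℤ, s.sum (fun q c => c • ρ q a) = 0 → s = 0) :
    ∃ f : V →+ ℝ, (∀ q v, f (ρ q v) = χ q * f v) ∧ f a = 1 := by
  let A : MonoidAlgebra ℤ Q →+* AddMonoid.End V :=
    MonoidAlgebra.liftNCRingHom (Int.castRingHom (AddMonoid.End V)) ρ
      (fun n q => Int.cast_commute n _)
  let ev : MonoidAlgebra ℤ Q →+* ℝ :=
    MonoidAlgebra.liftNCRingHom (Int.castRingHom ℝ) χ (fun n q => Commute.all _ _)
  let _ : Module (MonoidAlgebra ℤ Q) V := Module.compHom V A
  have hsmul : ∀ (s : MonoidAlgebra ℤ Q) (v : V), s • v = A s v := fun s v => rfl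
  have hA1 : ∀ (q : Q) (c : ℤ) (v : V), A (MonoidAlgebra.single q c) v = c • ρ q v := by
    intro q c v
    have : A (MonoidAlgebra.single q c) = (c : AddMonoid.End V) * ρ q :=
      MonoidAlgebra.liftNCRingHom_single _ _ _ _ _
    rw [this]
    change (c : AddMonoid.End V) (ρ q v) = _
    rw [AddMonoid.End.intCast_apply]
  have hA : ∀ (s : MonoidAlgebra ℤ Q) (v : V), A s v = s.coeff.sum (fun q c => c • ρ q v) := by
    intro s v
    let E : AddMonoid.End V →+ V :=
      { toFun := fun φ => φ v, map_zero' := rfl, map_add' := fun _ _ => rfl }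
    change (E.comp A.toAddMonoidHom) s = _
    conv_lhs => rw [← MonoidAlgebra.sum_coeff_single s, map_finsuppSum]
    rw [Finsupp.sum, Finsupp.sum]
    exact Finset.sum_congr rfl (fun q _ => hA1 q _ v)
  have hev : ∀ s : MonoidAlgebra ℤ Q, ev s = s.coeff.sum (fun q c => (c : ℝ) * χ q) := by
    intro s
    conv_lhs => rw [← MonoidAlgebra.sum_coeff_single s, map_finsuppSum]
    rw [Finsupp.sum, Finsupp.sum]
    exact Finset.sum_congr rfl (fun q _ => MonoidAlgebra.liftNCRingHom_single _ _ _ _ _)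
  obtain ⟨f, hf, hfa⟩ := exists_equivariant ev (by
    rw [injective_iff_map_eq_zero]
    intro s hs
    rw [hev] at hs
    exact MonoidAlgebra.coeff_injective (hindep _ hs)) a (by
    intro s hs
    rw [hsmul, hA] at hs
    exact MonoidAlgebra.coeff_injective (ha _ hs))
  refine ⟨f, ?_, hfa⟩
  intro q v
  have h1 := hf (MonoidAlgebra.single q 1) v
  have h2 : ev (MonoidAlgebra.single q 1) = χ q := by
    have : ev (MonoidAlgebra.single q 1) = Int.castRingHom ℝ 1 * χ q :=
      MonoidAlgebra.liftNCRingHom_single _ _ _ _ _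
    rw [this, map_one, one_mul]
  rw [hsmul, hA1, h2, one_smul] at h1
  exact h1

/-- unipotence on an abelian normal subgroup with orderable quotient -/
theorem unipotent_of_OX {G : Type u} [Group G] (hG : OX G) (B : Subgroup G) [B.Normal]
    (hB : ∀ x ∈ B, ∀ y ∈ B, x * y = y * x) (hGB : Orderable (G ⧸ B)) (t a : G) (ha : a ∈ B) :
    ∃ m : ℕ, (fun x => t * x * t⁻¹ * x⁻¹)^[m] a = 1 := by
  by_contra hcon
  push Not at hcon
  obtain ⟨P, hP⟩ := hG.1
  have hPc := central_of_AllConrad hG.2 hP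
  have htB : t ∉ B := by
    intro htB
    refine hcon 1 ?_
    simp only [Function.iterate_one]
    rw [hB t htB a ha]; group
  have hab : ∀ (A : Type u) [Group A], (∀ a b : A, a * b = b * a) →
      (∀ (a : A) (n : ℕ), 1 ≤ n → a ^ n = 1 → a = 1) → ∃ Q : Set A, BiCone Q :=
    fun A _ h1 h2 => exists_cone_of_torsionFree h1 h2
  obtain ⟨I, hIRC, hsI, π, hπ, hπs⟩ := exists_rankOne hGB (t : G ⧸ B)
    (fun h => htB ((QuotientGroup.eq_one_iff t).mp h))
    (fun S => RC.centralizer hGB S) (fun ι H h => RC.iInf H h)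
    (fun K hK H hH => RC.trans hK hH) (fun A _ N _ h => RC.of_quotient N h) hab
  set H : Subgroup G := I.comap (QuotientGroup.mk' B) with hH
  have hHRC : RC H := RC.comap _ _ hIRC
  have hBH : B ≤ H := by
    intro b hb
    rw [hH, Subgroup.mem_comap, QuotientGroup.mk'_apply, (QuotientGroup.eq_one_iff b).mpr hb]
    exact I.one_mem
  have htH : t ∈ H := hsI
  have hIcomm : ∀ x y : I, x * y = y * x := by
    intro x y
    apply hπ
    rw [map_mul, map_mul, mul_comm]
  let _ : CommGroup I := { (inferInstance : Group I) with mul_comm := hIcomm }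
  let _ : CommGroup B := { (inferInstance : Group B) with
    mul_comm := fun x y => Subtype.ext (hB _ x.2 _ y.2) }
  -- conjugation action of `G ⧸ B` on `B`
  let κ : G →* MulAut B := MulAut.conjNormal
  have hκ : ∀ (g : G) (b : B), ((κ g b : B) : G) = g * b * g⁻¹ := fun g b => rfl
  let κ' : G ⧸ B →* MulAut B := QuotientGroup.lift B κ (by
    intro b hb
    rw [MonoidHom.mem_ker]
    ext x
    rw [hκ, hB b hb x x.2]
    simp)
  have hκ' : ∀ (g : G), κ' (g : G ⧸ B) = κ g := fun g => rfl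
  let toEnd : MulAut B →* AddMonoid.End (Additive B) :=
    { toFun := fun e => MonoidHom.toAdditive e.toMonoidHom
      map_one' := rfl
      map_mul' := fun _ _ => rfl }
  let ρ : I →* AddMonoid.End (Additive B) := (toEnd.comp κ').comp I.subtype
  have hρ : ∀ (h : H) (v : Additive B),
      ((Additive.toMul (ρ ⟨((h : G) : G ⧸ B), h.2⟩ v) : B) : G) =
        h * (Additive.toMul v : B) * (h : G)⁻¹ := fun h v => rfl
  have hρI : ∀ q : I, ∃ h : H, q = ⟨((h : G) : G ⧸ B), h.2⟩ := by
    rintro ⟨q, hq⟩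
    obtain ⟨g, rfl⟩ := QuotientGroup.mk_surjective q
    exact ⟨⟨g, hq⟩, rfl⟩
  let lo : LinearOrder (Additive B) :=
    @LinearOrder.lift' (Additive B) G hP.linearOrder (fun v => ((Additive.toMul v : B) : G))
      (fun v w h => by
        have : (Additive.toMul v : B) = Additive.toMul w := Subtype.ext h
        exact Additive.toMul.injective this)
  have hlt : ∀ v w : Additive B, v < w ↔
      ((Additive.toMul w : B) : G) * ((Additive.toMul v : B) : G)⁻¹ ∈ P := fun v w => Iff.rfl
  have hval_add : ∀ v w : Additive B, ((Additive.toMul (v + w) : B) : G) =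
      ((Additive.toMul v : B) : G) * ((Additive.toMul w : B) : G) := fun v w => rfl
  have _ : IsOrderedAddMonoid (Additive B) := by
    have key : ∀ a b c : Additive B, a < b → a + c < b + c := by
      intro a b c h
      rw [hlt] at h ⊢
      rw [hval_add, hval_add]
      rwa [mul_inv_rev, mul_assoc, mul_inv_cancel_left]
    have key' : ∀ a b : Additive B, a ≤ b → ∀ c, a + c ≤ b + c := by
      intro a b h c
      rcases h.lt_or_eq with h | h
      · exact (key a b c h).le
      · rw [h]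
    exact ⟨key', fun a b h c => by rw [add_comm c, add_comm c]; exact key' a b h c⟩
  have hcent : ∀ (q : I) (v : Additive B), 0 < v → ∀ k : ℤ, k • (ρ q v - v) < v := by
    intro q v hv k
    obtain ⟨h, rfl⟩ := hρI q
    rw [hlt] at hv ⊢
    have hv' : ((Additive.toMul v : B) : G) ∈ P := by
      simpa using hv
    have h1 := hPc.central (h : G) _ hv' (-k)
    have h2 : ((Additive.toMul (k • (ρ ⟨((h : G) : G ⧸ B), h.2⟩ v - v)) : B) : G) =
        ((h : G) * ((Additive.toMul v : B) : G) * (h : G)⁻¹ * ((Additive.toMul v : B) : G)⁻¹) ^ k := by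
      rw [toMul_zsmul, toMul_sub, div_eq_mul_inv, SubgroupClass.coe_zpow, Subgroup.coe_mul, hρ,
        Subgroup.coe_inv]
    rw [h2, ← zpow_neg]
    exact h1
  let t' : I := ⟨(t : G ⧸ B), hsI⟩
  let a' : Additive B := Additive.ofMul ⟨a, ha⟩
  have hiter : ∀ m : ℕ, ((Additive.toMul ((fun v => ρ t' v - v)^[m] a') : B) : G) =
      (fun x => t * x * t⁻¹ * x⁻¹)^[m] a := by
    intro m
    induction m with
    | zero => rfl
    | succ m ih =>
      rw [Function.iterate_succ_apply', Function.iterate_succ_apply', ← ih, toMul_sub,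
        div_eq_mul_inv, Subgroup.coe_mul, Subgroup.coe_inv]
      rw [show t' = ⟨(((⟨t, htH⟩ : H) : G) : G ⧸ B), (⟨t, htH⟩ : H).2⟩ from rfl, hρ]
  have ha' : ∀ m : ℕ, (fun v => ρ t' v - v)^[m] a' ≠ 0 := by
    intro m h
    refine hcon m ?_
    rw [← hiter, h]; rfl
  have htors : ∀ s : I →₀ ℤ, s.sum (fun q c => c • ρ q a') = 0 → s = 0 := fun s hs =>
    module_torsionFree ρ hcent π hπ t' hπs a' ha' s hs
  obtain ⟨lam, hlam, hind⟩ := exists_real_independent
  have hlam0 : 0 < lam := by linarith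
  let χ : I →* ℝ :=
    { toFun := fun q => lam ^ ((Multiplicative.toAdd (π q) : ℚ) : ℝ)
      map_one' := by simp
      map_mul' := fun x y => by
        rw [map_mul, toAdd_mul, Rat.cast_add, Real.rpow_add hlam0] }
  have hχ : ∀ q, χ q = lam ^ ((Multiplicative.toAdd (π q) : ℚ) : ℝ) := fun q => rfl
  have hindep : ∀ s : I →₀ ℤ, s.sum (fun q c => (c : ℝ) * χ q) = 0 → s = 0 := by
    intro s hs
    have hinj : Function.Injective (fun q : I => Multiplicative.toAdd (π q)) := fun x y h =>
      hπ (Multiplicative.toAdd.injective h)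
    have h1 : s.mapDomain (fun q : I => Multiplicative.toAdd (π q)) = 0 := by
      apply hind
      rw [Finsupp.sum_mapDomain_index]
      · exact hs
      · intro b; simp
      · intro b m₁ m₂; push_cast; ring
    exact Finsupp.mapDomain_injective hinj (by rw [h1, Finsupp.mapDomain_zero])
  obtain ⟨f, hf, hfa⟩ := exists_functional ρ χ hindep a' htors
  -- the affine action of `H`
  have hcommB : ∀ h : H, (h : G) * t * (h : G)⁻¹ * t⁻¹ ∈ B := by
    intro h
    rw [← QuotientGroup.eq_one_iff]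
    have h1 := hIcomm ⟨((h : G) : G ⧸ B), h.2⟩ t'
    have h2 : ((h : G) : G ⧸ B) * (t : G ⧸ B) = (t : G ⧸ B) * ((h : G) : G ⧸ B) :=
      congrArg Subtype.val h1
    rw [QuotientGroup.mk_mul, QuotientGroup.mk_mul, QuotientGroup.mk_mul, QuotientGroup.mk_inv,
      QuotientGroup.mk_inv, h2]
    group
  let w : H → ℝ := fun h => χ ⟨((h : G) : G ⧸ B), h.2⟩
  let c : H → ℝ := fun h =>
    f (Additive.ofMul (⟨(h : G) * t * (h : G)⁻¹ * t⁻¹, hcommB h⟩ : B)) / (1 - lam)
  have hne : (1 : ℝ) - lam ≠ 0 := by linarith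
  refine affine_not_allConrad (hG.of_RC H hHRC).cone w c ?_ ?_ ?_ ⟨t, htH⟩ ⟨a, hBH ha⟩ ?_ ?_ ?_ ?_
    (hG.of_RC H hHRC).2
  · intro h
    exact Real.rpow_pos_of_pos hlam0 _
  · intro g h
    change χ _ = χ _ * χ _
    rw [← map_mul]; rfl
  · intro g h
    change f _ / _ = f _ / _ + χ _ * (f _ / _)
    rw [← mul_div_assoc, ← hf, ← add_div, ← map_add]
    congr 2
    apply Additive.toMul.injective
    apply Subtype.ext
    rw [hval_add, hρ]
    change (g : G) * h * t * ((g : G) * h)⁻¹ * t⁻¹ =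
      ((g : G) * t * (g : G)⁻¹ * t⁻¹) * ((g : G) * ((h : G) * t * (h : G)⁻¹ * t⁻¹) * (g : G)⁻¹)
    rw [hB _ (hcommB g) _ (Subgroup.Normal.conj_mem inferInstance _ (hcommB h) (g : G))]
    group
  · change 2 ≤ lam ^ ((Multiplicative.toAdd (π t') : ℚ) : ℝ)
    rw [hπs, toAdd_ofAdd, Rat.cast_one, Real.rpow_one]
    exact hlam
  · change f _ / _ = 0
    have : (⟨t * t * t⁻¹ * t⁻¹, hcommB ⟨t, htH⟩⟩ : B) = 1 := Subtype.ext (by simp)
    change f (Additive.ofMul (⟨t * t * t⁻¹ * t⁻¹, hcommB ⟨t, htH⟩⟩ : B)) / _ = 0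
    rw [this, ofMul_one, map_zero, zero_div]
  · change χ _ = 1
    have : (⟨((a : G) : G ⧸ B), hBH ha⟩ : I) = 1 :=
      Subtype.ext ((QuotientGroup.eq_one_iff a).mpr ha)
    change χ (⟨((a : G) : G ⧸ B), hBH ha⟩ : I) = 1
    rw [this, map_one]
  · change f (Additive.ofMul (⟨a * t * a⁻¹ * t⁻¹, hcommB ⟨a, hBH ha⟩⟩ : B)) / (1 - lam) = 1
    have h1 : (Additive.ofMul (⟨a * t * a⁻¹ * t⁻¹, hcommB ⟨a, hBH ha⟩⟩ : B) : Additive B) =
        a' - ρ t' a' := by
      apply Additive.toMul.injective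
      apply Subtype.ext
      rw [toMul_sub, div_eq_mul_inv, Subgroup.coe_mul, Subgroup.coe_inv]
      rw [show t' = ⟨(((⟨t, htH⟩ : H) : G) : G ⧸ B), (⟨t, htH⟩ : H).2⟩ from rfl, hρ]
      change a * t * a⁻¹ * t⁻¹ = a * (t * a * t⁻¹)⁻¹
      group
    have h2 : χ t' = lam := by
      rw [hχ, hπs, toAdd_ofAdd, Rat.cast_one, Real.rpow_one]
    rw [h1, map_sub, hf, hfa, h2, mul_one]
    exact div_self hne

end ConradSol
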