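import Pool.Agent.Helper277.Solv2

set_option autoImplicit false

namespace ConradSol

universe u v

/-- the Conrad condition for a pair of elements generating a nilpotent subgroup -/
theorem conrad_pair {K : Type u} [Group K] {P : Set K} (hP : Cone P) (f g : K)
    (h : Group.IsNilpotent (Subgroup.closure {f, g} : Subgroup K)) (hf : f ∈ P)
    (hg : g * f⁻¹ ∈ P) : ∃ m : ℕ, 1 ≤ m ∧ f * g ^ m * f⁻¹ * g⁻¹ ∈ P := by
  set S : Subgroup K := Subgroup.closure {f, g} with hS
  have hfS : f ∈ S := Subgroup.subset_closure (by simp)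
  have hgS : g ∈ S := Subgroup.subset_closure (by simp)
  have hQ : Cone {x : S | (x : K) ∈ P} := by
    refine ⟨fun x hx y hy => hP.mul_mem _ hx _ hy, hP.one_not_mem, ?_⟩
    intro x hx
    exact hP.total (x : K) (fun h1 => hx (Subtype.ext h1))
  obtain ⟨m, hm, h1⟩ := conrad_of_nilpotent hQ (fun a b => inferInstance)
    (⟨f, hfS⟩ : S) ⟨g, hgS⟩ hf hg
  exact ⟨m, hm, h1⟩

/-- finitely generated soluble subgroups of a group with a homomorphism with central kernel to an
`OX` group are nilpotent -/
theorem fg_soluble_nilpotent_of_hom {G : Type u} {K : Type v} [Group G] [Group K]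
    (hG : OX G) (π : K →* G) (hπ : π.ker ≤ Subgroup.center K) (H : Subgroup K)
    (hH : H.FG) (hs : Group.IsSolvable H) : Group.IsNilpotent H := by
  have _ : Group.FG H := (Group.fg_iff_subgroup_fg H).mpr hH
  have h0 : Group.FG (H.map π) :=
    Group.fg_of_surjective (f := π.subgroupMap H) (π.subgroupMap_surjective H)
  have hs' : Group.IsSolvable (H.map π) :=
    Group.isSolvable_of_surjective (f := π.subgroupMap H) (π.subgroupMap_surjective H)
  have h1 : Group.IsNilpotent (H.map π) :=
    fg_soluble_nilpotent hG _ ((Group.fg_iff_subgroup_fg _).mp h0) hs'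
  refine Subgroup.isNilpotent_of_ker_le_center (π.subgroupMap H) ?_
  intro x hx
  have h2 : π (x : K) = 1 := congrArg Subtype.val hx
  have h3 := hπ h2
  rw [Subgroup.mem_center_iff] at h3 ⊢
  intro y
  exact Subtype.ext (h3 y)

/-- the Conrad condition for a pair of elements generating a soluble subgroup of a group with a
homomorphism with central kernel to an `OX` group -/
theorem conrad_pair_of_hom {G : Type u} {K : Type v} [Group G] [Group K]
    (hG : OX G) (π : K →* G) (hπ : π.ker ≤ Subgroup.center K) {P : Set K} (hP : Cone P) (f g : K)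
    (h : Group.IsSolvable (Subgroup.closure {f, g} : Subgroup K)) (hf : f ∈ P)
    (hg : g * f⁻¹ ∈ P) : ∃ m : ℕ, 1 ≤ m ∧ f * g ^ m * f⁻¹ * g⁻¹ ∈ P := by
  classical
  exact conrad_pair hP f g (fg_soluble_nilpotent_of_hom hG π hπ _ ⟨{f, g}, by simp⟩ h) hf hg

/-- all right orders are Conrad when two-generator subgroups are soluble -/
theorem allConrad_of_hom {G : Type u} {K : Type v} [Group G] [Group K]
    (hG : OX G) (π : K →* G) (hπ : π.ker ≤ Subgroup.center K)
    (h : ∀ f g : K, Group.IsSolvable (Subgroup.closure {f, g} : Subgroup K)) : AllConrad K :=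
  fun _ hP f g hf hg => conrad_pair_of_hom hG π hπ hP f g (h f g) hf hg

end ConradSol
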