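import Mathlib
import Pool.Agent.Helper831.VN.St
import Pool.Agent.Helper655.VNDefs

attribute [local instance] VN831.bcFunctor_additive VN831.viaAdd VN831.viaMod V7N.bcF_additive
  V7N.rmAdd V7N.rmMod L2B.l2Add L2B.l2Mod L2B.instRingN L2B.instAddBC L2B.instModBC
  L2B.bcF_additive

set_option autoImplicit false

open scoped InnerProductSpace

namespace Pool.Agent.Helper277.Sig

open Pool.Agent.Helper655.VN (EllTwo dl permOp)

theorem memlp_iff {G : Type} (f : G → ℂ) :
    Memℓp f 2 ↔ Summable fun x => ‖f x‖ ^ 2 := by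
  rw [memℓp_gen_iff (by norm_num)]
  have h : (2 : ENNReal).toReal = 2 := by norm_num
  rw [h]
  simp only [Real.rpow_two]

/-- the linear identification of the two models of `ℓ²(G)` -/
noncomputable def Phi (G : Type) : L2B.L2 G ≃ₗ[ℂ] EllTwo G where
  toFun ξ := ⟨fun x => L2B.val ξ x, (memlp_iff _).2 ξ.2⟩
  map_add' ξ η := by
    ext x
    rfl
  map_smul' c ξ := by
    ext x
    rfl
  invFun f := ⟨fun x => f x, (memlp_iff _).1 f.2⟩
  left_inv ξ := rfl
  right_inv f := rfl

theorem Phi_apply {G : Type} (ξ : L2B.L2 G) (x : G) : (Phi G ξ) x = L2B.val ξ x := rfl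

theorem val_Phi_symm {G : Type} (f : EllTwo G) (x : G) : L2B.val ((Phi G).symm f) x = f x := rfl

open scoped Classical in
theorem Phi_delta {G : Type} (g : G) : Phi G (L2B.delta g) = dl g := by
  ext x
  rw [Phi_apply]
  by_cases h : x = g
  · subst h
    rw [Pool.Agent.Helper655.VN.dl_apply_self]
    show (if x = x then (1 : ℂ) else 0) = 1
    rw [if_pos rfl]
  · rw [Pool.Agent.Helper655.VN.dl_apply_ne _ _ h]
    show (if x = g then (1 : ℂ) else 0) = 0
    rw [if_neg h]

theorem Phi_symm_dl {G : Type} (g : G) : (Phi G).symm (dl g) = L2B.delta g := by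
  rw [← Phi_delta, LinearEquiv.symm_apply_apply]

theorem Phi_compE {G : Type} (e : G ≃ G) (ξ : L2B.L2 G) :
    Phi G (L2B.compE e ξ) = permOp e (Phi G ξ) := rfl

theorem nsq_eq {G : Type} (ξ : L2B.L2 G) : L2B.nsq ξ = ‖Phi G ξ‖ ^ 2 := by
  have h := lp.norm_rpow_eq_tsum (p := 2) (by norm_num) (Phi G ξ)
  have h2 : (2 : ENNReal).toReal = 2 := by norm_num
  rw [h2] at h
  simp only [Real.rpow_two] at h
  rw [h]
  rfl

theorem nsq_Phi_symm {G : Type} (f : EllTwo G) : L2B.nsq ((Phi G).symm f) = ‖f‖ ^ 2 := by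
  rw [nsq_eq, LinearEquiv.apply_symm_apply]

/-- the scalar products agree -/
theorem ip_eq {G : Type} (ξ η : L2B.L2 G) :
    ∑' x, (starRingEnd ℂ) (L2B.val ξ x) * L2B.val η x = ⟪Phi G ξ, Phi G η⟫_ℂ := by
  have h := (lp.hasSum_inner (𝕜 := ℂ) (Phi G ξ) (Phi G η)).tsum_eq
  rw [← h]
  refine tsum_congr fun x => ?_
  rw [RCLike.inner_apply, mul_comm]
  rfl

end Pool.Agent.Helper277.Sig
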