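import Mathlib
import Pool.Agent.Helper277.ZG.All

set_option autoImplicit false

namespace Pool.Agent.Helper277.ROUniv

open Pool.Agent.Helper277.ZG.H94.ZelGroup

universe u

/-- transport of the iterated commutator along an injective homomorphism -/
theorem iter_map {G H : Type*} [Group G] [Group H] (f : G →* H) (x y : G) (j : ℕ) :
    f ((fun z : G => z⁻¹ * y⁻¹ * z * y)^[j] x) =
      (fun z : H => z⁻¹ * (f y)⁻¹ * z * f y)^[j] (f x) := by
  induction j with
  | zero => rfl
  | succ j ih =>
    rw [Function.iterate_succ_apply', Function.iterate_succ_apply', ← ih]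
    simp

/-- the bounded class theorem in every universe -/
theorem ro_class (k : ℕ) : ∃ c : ℕ, ∀ (G : Type u) [Group G],
    (∃ r : G → G → Prop,
      (∀ x y : G, r x y ∨ r y x) ∧
      (∀ x y : G, r x y → r y x → x = y) ∧
      (∀ x y z : G, r x y → r y z → r x z) ∧
      (∀ x y b : G, r x y → r (x * b) (y * b))) →
    (∀ x y : G, (fun z : G => z⁻¹ * y⁻¹ * z * y)^[k] x = 1) →
    Subgroup.lowerCentralSeries (⊤ : Subgroup G) c = ⊥ := by
  obtain ⟨c, hc⟩ := zel_S01969_of Pool.Agent.Helper277.zelLie k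
  refine ⟨c, ?_⟩
  intro G _ hr hE
  obtain ⟨r, htot, hanti, htr, hmul⟩ := hr
  rw [eq_bot_iff]
  intro x hx
  obtain ⟨H, hH, hxH⟩ := lcs_local c x hx
  have hfg : Group.FG H := (Group.fg_iff_subgroup_fg H).2 hH
  have hcount : Countable H := by
    obtain ⟨α, hα, φ, hφ⟩ := (Group.fg_iff_exists_freeGroup_hom_surjective_finite (G := H)).1 hfg
    exact hφ.countable
  have hsm : Small.{0} H := Countable.toSmall H
  let e : Shrink.{0} H ≃* H := Shrink.mulEquiv
  let f : Shrink.{0} H →* G := H.subtype.comp e.toMonoidHom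
  have hf : Function.Injective f := H.subtype_injective.comp e.injective
  have h := hc (Shrink.{0} H) ⟨fun a b => r (f a) (f b), fun a b => htot _ _,
    fun a b h1 h2 => hf (hanti _ _ h1 h2), fun a b d h1 h2 => htr _ _ _ h1 h2,
    fun a b d h1 => by
      show r (f (a * d)) (f (b * d))
      rw [map_mul, map_mul]
      exact hmul _ _ _ h1⟩ (fun a b => hf (by rw [iter_map, hE, map_one]))
  have h2 := Subgroup.lowerCentralSeries_eq_bot_iff_upperCentralSeries_eq_top.2 h
  have h3 : Subgroup.lowerCentralSeries (⊤ : Subgroup H) c = ⊥ := by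
    have h4 := Subgroup.map_lowerCentralSeries (S := (⊤ : Subgroup (Shrink.{0} H))) e.toMonoidHom c
    rw [h2, Subgroup.map_bot, ← MonoidHom.range_eq_map,
      MonoidHom.range_eq_top.2 e.surjective] at h4
    exact h4.symm
  rw [← Subgroup.top_subtype_lowerCentralSeries, h3, Subgroup.map_bot] at hxH
  exact hxH

/-- the bounded class theorem in every universe, with `Group.nilpotencyClass` -/
theorem ro_class' (k : ℕ) : ∃ c : ℕ, ∀ (G : Type u) [Group G],
    (∃ r : G → G → Prop,
      (∀ x y : G, r x y ∨ r y x) ∧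
      (∀ x y : G, r x y → r y x → x = y) ∧
      (∀ x y z : G, r x y → r y z → r x z) ∧
      (∀ x y b : G, r x y → r (x * b) (y * b))) →
    (∀ x y : G, (fun z : G => z⁻¹ * y⁻¹ * z * y)^[k] x = 1) →
    Group.IsNilpotent G ∧ Group.nilpotencyClass G ≤ c ∧
      Subgroup.lowerCentralSeries (⊤ : Subgroup G) c = ⊥ := by
  obtain ⟨c, hc⟩ := ro_class.{u} k
  refine ⟨c, ?_⟩
  intro G _ hr hE
  have h := hc G hr hE
  have hn : Group.IsNilpotent G := Subgroup.nilpotent_iff_lowerCentralSeries.2 ⟨c, h⟩
  exact ⟨hn, Subgroup.lowerCentralSeries_eq_bot_iff_nilpotencyClass_le.1 h, h⟩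

end Pool.Agent.Helper277.ROUniv
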