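import Mathlib
import Pool.Agent.Helper277.Phi

attribute [local instance] VN831.bcFunctor_additive VN831.viaAdd VN831.viaMod V7N.bcF_additive
  V7N.rmAdd V7N.rmMod L2B.l2Add L2B.l2Mod L2B.instRingN L2B.instAddBC L2B.instModBC
  L2B.bcF_additive

set_option autoImplicit false
set_option linter.unusedSectionVars false
set_option linter.unusedVariables false

open scoped InnerProductSpace

namespace Pool.Agent.Helper277.Sig

open Pool.Agent.Helper655.VN (EllTwo dl permOp NG canL rho mem_NG)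

variable {G : Type} [Group G]

/-- a continuous operator on `ℓ²(G)` read on the elementary model -/
noncomputable def down (T : EllTwo G →L[ℂ] EllTwo G) : Module.End ℂ (L2B.L2 G) :=
  (Phi G).symm.toLinearMap ∘ₗ T.toLinearMap ∘ₗ (Phi G).toLinearMap

theorem down_apply (T : EllTwo G →L[ℂ] EllTwo G) (ξ : L2B.L2 G) :
    down T ξ = (Phi G).symm (T (Phi G ξ)) := rfl

theorem Phi_down (T : EllTwo G →L[ℂ] EllTwo G) (ξ : L2B.L2 G) :
    Phi G (down T ξ) = T (Phi G ξ) := rfl

theorem down_inN (T : NG G) : L2B.InN (down (T : EllTwo G →L[ℂ] EllTwo G)) := by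
  refine ⟨⟨‖(T : EllTwo G →L[ℂ] EllTwo G)‖ ^ 2, fun ξ => ?_⟩, fun g => ?_⟩
  · rw [nsq_eq, nsq_eq, Phi_down, ← mul_pow]
    exact pow_le_pow_left₀ (norm_nonneg _) (ContinuousLinearMap.le_opNorm _ _) 2
  · refine LinearMap.ext fun ξ => (Phi G).injective ?_
    have h := congrArg (fun z : EllTwo G →L[ℂ] EllTwo G => z (Phi G ξ)) ((mem_NG _).1 T.2 g)
    exact h.symm

/-- the identification of the two models of the group von Neumann algebra, as a homomorphism -/
noncomputable def sigH (G : Type) [Group G] : NG G →+* L2B.N G where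
  toFun T := ⟨down (T : EllTwo G →L[ℂ] EllTwo G), down_inN T⟩
  map_one' := Subtype.ext (LinearMap.ext fun ξ => (Phi G).injective rfl)
  map_mul' S T := Subtype.ext (LinearMap.ext fun ξ => (Phi G).injective rfl)
  map_zero' := Subtype.ext (LinearMap.ext fun ξ => (Phi G).injective rfl)
  map_add' S T := Subtype.ext (LinearMap.ext fun ξ => (Phi G).injective rfl)

theorem sigH_val (T : NG G) : (sigH G T).1 = down (T : EllTwo G →L[ℂ] EllTwo G) := rfl

theorem sigH_injective : Function.Injective (sigH G) := by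
  intro S T h
  apply Subtype.ext
  refine ContinuousLinearMap.ext fun f => ?_
  have h1 : down (S : EllTwo G →L[ℂ] EllTwo G) = down (T : EllTwo G →L[ℂ] EllTwo G) :=
    congrArg Subtype.val h
  have h2 := congrArg (fun z : Module.End ℂ (L2B.L2 G) => Phi G (z ((Phi G).symm f))) h1
  have h3 : (S : EllTwo G →L[ℂ] EllTwo G) (Phi G ((Phi G).symm f)) =
      (T : EllTwo G →L[ℂ] EllTwo G) (Phi G ((Phi G).symm f)) := h2
  rwa [LinearEquiv.apply_symm_apply] at h3

theorem sigH_surjective : Function.Surjective (sigH G) := by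
  rintro ⟨S, ⟨C, hC⟩, hS⟩
  let L : EllTwo G →ₗ[ℂ] EllTwo G :=
    (Phi G).toLinearMap ∘ₗ S ∘ₗ (Phi G).symm.toLinearMap
  have hL : ∀ f, ‖L f‖ ≤ Real.sqrt |C| * ‖f‖ := by
    intro f
    have h1 := hC ((Phi G).symm f)
    rw [nsq_Phi_symm, nsq_eq] at h1
    have h2 : ‖L f‖ ^ 2 ≤ C * ‖f‖ ^ 2 := h1
    have h3 : ‖L f‖ ^ 2 ≤ (Real.sqrt |C| * ‖f‖) ^ 2 := by
      rw [mul_pow, Real.sq_sqrt (abs_nonneg C)]
      exact h2.trans (mul_le_mul_of_nonneg_right (le_abs_self C) (by positivity))
    exact le_of_sq_le_sq h3 (by positivity)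
  let T : EllTwo G →L[ℂ] EllTwo G := L.mkContinuous _ hL
  have hT : T ∈ NG G := by
    rw [mem_NG]
    intro g
    refine ContinuousLinearMap.ext fun f => ?_
    have h := congrArg (fun z : Module.End ℂ (L2B.L2 G) => Phi G (z ((Phi G).symm f))) (hS g)
    exact h.symm
  refine ⟨⟨T, hT⟩, Subtype.ext (LinearMap.ext fun ξ => (Phi G).injective ?_)⟩
  show Phi G (S ((Phi G).symm (Phi G ξ))) = Phi G (S ξ)
  rw [LinearEquiv.symm_apply_apply]

/-- the ring isomorphism between the two models of the group von Neumann algebra -/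
noncomputable def sig (G : Type) [Group G] : NG G ≃+* L2B.N G :=
  RingEquiv.ofBijective (sigH G) ⟨sigH_injective, sigH_surjective⟩

theorem sig_val (T : NG G) : (sig G T).1 = down (T : EllTwo G →L[ℂ] EllTwo G) := rfl

theorem Phi_sig (T : NG G) (ξ : L2B.L2 G) :
    Phi G ((sig G T).1 ξ) = (T : EllTwo G →L[ℂ] EllTwo G) (Phi G ξ) := rfl

theorem Phi_sig_symm (S : L2B.N G) (f : EllTwo G) :
    (((sig G).symm S : NG G) : EllTwo G →L[ℂ] EllTwo G) f = Phi G (S.1 ((Phi G).symm f)) := by
  have h := Phi_sig ((sig G).symm S) ((Phi G).symm f)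
  rw [RingEquiv.apply_symm_apply, LinearEquiv.apply_symm_apply] at h
  exact h.symm

theorem sig_canL (g : G) : sig G (canL g) = L2B.lam g :=
  Subtype.ext (LinearMap.ext fun ξ => (Phi G).injective rfl)

theorem sig_symm_lam (g : G) : (sig G).symm (L2B.lam g) = canL g := by
  rw [← sig_canL, RingEquiv.symm_apply_apply]

theorem sig_tr (T : NG G) : L2B.tr (sig G T) = (Pool.Agent.Helper655.VN.tr T).re := by
  rw [Pool.Agent.Helper655.VN.tr_apply, Pool.Agent.Helper655.VN.inner_dl]
  show (L2B.val ((sig G T).1 (L2B.delta 1)) 1).re = _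
  rw [← Phi_apply, Phi_sig, Phi_delta]

theorem tr_sig_symm (S : L2B.N G) :
    (Pool.Agent.Helper655.VN.tr ((sig G).symm S)).re = L2B.tr S := by
  rw [← sig_tr, RingEquiv.apply_symm_apply]

end Pool.Agent.Helper277.Sig
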