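import Mathlib
import Pool.Agent.Helper277.Sig
import Pool.Agent.Helper277.VN5

attribute [local instance] VN831.bcFunctor_additive VN831.viaAdd VN831.viaMod V7N.bcF_additive
  V7N.rmAdd V7N.rmMod L2B.l2Add L2B.l2Mod L2B.instRingN L2B.instAddBC L2B.instModBC
  L2B.bcF_additive

set_option autoImplicit false
set_option linter.unusedSectionVars false
set_option linter.unusedVariables false

open scoped InnerProductSpace

namespace Pool.Agent.Helper277.Sig

open Pool.Agent.Helper655.VN (EllTwo dl permOp NG canL rho mem_NG)
open Pool.Agent.Helper277.VN5 (jN)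

variable {G : Type} [Group G] (K : Subgroup G)

/-- the inclusion of the group von Neumann algebra of a subgroup, in the elementary model -/
noncomputable def jS : L2B.N K →+* L2B.N G :=
  ((sig G : NG G ≃+* L2B.N G) : NG G →+* L2B.N G).comp
    ((jN K).comp (((sig K).symm : L2B.N K ≃+* NG K) : L2B.N K →+* NG K))

theorem jS_eq (S : L2B.N K) : jS K S = sig G (jN K ((sig K).symm S)) := rfl

theorem jS_sig (T : NG K) : jS K (sig K T) = sig G (jN K T) := by
  rw [jS_eq, RingEquiv.symm_apply_apply]

theorem jS_lam (k : K) : jS K (L2B.lam k) = L2B.lam (k : G) := by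
  rw [jS_eq, sig_symm_lam, Pool.Agent.Helper277.VN5.jN_canL, sig_canL]

theorem jS_injective : Function.Injective (jS K) := by
  intro S T h
  rw [jS_eq, jS_eq] at h
  exact (sig K).symm.injective (Pool.Agent.Helper277.VN5.jN_injective K ((sig G).injective h))

theorem jS_tr (S : L2B.N K) : L2B.tr (jS K S) = L2B.tr S := by
  rw [jS_eq, sig_tr, Pool.Agent.Helper277.VN5.jN_tr, tr_sig_symm]

/-- non zero divisors go to non zero divisors -/
theorem jS_nz (s : L2B.N K) (hs : ∀ x : L2B.N K, x * s = 0 → x = 0) (x : L2B.N G)
    (hx : x * jS K s = 0) : x = 0 := by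
  have h1 : ∀ y : NG K, y * (sig K).symm s = 0 → y = 0 := by
    intro y hy
    have h2 : sig K y * s = 0 := by
      have := congrArg (sig K) hy
      rwa [map_mul, RingEquiv.apply_symm_apply, map_zero] at this
    have h3 := hs _ h2
    exact (sig K).injective (by rw [h3, map_zero])
  have h4 : (sig G).symm x * jN K ((sig K).symm s) = 0 := by
    have := congrArg (sig G).symm hx
    rwa [map_mul, jS_eq, RingEquiv.symm_apply_apply, map_zero] at this
  have h5 := Pool.Agent.Helper277.VN5.jN_nz K _ h1 _ h4
  exact (sig G).symm.injective (by rw [h5, map_zero])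

/-- elements of different right cosets of `K` are independent over `N(K)` -/
theorem jS_indep : VN831.CosetIndep (jS K) (L2B.lam : G →* L2B.N G) K := by
  intro s hs x h g hg
  have h1 : ∑ g ∈ s, jN K ((sig K).symm (x g)) * canL g = 0 := by
    have h2 := congrArg (sig G).symm h
    rw [map_sum, map_zero] at h2
    rw [← h2]
    refine Finset.sum_congr rfl fun k hk => ?_
    rw [map_mul, jS_eq, RingEquiv.symm_apply_apply, sig_symm_lam]
  have h3 := Pool.Agent.Helper277.VN5.jN_indep K s _ hs h1 g hg
  exact (sig K).symm.injective (by rw [h3, map_zero])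

theorem jS_indep' : VN831.CosetIndep (jS K) (L2B.lam : G →* L2B.N G) K.subtype.range := by
  rw [Subgroup.range_subtype]
  exact jS_indep K

end Pool.Agent.Helper277.Sig
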