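import Pool.Agent.Helper277.MainThm

set_option autoImplicit false

namespace ConradSol

universe u v

/-- Main theorem: images of finitely generated groups in a soluble `OX` group are nilpotent. -/
theorem exists_lcs_le_ker (d : ℕ) : ∀ (G : Type u) [Group G], OX G → derivedSeries G d = ⊥ →
      ∀ (F : Type u) [Group F] [Group.FG F] (φ : F →* G),
        ∃ n, (⊤ : Subgroup F).lowerCentralSeries n ≤ φ.ker := by
  induction d with
  | zero =>
    intro G _ _ hd F _ _ φ
    rw [derivedSeries_zero] at hd
    refine ⟨0, fun x _ => ?_⟩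
    have : φ x ∈ (⊤ : Subgroup G) := Subgroup.mem_top _
    rw [hd, Subgroup.mem_bot] at this
    exact this
  | succ d IH =>
    intro G _ hG hd F _ _ φ
    by_contra hcon
    push Not at hcon
    obtain ⟨P, hP⟩ := hG.1
    have hPc := central_of_AllConrad hG.2 hP
    choose W hWc hW1 hW2 using fun n => exists_conv_sep hPc φ n (hcon n)
    have hWn : ∀ n, (W n).Normal := fun n => (hWc n).normal hPc
    have hWo : ∀ n, Orderable (G ⧸ W n) := fun n => Conv.orderable hP (W n) (hWc n)
    set N : Subgroup G := ⨅ n, W n with hN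
    have hNn : N.Normal := Subgroup.normal_iInf_normal hWn
    have hNo : Orderable (G ⧸ N) := orderable_residual W hWo
    have hNW : ∀ n, N ≤ W n := fun n => iInf_le _ n
    have hOX : OX (G ⧸ N) := hG.quotient N hNo
    let V : ℕ → Subgroup (G ⧸ N) := fun n => (W n).map (QuotientGroup.mk' N)
    have hVn : ∀ n, (V n).Normal := fun n =>
      (hWn n).map _ (QuotientGroup.mk'_surjective _)
    have hVmem : ∀ n (x : G), (x : G ⧸ N) ∈ V n ↔ x ∈ W n := by
      intro n x
      constructor
      · rintro ⟨y, hy, hxy⟩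
        have h1 : (y : G ⧸ N) = (x : G ⧸ N) := hxy
        rw [QuotientGroup.eq] at h1
        have h2 := (W n).mul_mem hy (hNW n h1)
        rwa [mul_inv_cancel_left] at h2
      · intro hx
        exact ⟨x, hx, rfl⟩
    have hVo : ∀ n, Orderable ((G ⧸ N) ⧸ V n) := fun n =>
      (hWo n).equiv (QuotientGroup.quotientQuotientEquivQuotient N (W n) (hNW n)).symm
    have hV : ∀ x : G ⧸ N, (∀ n, x ∈ V n) → x = 1 := by
      intro x hx
      obtain ⟨x, rfl⟩ := QuotientGroup.mk_surjective x
      rw [QuotientGroup.eq_one_iff, hN, Subgroup.mem_iInf]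
      intro n
      exact (hVmem n x).mp (hx n)
    have hd' : derivedSeries (G ⧸ N) (d + 1) = ⊥ := by
      rw [← map_derivedSeries_eq (QuotientGroup.mk'_surjective N) (d + 1), hd, Subgroup.map_bot]
    obtain ⟨n, hn⟩ := main_step d IH (G ⧸ N) hOX hd' V hV hVo F ((QuotientGroup.mk' N).comp φ)
      (by
        intro n
        rintro _ ⟨x, hx, rfl⟩
        exact (hVmem n _).mpr (hW1 n ⟨x, hx, rfl⟩))
    refine hW2 n ?_
    rintro _ ⟨x, hx, rfl⟩
    have h1 := hn hx
    rw [MonoidHom.mem_ker, MonoidHom.comp_apply, QuotientGroup.mk'_apply,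
      QuotientGroup.eq_one_iff] at h1
    exact hNW n h1

/-- finitely generated subgroups are nilpotent -/
theorem fg_nilpotent {G : Type u} [Group G] [Group.IsSolvable G] (hG : OX G) (H : Subgroup G)
    (hH : H.FG) : Group.IsNilpotent H := by
  obtain ⟨d, hd⟩ := Group.IsSolvable.solvable (G := G)
  have _ : Group.FG H := (Group.fg_iff_subgroup_fg H).mpr hH
  obtain ⟨n, hn⟩ := exists_lcs_le_ker d G hG hd H H.subtype
  rw [Subgroup.nilpotent_iff_lowerCentralSeries]
  refine ⟨n, ?_⟩
  rw [H.ker_subtype] at hn
  exact le_bot_iff.mp hn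

/-- a group with a homomorphism with central kernel to a soluble `OX` group has nilpotent
finitely generated subgroups -/
theorem fg_nilpotent_of_hom {G : Type u} {K : Type v} [Group G] [Group K] [Group.IsSolvable G]
    (hG : OX G) (π : K →* G) (hπ : π.ker ≤ Subgroup.center K) (H : Subgroup K)
    (hH : H.FG) : Group.IsNilpotent H := by
  have _ : Group.FG H := (Group.fg_iff_subgroup_fg H).mpr hH
  have h0 : Group.FG (H.map π) :=
    Group.fg_of_surjective (f := π.subgroupMap H) (π.subgroupMap_surjective H)
  have h1 : Group.IsNilpotent (H.map π) :=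
    fg_nilpotent hG _ ((Group.fg_iff_subgroup_fg _).mp h0)
  refine Subgroup.isNilpotent_of_ker_le_center (π.subgroupMap H) ?_
  intro x hx
  have h2 : π (x : K) = 1 := congrArg Subtype.val hx
  have h3 := hπ h2
  rw [Subgroup.mem_center_iff] at h3 ⊢
  intro y
  exact Subtype.ext (h3 y)

/-- every cone on a group with a homomorphism with central kernel to a soluble `OX` group is
Conrad -/
theorem conrad_of_hom {G : Type u} {K : Type v} [Group G] [Group K] [Group.IsSolvable G]
    (hG : OX G) (π : K →* G) (hπ : π.ker ≤ Subgroup.center K) : AllConrad K := by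
  classical
  intro P hP
  refine conrad_of_nilpotent hP ?_
  intro f g
  refine fg_nilpotent_of_hom hG π hπ _ ?_
  exact ⟨{f, g}, by simp⟩

end ConradSol
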