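import Pool.Agent.Helper277.Solv
import Pool.Agent.Helper277.I1
import Pool.Agent.Helper277.I2
import Pool.Agent.Helper277.I3
import Pool.Agent.Helper277.I4
import Pool.Agent.Helper277.I5

set_option autoImplicit false

namespace ConradSol

universe u v

/-- isolators in nilpotent groups are subgroups -/
theorem exists_isolator {M : Type u} [Group M] [Group.IsNilpotent M] (H : Subgroup M) :
    ∃ I : Subgroup M, ∀ g, g ∈ I ↔ ∃ k : ℕ, 1 ≤ k ∧ g ^ k ∈ H :=
  exists_isolator_aux (fun _ _ _ Y h => exists_pow_mem Y h) H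

/-- normalisers of isolated subgroups are isolated -/
theorem normalizer_isolated {M : Type u} [Group M] [Group.IsNilpotent M] (B : Subgroup M)
    (hB : ∀ (g : M) (k : ℕ), 1 ≤ k → g ^ k ∈ B → g ∈ B) (x : M) (k : ℕ) (hk : 1 ≤ k)
    (hx : ∀ b ∈ B, x ^ k * b * (x ^ k)⁻¹ ∈ B ∧ (x ^ k)⁻¹ * b * x ^ k ∈ B) :
    ∀ b ∈ B, x * b * x⁻¹ ∈ B ∧ x⁻¹ * b * x ∈ B :=
  normalizer_isolated_aux (fun _ _ _ Y h => exists_pow_mem Y h)
    (fun _ _ _ H => exists_isolator H) B hB x k hk hx

/-- the isolator of a soluble subgroup of a torsion-free nilpotent group has the same derived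
length -/
theorem derived_isolator {M : Type u} [Group M] [Group.IsNilpotent M]
    (htf : ∀ (x : M) (n : ℕ), 1 ≤ n → x ^ n = 1 → x = 1)
    (H I : Subgroup M) (hHI : ∀ g, g ∈ I ↔ ∃ k : ℕ, 1 ≤ k ∧ g ^ k ∈ H) (d : ℕ)
    (hd : derivedSeries H d = ⊥) : derivedSeries I d = ⊥ := by
  refine derived_isolator_aux (fun _ _ _ H => exists_isolator H)
    (fun X _ _ B hB x k hk hx => normalizer_isolated B hB x k hk hx) ?_ htf H I hHI d hd
  intro X _ _ hX x y n hn h
  exact (orderable_of_nilpotent hX exists_cone_ab).commute_of_pow hn h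

/-- isolated subgroups of torsion-free nilpotent groups are relatively convex -/
theorem RC_of_isolated {M : Type u} [Group M] [Group.IsNilpotent M]
    (htf : ∀ (x : M) (n : ℕ), 1 ≤ n → x ^ n = 1 → x = 1) (B : Subgroup M)
    (hB : ∀ (g : M) (k : ℕ), 1 ≤ k → g ^ k ∈ B → g ∈ B) : RC B :=
  RC_of_isolated_aux (fun _ _ _ H => exists_isolator H)
    (fun X _ _ B hB x k hk hx => normalizer_isolated B hB x k hk hx) htf B hB

/-- hulls of soluble groups of homomorphic images: soluble relatively convex overgroups -/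
theorem exists_soluble_RC {G : Type u} [Group G] (hG : OX G)
    (V : ℕ → Subgroup G) [hVn : ∀ n, (V n).Normal] (hV : ∀ x, (∀ n, x ∈ V n) → x = 1)
    (hVo : ∀ n, Orderable (G ⧸ V n)) (F : Type u) [Group F] (d : ℕ) (hd : derivedSeries F d = ⊥)
    (φ : F →* G) (hφ : ∀ n, ((⊤ : Subgroup F).lowerCentralSeries (n + 1)).map φ ≤ V n) :
    ∃ K : Subgroup G, OX K ∧ (∀ f, φ f ∈ K) ∧ derivedSeries K d = ⊥ := by
  have hL : ∀ n, ∃ L : Subgroup (G ⧸ V n), RC L ∧ derivedSeries L d = ⊥ ∧
      ∀ f : F, ((φ f : G) : G ⧸ V n) ∈ L := by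
    intro n
    have hnil : Group.IsNilpotent (F ⧸ (⊤ : Subgroup F).lowerCentralSeries (n + 1)) := by
      rw [Subgroup.nilpotent_iff_lowerCentralSeries]
      refine ⟨n + 1, ?_⟩
      have := Subgroup.map_lowerCentralSeries (⊤ : Subgroup F)
        (QuotientGroup.mk' ((⊤ : Subgroup F).lowerCentralSeries (n + 1))) (n + 1)
      rw [Subgroup.map_top_of_surjective _ (QuotientGroup.mk'_surjective _)] at this
      rw [← this, Subgroup.map_eq_bot_iff, QuotientGroup.ker_mk']
    let φn : F ⧸ (⊤ : Subgroup F).lowerCentralSeries (n + 1) →* G ⧸ V n :=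
      QuotientGroup.lift _ ((QuotientGroup.mk' (V n)).comp φ) (by
        intro x hx
        rw [MonoidHom.mem_ker, MonoidHom.comp_apply, QuotientGroup.mk'_apply,
          QuotientGroup.eq_one_iff]
        exact hφ n ⟨x, hx, rfl⟩)
    obtain ⟨L, h1, h2, h3⟩ := exists_nilpotent_RC _ (G ⧸ V n) (hG.quotient _ (hVo n)) φn
    have hmem : ∀ f : F, ((φ f : G) : G ⧸ V n) ∈ L := fun f => h3 ⟨(f : F ⧸ _), rfl⟩
    have hLtf : ∀ (x : L) (k : ℕ), 1 ≤ k → x ^ k = 1 → x = 1 :=
      ((hVo n).subgroup L).torsionFree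
    let ψ : F →* L := ((QuotientGroup.mk' (V n)).comp φ).codRestrict L hmem
    have hH : derivedSeries ψ.range d = ⊥ := by
      rw [← map_derivedSeries_eq ψ.rangeRestrict_surjective d, hd, Subgroup.map_bot]
    obtain ⟨I, hI⟩ := exists_isolator ψ.range
    have hId : derivedSeries I d = ⊥ := derived_isolator hLtf ψ.range I hI d hH
    have hIRC : RC I := by
      refine RC_of_isolated hLtf I ?_
      intro g k hk hg
      rw [hI] at hg ⊢
      obtain ⟨l, hl, hg⟩ := hg
      exact ⟨k * l, Nat.mul_pos hk hl, by rwa [pow_mul]⟩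
    refine ⟨I.map L.subtype, RC.trans h1 hIRC, ?_, ?_⟩
    · have e := I.equivMapOfInjective L.subtype L.subtype_injective
      exact derivedSeries_bot_of_injective (e.symm : (I.map L.subtype) →* I)
        e.symm.injective hId
    · intro f
      refine ⟨ψ f, ?_, rfl⟩
      change ψ f ∈ I
      rw [hI]
      exact ⟨1, le_rfl, by rw [pow_one]; exact ⟨f, rfl⟩⟩
  choose L hLRC hLd hLφ using hL
  set K : Subgroup G := ⨅ n, (L n).comap (QuotientGroup.mk' (V n)) with hK
  have hKmem : ∀ x : G, x ∈ K → ∀ n, (x : G ⧸ V n) ∈ L n := by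
    intro x hx n
    rw [hK, Subgroup.mem_iInf] at hx
    exact hx n
  have hKRC : RC K := RC.iInf _ (fun n => RC.comap _ _ (hLRC n))
  refine ⟨K, hG.of_RC K hKRC, ?_, ?_⟩
  · intro f
    rw [hK, Subgroup.mem_iInf]
    intro n
    exact hLφ n f
  · rw [eq_bot_iff]
    intro x hx
    rw [Subgroup.mem_bot]
    refine Subtype.ext (hV x ?_)
    intro n
    let θ : K →* L n := ((QuotientGroup.mk' (V n)).comp K.subtype).codRestrict (L n)
      (fun y => hKmem y y.2 n)
    have h1 := map_derivedSeries_le_derivedSeries θ d (Subgroup.mem_map_of_mem θ hx)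
    rw [hLd n, Subgroup.mem_bot] at h1
    have h2 : ((x : G) : G ⧸ V n) = 1 := congrArg Subtype.val h1
    rwa [QuotientGroup.eq_one_iff] at h2

/-- images of finitely generated soluble groups in arbitrary `OX` groups are nilpotent -/
theorem exists_lcs_le_ker_of_soluble {G : Type u} [Group G] (hG : OX G) (F : Type u) [Group F]
    [Group.FG F] (d : ℕ) (hd : derivedSeries F d = ⊥) (φ : F →* G) :
    ∃ n, (⊤ : Subgroup F).lowerCentralSeries n ≤ φ.ker := by
  by_contra hcon
  push Not at hcon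
  obtain ⟨P, hP⟩ := hG.1
  have hPc := central_of_AllConrad hG.2 hP
  choose W hWc hW1 hW2 using fun n => exists_conv_sep hPc φ n (hcon n)
  have hWn : ∀ n, (W n).Normal := fun n => (hWc n).normal hPc
  have hWo : ∀ n, Orderable (G ⧸ W n) := fun n => Conv.orderable hP (W n) (hWc n)
  set N : Subgroup G := ⨅ n, W n with hN
  have hNn : N.Normal := Subgroup.normal_iInf_normal hWn
  have hNo : Orderable (G ⧸ N) := orderable_residual W hWo
  have hNW : ∀ n, N ≤ W n := fun n => iInf_le _ n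
  have hOX : OX (G ⧸ N) := hG.quotient N hNo
  let V : ℕ → Subgroup (G ⧸ N) := fun n => (W n).map (QuotientGroup.mk' N)
  have hVn : ∀ n, (V n).Normal := fun n =>
    (hWn n).map _ (QuotientGroup.mk'_surjective _)
  have hVmem : ∀ n (x : G), (x : G ⧸ N) ∈ V n ↔ x ∈ W n := by
    intro n x
    constructor
    · rintro ⟨y, hy, hxy⟩
      have h1 : (y : G ⧸ N) = (x : G ⧸ N) := hxy
      rw [QuotientGroup.eq] at h1
      have h2 := (W n).mul_mem hy (hNW n h1)
      rwa [mul_inv_cancel_left] at h2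
    · intro hx
      exact ⟨x, hx, rfl⟩
  have hVo : ∀ n, Orderable ((G ⧸ N) ⧸ V n) := fun n =>
    (hWo n).equiv (QuotientGroup.quotientQuotientEquivQuotient N (W n) (hNW n)).symm
  have hV : ∀ x : G ⧸ N, (∀ n, x ∈ V n) → x = 1 := by
    intro x hx
    obtain ⟨x, rfl⟩ := QuotientGroup.mk_surjective x
    rw [QuotientGroup.eq_one_iff, hN, Subgroup.mem_iInf]
    intro n
    exact (hVmem n x).mp (hx n)
  obtain ⟨K, hKOX, hKφ, hKd⟩ := exists_soluble_RC hOX V hV hVo F d hd
    ((QuotientGroup.mk' N).comp φ) (by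
      intro n
      rintro _ ⟨x, hx, rfl⟩
      exact (hVmem n _).mpr (hW1 n ⟨x, hx, rfl⟩))
  obtain ⟨n, hn⟩ := exists_lcs_le_ker d K hKOX hKd F
    (((QuotientGroup.mk' N).comp φ).codRestrict K hKφ)
  refine hW2 n ?_
  rintro _ ⟨x, hx, rfl⟩
  have h1 := hn hx
  rw [MonoidHom.mem_ker] at h1
  have h2 : ((φ x : G) : G ⧸ N) = 1 := congrArg Subtype.val h1
  rw [QuotientGroup.eq_one_iff] at h2
  exact hNW n h2

/-- finitely generated soluble subgroups of `OX` groups are nilpotent -/
theorem fg_soluble_nilpotent {G : Type u} [Group G] (hG : OX G) (H : Subgroup G)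
    (hH : H.FG) (hs : Group.IsSolvable H) : Group.IsNilpotent H := by
  obtain ⟨d, hd⟩ := hs.solvable
  have _ : Group.FG H := (Group.fg_iff_subgroup_fg H).mpr hH
  obtain ⟨n, hn⟩ := exists_lcs_le_ker_of_soluble hG H d hd H.subtype
  rw [Subgroup.nilpotent_iff_lowerCentralSeries]
  refine ⟨n, ?_⟩
  rw [H.ker_subtype] at hn
  exact le_bot_iff.mp hn

end ConradSol
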