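import Pool.Agent.Helper277.Central
import Pool.Agent.Helper277.J1
import Pool.Agent.Helper277.J2
import Pool.Agent.Helper277.J11

set_option autoImplicit false

namespace ConradSol

universe u v

theorem OX.quotient_center {G : Type u} [Group G] (h : OX G) :
    OX (G ⧸ Subgroup.center G) := by
  obtain ⟨P, hP⟩ := h.1
  exact h.quotient _ (orderable_quotient_center (central_of_AllConrad h.2 hP)
    (fun A _ h1 h2 => exists_cone_of_torsionFree h1 h2))

theorem OX.cone {G : Type u} [Group G] (h : OX G) : ∃ P : Set G, Cone P := by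
  obtain ⟨P, hP⟩ := h.1
  exact ⟨P, hP.toCone⟩

/-- nilpotent images in an `OX` group are contained in relatively convex nilpotent subgroups -/
theorem exists_nilpotent_RC (F : Type u) [Group F] [Group.IsNilpotent F] :
    ∀ (G : Type u) [Group G], OX G → ∀ φ : F →* G,
      ∃ L : Subgroup G, RC L ∧ Group.IsNilpotent L ∧ φ.range ≤ L := by
  refine Group.nilpotent_center_quotient_ind
    (P := fun F _ _ => ∀ (G : Type u) [Group G], OX G → ∀ φ : F →* G,
      ∃ L : Subgroup G, RC L ∧ Group.IsNilpotent L ∧ φ.range ≤ L) F ?_ ?_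
  · intro F _ _ G _ hG φ
    refine ⟨⊥, ?_, inferInstance, ?_⟩
    · obtain ⟨P, hP⟩ := hG.cone
      exact ⟨P, cone_iff_isRC_bot.mp hP⟩
    · rintro _ ⟨f, rfl⟩
      rw [Subsingleton.elim f 1, map_one]
      exact Subgroup.one_mem _
  · intro F _ _ ih G _ hG φ
    set R : Subgroup G := Subgroup.centralizer (φ '' (Subgroup.center F : Set F)) with hR
    have hRC : RC R := RC.centralizer hG.1 _
    have hmem : ∀ f : F, φ f ∈ R := by
      intro f
      rw [hR, Subgroup.mem_centralizer_iff]
      rintro _ ⟨z, hz, rfl⟩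
      rw [← map_mul, ← map_mul, (Subgroup.mem_center_iff.mp hz f)]
    let φR : F →* R := φ.codRestrict R hmem
    have hcen : ∀ z ∈ Subgroup.center F, φR z ∈ Subgroup.center R := by
      intro z hz
      rw [Subgroup.mem_center_iff]
      rintro ⟨g, hg⟩
      refine Subtype.ext ?_
      have := (Subgroup.mem_centralizer_iff.mp hg) (φ z) ⟨z, hz, rfl⟩
      exact this.symm
    have hOX := (hG.of_RC R hRC).quotient_center
    let ψ : F ⧸ Subgroup.center F →* R ⧸ Subgroup.center R :=
      QuotientGroup.lift (Subgroup.center F) ((QuotientGroup.mk' (Subgroup.center R)).comp φR)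
        (fun z hz => by
          rw [MonoidHom.mem_ker, MonoidHom.comp_apply, QuotientGroup.mk'_apply,
            QuotientGroup.eq_one_iff]
          exact hcen z hz)
    obtain ⟨L', hL'RC, hL'nil, hL'⟩ := ih _ hOX ψ
    set L₁ : Subgroup R := L'.comap (QuotientGroup.mk' (Subgroup.center R)) with hL₁
    refine ⟨L₁.map R.subtype, RC.trans hRC (RC.comap _ _ hL'RC), ?_, ?_⟩
    · have h1 : Group.IsNilpotent L₁ := by
        let f : L₁ →* L' := ((QuotientGroup.mk' (Subgroup.center R)).comp L₁.subtype).codRestrict L'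
          (fun x => x.2)
        refine Subgroup.isNilpotent_of_ker_le_center f ?_
        intro x hx
        have hx' : ((x : R) : R ⧸ Subgroup.center R) = 1 := congrArg Subtype.val hx
        rw [QuotientGroup.eq_one_iff] at hx'
        rw [Subgroup.mem_center_iff]
        intro y
        exact Subtype.ext (Subgroup.mem_center_iff.mp hx' y)
      exact Group.nilpotent_of_mulEquiv (L₁.equivMapOfInjective R.subtype R.subtype_injective)
    · rintro _ ⟨f, rfl⟩
      refine ⟨φR f, ?_, rfl⟩
      exact hL' ⟨(f : F ⧸ Subgroup.center F), rfl⟩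

end ConradSol
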